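import Mathlib
set_option autoImplicit false

/-!
# The extension operator of the paraboloid in `ℝ³` and functions of bounded variation along rays

Definitions and the statements of the intermediate results.
-/

namespace Pool.Agent.TH407.AR

open MeasureTheory Set Complex
open scoped ENNReal NNReal Real

/-- `|x|²` -/
def sq (x : ℝ × ℝ) : ℝ := x.1 ^ 2 + x.2 ^ 2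

/-- `EX f X t = ∫ exp(-i (x·X + |x|² t)) f(x) dx` -/
noncomputable def EX (f : ℝ × ℝ → ℂ) (X : ℝ × ℝ) (t : ℝ) : ℂ :=
  ∫ x : ℝ × ℝ, cexp (-(I * ((x.1 * X.1 + x.2 * X.2 + sq x * t : ℝ) : ℂ))) * f x

/-- the Fourier transform on the plane -/
noncomputable def FT (f : ℝ × ℝ → ℂ) (X : ℝ × ℝ) : ℂ :=
  ∫ x : ℝ × ℝ, cexp (-(I * ((x.1 * X.1 + x.2 * X.2 : ℝ) : ℂ))) * f x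

/-- the angle of `x`, in `(-π, π]` -/
noncomputable def ang (x : ℝ × ℝ) : ℝ := (polarCoord x).2

/-- polar coordinates -/
noncomputable def pol (r θ : ℝ) : ℝ × ℝ := (r * Real.cos θ, r * Real.sin θ)

/-- `|x| e^{-|x|²}` -/
noncomputable def bas (x : ℝ × ℝ) : ℝ := √(sq x) * Real.exp (-sq x)

/-- `|x| e^{-|x|²} g(arg x)` -/
noncomputable def bg (g : ℝ → ℂ) (x : ℝ × ℝ) : ℂ := (bas x : ℂ) * g (ang x)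

/-- `H g l α = ∫_{-π}^{π} exp(i l (1 + cos 2(θ-α))) g(θ) dθ` -/
noncomputable def H (g : ℝ → ℂ) (l α : ℝ) : ℂ :=
  ∫ θ in Ioo (-π) π, cexp (I * ((l * (1 + Real.cos (2 * (θ - α))) : ℝ) : ℂ)) * g θ

/-- `|H g| + |H (g cos 2θ)| + |H (g sin 2θ)|` -/
noncomputable def HH (g : ℝ → ℂ) (l α : ℝ) : ℝ≥0∞ :=
  ‖H g l α‖ₑ + ‖H (fun θ => ((Real.cos (2 * θ) : ℝ) : ℂ) * g θ) l α‖ₑ +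
    ‖H (fun θ => ((Real.sin (2 * θ) : ℝ) : ℂ) * g θ) l α‖ₑ

/-- `ρ² / (8 (1 + t²))` -/
noncomputable def uu (ρ t : ℝ) : ℝ := ρ ^ 2 / (8 * (1 + t ^ 2))

/-- A: the planar `L⁴` estimate for the circle, weighted form -/
def Planar : Prop :=
  ∀ δ : ℝ, 0 < δ → δ ≤ 1 → ∃ C : ℝ≥0, ∀ (g : ℝ → ℂ) (B : ℝ≥0), Measurable g →
    (∀ θ, ‖g θ‖ₑ ≤ B) →
    ∫⁻ p in (univ : Set ℝ) ×ˢ Ioo (-π) π, ENNReal.ofReal (|p.1| ^ (1 - δ)) * ‖H g p.1 p.2‖ₑ ^ 4 ≤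
      C * B ^ 2 * ∫⁻ θ in Ioo (-π) π, ‖g θ‖ₑ ^ 2

/-- B: the Poisson kernel -/
def Poisson : Prop :=
  ∃ P Q : ℝ → ℝ, Continuous P ∧ Continuous Q ∧ (∀ κ, |P κ| ≤ (1 + κ ^ 2)⁻¹) ∧
    (∀ κ, |Q κ| ≤ (1 + κ ^ 2)⁻¹) ∧
    (∀ x : ℝ, 0 ≤ x → ∫ κ : ℝ, cexp (I * ((κ * x : ℝ) : ℂ)) * (P κ : ℂ) = (Real.exp (-x) : ℂ)) ∧
    (∀ x : ℝ, 0 ≤ x →
      ∫ κ : ℝ, cexp (I * ((κ * x : ℝ) : ℂ)) * (Q κ : ℂ) = ((x * Real.exp (-x) : ℝ) : ℂ))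

/-- C1: the exact formula -/
def Exact : Prop :=
  ∀ g : ℝ → ℂ, Measurable g → (∃ B : ℝ, ∀ θ, ‖g θ‖ ≤ B) →
    (∀ θ ∈ Ioo (-π) 0, g (θ + π) = g θ) → ∀ ρ : ℝ, 0 ≤ ρ → ∀ α t : ℝ,
    EX (bg g) (pol ρ α) t = ((√π / 4 : ℝ) : ℂ) * (1 + I * t) ^ (-(3 / 2) : ℂ) *
      ∫ θ in Ioo (-π) π, (1 - ((ρ * Real.cos (θ - α) : ℝ) : ℂ) ^ 2 / (2 * (1 + I * t))) *
        cexp (-(((ρ * Real.cos (θ - α) : ℝ) : ℂ) ^ 2 / (4 * (1 + I * t)))) * g θ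

/-- C2: the bound for the base profile -/
def BaseBound : Prop :=
  ∃ C : ℝ≥0, ∀ g : ℝ → ℂ, Measurable g → (∃ B : ℝ, ∀ θ, ‖g θ‖ ≤ B) →
    (∀ θ ∈ Ioo (-π) 0, g (θ + π) = g θ) → ∀ ρ : ℝ, 0 ≤ ρ → ∀ α t : ℝ,
    ‖EX (bg g) (pol ρ α) t‖ₑ ≤ C * ∫⁻ κ : ℝ, ENNReal.ofReal ((1 + κ ^ 2)⁻¹ *
      ((1 + t ^ 2) ^ (-(3 / 4) : ℝ) + (1 + t ^ 2) ^ (-(1 / 4) : ℝ) * (uu ρ t / (1 + uu ρ t)))) *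
        HH g (uu ρ t * (t + κ)) α

/-- D: fixed time `L⁴` bound, `π`-periodic `g` -/
def EvenBound : Prop :=
  ∀ δ : ℝ, 0 < δ → δ ≤ 1 / 2 → ∃ C : ℝ≥0, ∀ (g : ℝ → ℂ) (B : ℝ≥0), Measurable g →
    (∀ θ, ‖g θ‖ₑ ≤ B) → (∀ θ ∈ Ioo (-π) 0, g (θ + π) = g θ) → ∀ t : ℝ,
    ∫⁻ X : ℝ × ℝ, ‖EX (bg g) X t‖ₑ ^ 4 ≤
      C * ENNReal.ofReal ((1 + |t|) ^ (-2 + δ)) * B ^ 2 * ∫⁻ θ in Ioo (-π) π, ‖g θ‖ₑ ^ 2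

/-- E: restriction to a half plane -/
def HalfPlane : Prop :=
  ∀ F G : ℝ × ℝ → ℂ, Integrable F → Integrable G → (∃ B : ℝ, ∀ x, ‖F x‖ ≤ B) →
    (∃ B : ℝ, ∀ x, ‖G x‖ ≤ B) → (∀ x, x.2 ≤ 0 → F x = 0) → (∀ x, 0 ≤ x.2 → G x = 0) →
    ∫⁻ X, ‖FT F X‖ₑ ^ 4 ≤ 8 * ∫⁻ X, ‖FT F X + FT G X‖ₑ ^ 4

/-- F: fixed time `L⁴` bound, all `g` -/
def AllBound : Prop :=
  ∀ δ : ℝ, 0 < δ → δ ≤ 1 / 2 → ∃ C : ℝ≥0, ∀ (g : ℝ → ℂ) (B : ℝ≥0), Measurable g →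
    (∀ θ, ‖g θ‖ₑ ≤ B) → ∀ t : ℝ,
    ∫⁻ X : ℝ × ℝ, ‖EX (bg g) X t‖ₑ ^ 4 ≤
      C * ENNReal.ofReal ((1 + |t|) ^ (-2 + δ)) * B ^ 2 * ∫⁻ θ in Ioo (-π) π, ‖g θ‖ₑ ^ 2

/-- `a s θ` is supported in `s ∈ [0,1]`, bounded by `M θ`, and of variation `≤ M θ` in `s`, in
the sense of the `L¹` modulus of continuity. -/
structure Adm (a : ℝ → ℝ → ℂ) (M : ℝ → ℝ≥0) : Prop where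
  ma : Measurable (Function.uncurry a)
  mM : Measurable M
  supp : ∀ s θ, s ∉ Icc (0 : ℝ) 1 → a s θ = 0
  bd : ∀ s θ, ‖a s θ‖ₑ ≤ M θ
  modc : ∀ h θ, ∫⁻ s : ℝ, ‖a (s + h) θ - a s θ‖ₑ ≤ M θ * ENNReal.ofReal |h|

/-- `|x| e^{-|x|²} a(|x|², arg x)` -/
noncomputable def fa (a : ℝ → ℝ → ℂ) (x : ℝ × ℝ) : ℂ := (bas x : ℂ) * a (sq x) (ang x)

/-- Fourier transform in `s` -/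
noncomputable def ah (a : ℝ → ℝ → ℂ) (κ θ : ℝ) : ℂ :=
  ∫ s : ℝ, cexp (-(I * ((κ * s : ℝ) : ℂ))) * a s θ

/-- the part of `a` with frequencies `|κ| ≤ T/2` -/
noncomputable def aT (a : ℝ → ℝ → ℂ) (T s θ : ℝ) : ℂ :=
  ((2 * π : ℝ) : ℂ)⁻¹ * ∫ κ in Icc (-(T / 2)) (T / 2), cexp (I * ((κ * s : ℝ) : ℂ)) * ah a κ θ

/-- G1: facts about `ah` and `aT` -/
def FourierFacts : Prop :=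
  ∀ (a : ℝ → ℝ → ℂ) (M : ℝ → ℝ≥0), Adm a M →
    Measurable (Function.uncurry (ah a)) ∧
    (∀ κ θ, ‖ah a κ θ‖ₑ ≤ M θ * ENNReal.ofReal (3 / (1 + |κ|))) ∧
    ∀ T : ℝ, 0 < T → Measurable (Function.uncurry (aT a T)) ∧
      (∀ θ, ∫⁻ s : ℝ, ‖aT a T s θ‖ₑ ^ 2 ≤ (M θ : ℝ≥0∞) ^ 2) ∧
      (∀ θ, ∫⁻ s : ℝ, ‖a s θ - aT a T s θ‖ₑ ^ 2 ≤ (M θ : ℝ≥0∞) ^ 2 * ENNReal.ofReal (6 / T))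

/-- G2: fixed time `L⁴` bound for the low frequency part -/
def LowL4 : Prop :=
  ∀ δ : ℝ, 0 < δ → δ ≤ 1 / 2 → ∃ C : ℝ≥0, ∀ (a : ℝ → ℝ → ℂ) (M : ℝ → ℝ≥0) (B : ℝ≥0), Adm a M →
    (∀ θ, M θ ≤ B) → ∀ T : ℝ, 1 ≤ T → ∀ t : ℝ, T ≤ |t| →
    ∫⁻ X : ℝ × ℝ, ‖EX (fa (aT a T)) X t‖ₑ ^ 4 ≤
      C * ENNReal.ofReal (T ^ (-2 + δ)) * B ^ 2 * ∫⁻ θ in Ioo (-π) π, (M θ : ℝ≥0∞) ^ 2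

/-- G3: `L²` and `L¹` bounds -/
def FaBounds : Prop :=
  ∀ b : ℝ → ℝ → ℂ, Measurable (Function.uncurry b) →
    ∫⁻ s : ℝ, ∫⁻ θ in Ioo (-π) π, ‖b s θ‖ₑ ^ 2 ≠ ∞ →
    Integrable (fa b) ∧ MemLp (fa b) 2 ∧
    (∀ t, ∫⁻ X : ℝ × ℝ, ‖EX (fa b) X t‖ₑ ^ 2 ≤
      ENNReal.ofReal (2 * π ^ 2) * ∫⁻ s : ℝ, ∫⁻ θ in Ioo (-π) π, ‖b s θ‖ₑ ^ 2) ∧
    (∀ X t, ‖EX (fa b) X t‖ₑ ^ 2 ≤ ∫⁻ s : ℝ, ∫⁻ θ in Ioo (-π) π, ‖b s θ‖ₑ ^ 2)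

/-- G: the restricted estimate -/
def RestrBound : Prop :=
  ∀ q : ℝ, 3 < q → ∃ C : ℝ≥0, ∀ (a : ℝ → ℝ → ℂ) (M : ℝ → ℝ≥0) (B : ℝ≥0), Adm a M →
    (∀ θ, M θ ≤ B) →
    ∫⁻ ξ : (ℝ × ℝ) × ℝ, ‖EX (fa a) ξ.1 ξ.2‖ₑ ^ q ≤
      C * (B : ℝ≥0∞) ^ (q - 2) * ∫⁻ θ in Ioo (-π) π, (M θ : ℝ≥0∞) ^ 2

/-- I: the summation lemma -/
def SumLemma : Prop :=
  ∀ q₀ q q₁ : ℝ, 1 ≤ q₀ → q₀ < q → q < q₁ → ∃ C : ℝ≥0, ∀ F : ℤ → ℝ≥0∞,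
    (∑' k : ℤ, F k) ^ q ≤ C * (∑' k : ℤ, ENNReal.ofReal ((2 : ℝ) ^ (k * (q - q₀))) * F k ^ q₀ +
      ∑' k : ℤ, ENNReal.ofReal ((2 : ℝ) ^ (-(k * (q₁ - q)))) * F k ^ q₁)

/-- J: the strong estimate -/
def StrongBound : Prop :=
  ∀ q : ℝ, 3 < q → ∃ C : ℝ≥0, ∀ (a : ℝ → ℝ → ℂ) (M : ℝ → ℝ≥0), Adm a M →
    ∫⁻ ξ : (ℝ × ℝ) × ℝ, ‖EX (fa a) ξ.1 ξ.2‖ₑ ^ q ≤ C * ∫⁻ θ in Ioo (-π) π, (M θ : ℝ≥0∞) ^ q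

/-- K: bounded variation controls the `L¹` modulus of continuity -/
def VarMod : Prop :=
  ∀ (φ : ℝ → ℂ) (V : ℝ≥0∞), Measurable φ → eVariationOn φ univ ≤ V →
    ∀ h : ℝ, ∫⁻ s : ℝ, ‖φ (s + h) - φ s‖ₑ ≤ V * ENNReal.ofReal |h|

/-- the shell estimate: `f` is supported in the shell `1/2 < |x| ≤ 1` -/
def ShellBound : Prop :=
  ∀ q : ℝ, 3 < q → ∃ C : ℝ≥0, ∀ (f : ℝ × ℝ → ℂ) (M : ℝ → ℝ≥0), Measurable f → Measurable M →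
    (∀ x, ¬ (1 / 4 < sq x ∧ sq x ≤ 1) → f x = 0) →
    (∀ θ ∈ Ioo (-π) π, ∀ r ∈ Ioc (1 / 2 : ℝ) 1, ‖f (pol r θ)‖ₑ ≤ M θ) →
    (∀ θ ∈ Ioo (-π) π, eVariationOn (fun r => f (pol r θ)) (Ioc (1 / 2) 1) ≤ M θ) →
    ∫⁻ ξ : (ℝ × ℝ) × ℝ, ‖EX f ξ.1 ξ.2‖ₑ ^ q ≤ C * ∫⁻ θ in Ioo (-π) π, (M θ : ℝ≥0∞) ^ q

end Pool.Agent.TH407.AR
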