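import Mathlib
import Pool.Agent.TH407.AR.Defs
set_option autoImplicit false

/-! VR-D, part 1: preliminaries -/

namespace Pool.Agent.TH407.AR

open MeasureTheory Set Complex
open scoped ENNReal NNReal Real

lemma H_meas {g : ℝ → ℂ} (hg : Measurable g) : Measurable (fun p : ℝ × ℝ => H g p.1 p.2) := by
  have h : StronglyMeasurable (fun p : (ℝ × ℝ) × ℝ =>
      cexp (I * ((p.1.1 * (1 + Real.cos (2 * (p.2 - p.1.2))) : ℝ) : ℂ)) * g p.2) := by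
    apply Measurable.stronglyMeasurable
    fun_prop
  exact (h.integral_prod_right' (ν := volume.restrict (Ioo (-π) π))).measurable

lemma HH_meas {g : ℝ → ℂ} (hg : Measurable g) : Measurable (fun p : ℝ × ℝ => HH g p.1 p.2) := by
  unfold HH
  have h1 : Measurable (fun θ : ℝ => ((Real.cos (2 * θ) : ℝ) : ℂ) * g θ) := by fun_prop
  have h2 : Measurable (fun θ : ℝ => ((Real.sin (2 * θ) : ℝ) : ℂ) * g θ) := by fun_prop
  exact ((H_meas hg).enorm.add (H_meas h1).enorm).add (H_meas h2).enorm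

lemma three_pow (a b c : ℝ≥0∞) : (a + b + c) ^ 4 ≤ 27 * (a ^ 4 + b ^ 4 + c ^ 4) := by
  have h := ENNReal.inner_le_Lp_mul_Lq (Finset.univ : Finset (Fin 3)) ![a, b, c] (fun _ => 1)
    (p := 4) (q := 4 / 3) (by constructor <;> norm_num)
  simp only [Fin.sum_univ_three, Matrix.cons_val_zero, Matrix.cons_val_one, mul_one,
    ENNReal.one_rpow] at h
  have h2 : (![a, b, c] 2 : ℝ≥0∞) = c := rfl
  rw [h2] at h
  have h3 := pow_le_pow_left' h 4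
  refine h3.trans (le_of_eq ?_)
  rw [mul_pow, ← ENNReal.rpow_natCast, ← ENNReal.rpow_natCast, ← ENNReal.rpow_mul,
    ← ENNReal.rpow_mul, mul_comm]
  have : (1 + 1 + 1 : ℝ≥0∞) = 3 := by norm_num
  rw [this, show (1 / (4 / 3) * ((4 : ℕ) : ℝ) : ℝ) = (3 : ℕ) by norm_num, ENNReal.rpow_natCast]
  norm_num

/-- the planar estimate for `HH` -/
lemma planarHH (hA : Planar) (δ : ℝ) (h0 : 0 < δ) (h1 : δ ≤ 1) : ∃ C : ℝ≥0, ∀ (g : ℝ → ℂ) (B : ℝ≥0),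
    Measurable g → (∀ θ, ‖g θ‖ₑ ≤ B) →
    ∫⁻ l : ℝ, ∫⁻ α in Ioo (-π) π, ENNReal.ofReal (|l| ^ (1 - δ)) * HH g l α ^ 4 ≤
      C * (B ^ 2 * ∫⁻ θ in Ioo (-π) π, ‖g θ‖ₑ ^ 2) := by
  obtain ⟨C, hC⟩ := hA δ h0 h1
  refine ⟨27 * (3 * C), ?_⟩
  intro g B hg hB
  have hmul : ∀ c : ℝ → ℝ, Measurable c → (∀ θ, |c θ| ≤ 1) →
      ∫⁻ l : ℝ, ∫⁻ α in Ioo (-π) π, ENNReal.ofReal (|l| ^ (1 - δ)) *
        ‖H (fun θ => ((c θ : ℝ) : ℂ) * g θ) l α‖ₑ ^ 4 ≤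
      C * (B ^ 2 * ∫⁻ θ in Ioo (-π) π, ‖g θ‖ₑ ^ 2) := by
    intro c hc hc1
    have hm : Measurable (fun θ => ((c θ : ℝ) : ℂ) * g θ) := by fun_prop
    have hle : ∀ θ, ‖((c θ : ℝ) : ℂ) * g θ‖ₑ ≤ ‖g θ‖ₑ := by
      intro θ
      rw [enorm_mul]
      calc ‖((c θ : ℝ) : ℂ)‖ₑ * ‖g θ‖ₑ ≤ 1 * ‖g θ‖ₑ := by
            gcongr
            rw [← ofReal_norm, Complex.norm_real, Real.norm_eq_abs]
            exact ENNReal.ofReal_le_one.2 (hc1 θ)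
        _ = ‖g θ‖ₑ := one_mul _
    have h := hC (fun θ => ((c θ : ℝ) : ℂ) * g θ) B hm (fun θ => (hle θ).trans (hB θ))
    rw [Measure.volume_eq_prod, ← Measure.prod_restrict, Measure.restrict_univ,
      lintegral_prod] at h
    · refine h.trans ?_
      rw [mul_assoc]
      gcongr with θ
      exact hle θ
    · have := (H_meas hm).enorm
      apply Measurable.aemeasurable
      fun_prop
  have e0 := hmul (fun _ => 1) measurable_const (by simp)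
  have e1 := hmul (fun θ => Real.cos (2 * θ)) (by fun_prop) (fun θ => Real.abs_cos_le_one _)
  have e2 := hmul (fun θ => Real.sin (2 * θ)) (by fun_prop) (fun θ => Real.abs_sin_le_one _)
  simp only [Complex.ofReal_one, one_mul] at e0
  have m1 : Measurable (fun θ : ℝ => ((Real.cos (2 * θ) : ℝ) : ℂ) * g θ) := by fun_prop
  have m2 : Measurable (fun θ : ℝ => ((Real.sin (2 * θ) : ℝ) : ℂ) * g θ) := by fun_prop
  set N := (B : ℝ≥0∞) ^ 2 * ∫⁻ θ in Ioo (-π) π, ‖g θ‖ₑ ^ 2 with hN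
  set ν : Measure (ℝ × ℝ) := (volume : Measure ℝ).prod (volume.restrict (Ioo (-π) π)) with hν
  have W : Measurable (fun p : ℝ × ℝ => ENNReal.ofReal (|p.1| ^ (1 - δ))) := by fun_prop
  have w0 : Measurable (fun p : ℝ × ℝ => ENNReal.ofReal (|p.1| ^ (1 - δ)) * ‖H g p.1 p.2‖ₑ ^ 4) :=
    W.mul ((H_meas hg).enorm.pow_const 4)
  have w1 : Measurable (fun p : ℝ × ℝ => ENNReal.ofReal (|p.1| ^ (1 - δ)) *
      ‖H (fun θ => ((Real.cos (2 * θ) : ℝ) : ℂ) * g θ) p.1 p.2‖ₑ ^ 4) :=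
    W.mul ((H_meas m1).enorm.pow_const 4)
  have w2 : Measurable (fun p : ℝ × ℝ => ENNReal.ofReal (|p.1| ^ (1 - δ)) *
      ‖H (fun θ => ((Real.sin (2 * θ) : ℝ) : ℂ) * g θ) p.1 p.2‖ₑ ^ 4) :=
    W.mul ((H_meas m2).enorm.pow_const 4)
  have w3 : Measurable (fun p : ℝ × ℝ => ENNReal.ofReal (|p.1| ^ (1 - δ)) * HH g p.1 p.2 ^ 4) :=
    W.mul ((HH_meas hg).pow_const 4)
  rw [← lintegral_prod _ w0.aemeasurable] at e0
  rw [← lintegral_prod _ w1.aemeasurable] at e1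
  rw [← lintegral_prod _ w2.aemeasurable] at e2
  rw [← lintegral_prod _ w3.aemeasurable]
  have hle : ∫⁻ p, ENNReal.ofReal (|p.1| ^ (1 - δ)) * HH g p.1 p.2 ^ 4 ∂ν ≤
      ∫⁻ p, 27 * ((ENNReal.ofReal (|p.1| ^ (1 - δ)) * ‖H g p.1 p.2‖ₑ ^ 4 +
        ENNReal.ofReal (|p.1| ^ (1 - δ)) *
          ‖H (fun θ => ((Real.cos (2 * θ) : ℝ) : ℂ) * g θ) p.1 p.2‖ₑ ^ 4) +
        ENNReal.ofReal (|p.1| ^ (1 - δ)) *
          ‖H (fun θ => ((Real.sin (2 * θ) : ℝ) : ℂ) * g θ) p.1 p.2‖ₑ ^ 4) ∂ν := by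
    apply lintegral_mono
    intro p
    refine (mul_le_mul' le_rfl (three_pow _ _ _)).trans (le_of_eq ?_)
    ring
  have w01 : Measurable (fun p : ℝ × ℝ => ENNReal.ofReal (|p.1| ^ (1 - δ)) * ‖H g p.1 p.2‖ₑ ^ 4 +
      ENNReal.ofReal (|p.1| ^ (1 - δ)) *
        ‖H (fun θ => ((Real.cos (2 * θ) : ℝ) : ℂ) * g θ) p.1 p.2‖ₑ ^ 4) := w0.add w1
  have w012 : Measurable (fun p : ℝ × ℝ => (ENNReal.ofReal (|p.1| ^ (1 - δ)) * ‖H g p.1 p.2‖ₑ ^ 4 +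
      ENNReal.ofReal (|p.1| ^ (1 - δ)) *
        ‖H (fun θ => ((Real.cos (2 * θ) : ℝ) : ℂ) * g θ) p.1 p.2‖ₑ ^ 4) +
      ENNReal.ofReal (|p.1| ^ (1 - δ)) *
        ‖H (fun θ => ((Real.sin (2 * θ) : ℝ) : ℂ) * g θ) p.1 p.2‖ₑ ^ 4) := w01.add w2
  rw [lintegral_const_mul _ w012, lintegral_add_left w01, lintegral_add_left w0] at hle
  refine hle.trans ?_
  calc _ ≤ 27 * (C * N + C * N + C * N) := by
        exact mul_le_mul' le_rfl (add_le_add (add_le_add e0 e1) e2)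
    _ = _ := by push_cast; ring

/-- scaling -/
lemma scale_le (F : ℝ → ℝ≥0∞) (hF : Measurable F) (τ : ℝ) (hτ : τ ≠ 0) :
    ∫⁻ u in Ioi (0 : ℝ), F (u * τ) ≤ ENNReal.ofReal |τ|⁻¹ * ∫⁻ l : ℝ, F l := by
  refine (setLIntegral_le_lintegral _ _).trans (le_of_eq ?_)
  have h := Real.map_volume_mul_right hτ
  have h2 : ∫⁻ u : ℝ, F (u * τ) = ∫⁻ l, F l ∂(Measure.map (fun x => x * τ) volume) := by
    rw [lintegral_map hF (by fun_prop)]
  rw [h2, h, lintegral_smul_measure, smul_eq_mul, abs_inv]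

/-- weighted Hölder -/
lemma holder4 {X : Type*} [MeasurableSpace X] (μ : Measure X) (a b c F : X → ℝ≥0∞)
    (ha : Measurable a) (hb : Measurable b) (hc : Measurable c) (hF : Measurable F)
    (h : ∀ᵐ x ∂μ, 1 ≤ b x ^ 3 * c x) :
    (∫⁻ x, a x * F x ∂μ) ^ 4 ≤ (∫⁻ x, a x * b x ∂μ) ^ 3 * ∫⁻ x, a x * (c x * F x ^ 4) ∂μ := by
  have h1 : ∫⁻ x, a x * F x ∂μ ≤
      ∫⁻ x, ((a x * b x) ^ (3 / 4 : ℝ)) * ((a x * (c x * F x ^ 4)) ^ (1 / 4 : ℝ)) ∂μ := by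
    apply lintegral_mono_ae
    filter_upwards [h] with x hx
    rw [ENNReal.mul_rpow_of_nonneg _ _ (by norm_num), ENNReal.mul_rpow_of_nonneg _ _ (by norm_num),
      ENNReal.mul_rpow_of_nonneg _ _ (by norm_num)]
    have e1 : (F x ^ 4) ^ (1 / 4 : ℝ) = F x := by
      rw [← ENNReal.rpow_natCast, ← ENNReal.rpow_mul]
      norm_num
    have e2 : a x ^ (3 / 4 : ℝ) * a x ^ (1 / 4 : ℝ) = a x := by
      rw [← ENNReal.rpow_add_of_nonneg _ _ (by norm_num) (by norm_num)]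
      norm_num
    have e3 : 1 ≤ b x ^ (3 / 4 : ℝ) * c x ^ (1 / 4 : ℝ) := by
      have : b x ^ (3 / 4 : ℝ) * c x ^ (1 / 4 : ℝ) = (b x ^ 3 * c x) ^ (1 / 4 : ℝ) := by
        rw [ENNReal.mul_rpow_of_nonneg _ _ (by norm_num), ← ENNReal.rpow_natCast,
          ← ENNReal.rpow_mul]
        norm_num
      rw [this]
      exact ENNReal.one_le_rpow hx (by norm_num)
    rw [e1]
    calc a x * F x = (a x ^ (3 / 4 : ℝ) * a x ^ (1 / 4 : ℝ)) * 1 * F x := by rw [e2, mul_one]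
      _ ≤ (a x ^ (3 / 4 : ℝ) * a x ^ (1 / 4 : ℝ)) * (b x ^ (3 / 4 : ℝ) * c x ^ (1 / 4 : ℝ)) *
          F x := by gcongr
      _ = _ := by ring
  have h2 := ENNReal.lintegral_mul_le_Lp_mul_Lq μ (p := 4 / 3) (q := 4)
    (f := fun x => (a x * b x) ^ (3 / 4 : ℝ)) (g := fun x => (a x * (c x * F x ^ 4)) ^ (1 / 4 : ℝ))
    (by constructor <;> norm_num) (by fun_prop) (by fun_prop)
  have h3 := pow_le_pow_left' (h1.trans h2) 4
  refine h3.trans (le_of_eq ?_)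
  rw [mul_pow]
  congr 1
  · rw [← ENNReal.rpow_natCast, ← ENNReal.rpow_mul, ← ENNReal.rpow_natCast]
    norm_num
    congr 1
    apply lintegral_congr
    intro x
    rw [← ENNReal.rpow_mul]
    norm_num
  · rw [← ENNReal.rpow_natCast, ← ENNReal.rpow_mul]
    norm_num
    apply lintegral_congr
    intro x
    rw [← ENNReal.rpow_natCast, ← ENNReal.rpow_mul]
    norm_num

end Pool.Agent.TH407.AR
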