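import Mathlib
import Pool.Agent.TH407.AR.D1
set_option autoImplicit false

/-! VR-D, part 2: integrals of the weights -/

namespace Pool.Agent.TH407.AR

open MeasureTheory Set Complex
open scoped ENNReal NNReal Real

/-- the weight `1/(1+κ²)` -/
noncomputable def kk (κ : ℝ) : ℝ≥0∞ := ENNReal.ofReal ((1 + κ ^ 2)⁻¹)

lemma kk_meas : Measurable kk := by
  unfold kk
  fun_prop

lemma kk_int : ∫⁻ κ, kk κ ≠ ∞ := by
  have h := integrable_inv_one_add_sq
  have h2 := h.lintegral_lt_top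
  exact h2.ne

/-- a weight -/
noncomputable def nr (s τ : ℝ) : ℝ := if |τ| < 1 then |τ| ^ (-(1 / 2) : ℝ) else |τ| ^ (-s)

lemma nr_meas (s : ℝ) : Measurable (nr s) := by
  unfold nr
  refine Measurable.ite ?_ (by fun_prop) (by fun_prop)
  exact measurableSet_lt (by fun_prop) (by fun_prop)

lemma nr_nonneg (s τ : ℝ) : 0 ≤ nr s τ := by
  unfold nr
  split_ifs <;> positivity

lemma nr_int (s : ℝ) (hs : 1 < s) : ∫⁻ τ, ENNReal.ofReal (nr s τ) ≠ ∞ := by
  have hi : Integrable (nr s) := by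
    have h1 : IntegrableOn (nr s) (Ioo 0 1) := by
      have : IntegrableOn (fun x : ℝ => x ^ (-(1 / 2) : ℝ)) (Ioo 0 1) := by
        rw [intervalIntegral.integrableOn_Ioo_rpow_iff (by norm_num)]
        norm_num
      refine this.congr_fun (fun x hx => ?_) measurableSet_Ioo
      unfold nr
      rw [if_pos (by rw [abs_of_pos hx.1]; exact hx.2), abs_of_pos hx.1]
    have h2 : IntegrableOn (nr s) (Ici 1) := by
      rw [integrableOn_Ici_iff_integrableOn_Ioi]
      have : IntegrableOn (fun x : ℝ => x ^ (-s)) (Ioi 1) := by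
        rw [integrableOn_Ioi_rpow_iff (by norm_num)]
        linarith
      refine this.congr_fun (fun x hx => ?_) measurableSet_Ioi
      have hx' : (1 : ℝ) < x := hx
      unfold nr
      rw [abs_of_pos (by linarith), if_neg (by linarith)]
    have h3 : IntegrableOn (nr s) (Ioi 0) := by
      have : (Ioi (0 : ℝ)) = Ioo 0 1 ∪ Ici 1 := (Ioo_union_Ici_eq_Ioi (by norm_num)).symm
      rw [this]
      exact h1.union h2
    have h4 : IntegrableOn (nr s) (Iio 0) := by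
      have h5 : IntegrableOn (fun x => nr s (-x)) (Iio 0) := by
        have := h3.comp_neg
        simpa using this
      refine h5.congr_fun (fun x _ => ?_) measurableSet_Iio
      simp only [nr, abs_neg]
    have h6 : IntegrableOn (nr s) (Iio 0 ∪ Ioi 0) := h4.union h3
    rw [← integrableOn_univ]
    refine h6.congr_set_ae ?_
    have : (Iio (0 : ℝ) ∪ Ioi 0) = {0}ᶜ := by
      ext x; simp
    rw [this]
    exact (ae_eq_univ.2 (by simp)).symm
  exact hi.lintegral_lt_top.ne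

/-- Hölder weight -/
noncomputable def bw (τ : ℝ) : ℝ≥0∞ := ENNReal.ofReal (if |τ| < 1 then |τ| ^ (-(1 / 6) : ℝ) else 1)

/-- Hölder weight -/
noncomputable def cw (τ : ℝ) : ℝ≥0∞ := ENNReal.ofReal (if |τ| < 1 then |τ| ^ (1 / 2 : ℝ) else 1)

lemma bw_meas : Measurable bw := by
  unfold bw
  refine (Measurable.ite ?_ (by fun_prop) (by fun_prop)).ennreal_ofReal
  exact measurableSet_lt (by fun_prop) (by fun_prop)

lemma cw_meas : Measurable cw := by
  unfold cw
  refine (Measurable.ite ?_ (by fun_prop) (by fun_prop)).ennreal_ofReal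
  exact measurableSet_lt (by fun_prop) (by fun_prop)

lemma bw_cw (τ : ℝ) (hτ : τ ≠ 0) : 1 ≤ bw τ ^ 3 * cw τ := by
  unfold bw cw
  have h0 : 0 < |τ| := abs_pos.2 hτ
  split_ifs with h
  · rw [← ENNReal.ofReal_pow (by positivity), ← ENNReal.ofReal_mul (by positivity),
      ← Real.rpow_natCast, ← Real.rpow_mul h0.le, ← Real.rpow_add h0]
    norm_num
  · simp

lemma bw_le (τ : ℝ) : bw τ ≤ 1 + ENNReal.ofReal (nr 2 τ) := by
  unfold bw
  split_ifs with h
  · refine le_trans ?_ le_add_self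
    apply ENNReal.ofReal_le_ofReal
    unfold nr
    rw [if_pos h]
    by_cases h0 : |τ| = 0
    · rw [h0, Real.zero_rpow (by norm_num), Real.zero_rpow (by norm_num)]
    · exact Real.rpow_le_rpow_of_exponent_ge (lt_of_le_of_ne (abs_nonneg _) (Ne.symm h0)) h.le
        (by norm_num)
  · rw [ENNReal.ofReal_one]
    exact le_self_add

lemma cw_le (τ : ℝ) : cw τ * ENNReal.ofReal |τ|⁻¹ ≤ 1 + ENNReal.ofReal (nr 2 τ) := by
  unfold cw
  split_ifs with h
  · refine le_trans ?_ le_add_self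
    rw [← ENNReal.ofReal_mul (by positivity)]
    apply ENNReal.ofReal_le_ofReal
    unfold nr
    rw [if_pos h]
    by_cases h0 : |τ| = 0
    · rw [h0, Real.zero_rpow (by norm_num), Real.zero_rpow (by norm_num)]
      simp
    · have hp := (lt_of_le_of_ne (abs_nonneg τ) (Ne.symm h0))
      rw [← Real.rpow_neg_one, ← Real.rpow_add hp]
      norm_num
  · rw [ENNReal.ofReal_one, one_mul]
    refine le_trans ?_ le_self_add
    rw [← ENNReal.ofReal_one]
    apply ENNReal.ofReal_le_ofReal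
    exact inv_le_one_of_one_le₀ (not_lt.1 h)

lemma cw_mm (δ τ : ℝ) (hτ : τ ≠ 0) :
    cw τ * min (ENNReal.ofReal |τ|⁻¹) (ENNReal.ofReal (|τ| ^ (-(2 - δ)))) ≤
      ENNReal.ofReal (nr (2 - δ) τ) := by
  have hp : 0 < |τ| := abs_pos.2 hτ
  unfold cw nr
  split_ifs with h
  · refine (mul_le_mul' le_rfl (min_le_left _ _)).trans ?_
    rw [← ENNReal.ofReal_mul (by positivity), ← Real.rpow_neg_one, ← Real.rpow_add hp]
    norm_num
  · rw [ENNReal.ofReal_one, one_mul]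
    exact min_le_right _ _

lemma kk_bw : ∃ C : ℝ≥0, ∀ t : ℝ, ∫⁻ κ, kk κ * (1 + ENNReal.ofReal (nr 2 (t + κ))) ≤ C := by
  refine ⟨((∫⁻ κ, kk κ) + ∫⁻ τ, ENNReal.ofReal (nr 2 τ)).toNNReal, fun t => ?_⟩
  rw [ENNReal.coe_toNNReal (ENNReal.add_ne_top.2 ⟨kk_int, nr_int 2 (by norm_num)⟩)]
  calc ∫⁻ κ, kk κ * (1 + ENNReal.ofReal (nr 2 (t + κ)))
      ≤ ∫⁻ κ, (kk κ + ENNReal.ofReal (nr 2 (t + κ))) := by
        gcongr with κ
        rw [mul_add, mul_one]
        gcongr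
        calc kk κ * ENNReal.ofReal (nr 2 (t + κ)) ≤ 1 * ENNReal.ofReal (nr 2 (t + κ)) := by
              gcongr
              unfold kk
              rw [← ENNReal.ofReal_one]
              apply ENNReal.ofReal_le_ofReal
              apply inv_le_one_of_one_le₀
              nlinarith [sq_nonneg κ]
          _ = _ := one_mul _
    _ = (∫⁻ κ, kk κ) + ∫⁻ κ, ENNReal.ofReal (nr 2 (t + κ)) := lintegral_add_left kk_meas _
    _ = _ := by
        rw [lintegral_add_left_eq_self (fun κ => ENNReal.ofReal (nr 2 κ)) t]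

lemma kk_nr_pt (δ : ℝ) (h0 : 0 < δ) (h1 : δ ≤ 1 / 2) (t κ : ℝ) :
    (1 + |t|) ^ (2 - δ) * ((1 + κ ^ 2)⁻¹ * nr (2 - δ) (t + κ)) ≤
      8 * nr (2 - δ) (t + κ) + 4 * (1 + κ ^ 2)⁻¹ := by
  set τ := t + κ with hτ
  have hn := nr_nonneg (2 - δ) τ
  have hk : 0 < (1 + κ ^ 2)⁻¹ := by positivity
  have ht : |t| ≤ |κ| + |τ| := by
    have : t = τ - κ := by rw [hτ]; ring
    rw [this]
    exact (abs_sub _ _).trans (by linarith)
  have h2 : (1 + |t|) ^ (2 - δ) ≤ 4 * ((1 + |κ|) ^ (2 - δ) + |τ| ^ (2 - δ)) := by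
    have e1 : (1 + |t|) ^ (2 - δ) ≤ ((1 + |κ|) + |τ|) ^ (2 - δ) := by
      apply Real.rpow_le_rpow (by positivity) (by linarith) (by linarith)
    have e2 : ((1 + |κ|) + |τ|) ^ (2 - δ) ≤
        4 * max ((1 + |κ|) ^ (2 - δ)) (|τ| ^ (2 - δ)) := by
      have hm : ((1 + |κ|) + |τ|) ≤ 2 * max (1 + |κ|) |τ| := by
        have a1 := le_max_left (1 + |κ|) |τ|
        have a2 := le_max_right (1 + |κ|) |τ|
        linarith
      calc ((1 + |κ|) + |τ|) ^ (2 - δ) ≤ (2 * max (1 + |κ|) |τ|) ^ (2 - δ) := by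
            apply Real.rpow_le_rpow (by positivity) hm (by linarith)
        _ = 2 ^ (2 - δ) * (max (1 + |κ|) |τ|) ^ (2 - δ) := by
            rw [Real.mul_rpow (by norm_num) (by positivity)]
        _ ≤ 4 * (max (1 + |κ|) |τ|) ^ (2 - δ) := by
            gcongr
            calc (2 : ℝ) ^ (2 - δ) ≤ 2 ^ (2 : ℝ) := by
                  apply Real.rpow_le_rpow_of_exponent_le (by norm_num) (by linarith)
              _ = 4 := by norm_num
        _ = 4 * max ((1 + |κ|) ^ (2 - δ)) (|τ| ^ (2 - δ)) := by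
            congr 1
            rcases le_total (1 + |κ|) |τ| with h | h
            · rw [max_eq_right h, max_eq_right]
              exact Real.rpow_le_rpow (by positivity) h (by linarith)
            · rw [max_eq_left h, max_eq_left]
              exact Real.rpow_le_rpow (by positivity) h (by linarith)
    refine e1.trans (e2.trans ?_)
    have : max ((1 + |κ|) ^ (2 - δ)) (|τ| ^ (2 - δ)) ≤ (1 + |κ|) ^ (2 - δ) + |τ| ^ (2 - δ) := by
      apply max_le
      · have : 0 ≤ |τ| ^ (2 - δ) := by positivity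
        linarith
      · have : 0 ≤ (1 + |κ|) ^ (2 - δ) := by positivity
        linarith
    linarith
  have h3 : (1 + |κ|) ^ (2 - δ) * (1 + κ ^ 2)⁻¹ ≤ 2 := by
    have e1 : (1 + |κ|) ^ (2 - δ) ≤ (1 + |κ|) ^ (2 : ℝ) := by
      apply Real.rpow_le_rpow_of_exponent_le (by linarith [abs_nonneg κ]) (by linarith)
    have e2 : (1 + |κ|) ^ (2 : ℝ) ≤ 2 * (1 + κ ^ 2) := by
      rw [show (2 : ℝ) = ((2 : ℕ) : ℝ) by norm_num, Real.rpow_natCast]
      push_cast
      nlinarith [sq_abs κ, sq_nonneg (1 - |κ|)]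
    rw [← div_eq_mul_inv, div_le_iff₀ (by positivity)]
    linarith
  have h4 : |τ| ^ (2 - δ) * nr (2 - δ) τ ≤ 1 := by
    unfold nr
    by_cases hz : |τ| = 0
    · rw [hz, Real.zero_rpow (by linarith)]
      simp
    have hp : 0 < |τ| := lt_of_le_of_ne (abs_nonneg τ) (Ne.symm hz)
    split_ifs with h
    · rw [← Real.rpow_add hp]
      apply Real.rpow_le_one hp.le h.le
      linarith
    · rw [← Real.rpow_add hp]
      simp
  calc (1 + |t|) ^ (2 - δ) * ((1 + κ ^ 2)⁻¹ * nr (2 - δ) τ)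
      ≤ (4 * ((1 + |κ|) ^ (2 - δ) + |τ| ^ (2 - δ))) * ((1 + κ ^ 2)⁻¹ * nr (2 - δ) τ) := by
        gcongr
    _ = 4 * (((1 + |κ|) ^ (2 - δ) * (1 + κ ^ 2)⁻¹) * nr (2 - δ) τ) +
        4 * ((|τ| ^ (2 - δ) * nr (2 - δ) τ) * (1 + κ ^ 2)⁻¹) := by ring
    _ ≤ 4 * (2 * nr (2 - δ) τ) + 4 * (1 * (1 + κ ^ 2)⁻¹) := by
        gcongr
    _ = _ := by ring

lemma kk_nr (δ : ℝ) (h0 : 0 < δ) (h1 : δ ≤ 1 / 2) : ∃ C : ℝ≥0, ∀ t : ℝ,
    ∫⁻ κ, kk κ * ENNReal.ofReal (nr (2 - δ) (t + κ)) ≤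
      C * ENNReal.ofReal ((1 + |t|) ^ (-2 + δ)) := by
  have hf1 := nr_int (2 - δ) (by linarith)
  have hf2 := kk_int
  refine ⟨(8 * (∫⁻ τ, ENNReal.ofReal (nr (2 - δ) τ)) + 4 * ∫⁻ κ, kk κ).toNNReal, fun t => ?_⟩
  rw [ENNReal.coe_toNNReal (ENNReal.add_ne_top.2 ⟨ENNReal.mul_ne_top (by simp) hf1,
    ENNReal.mul_ne_top (by simp) hf2⟩)]
  have hpos : 0 < (1 + |t|) ^ (-2 + δ) := by positivity
  have key : ∀ κ, kk κ * ENNReal.ofReal (nr (2 - δ) (t + κ)) ≤
      ENNReal.ofReal ((1 + |t|) ^ (-2 + δ)) *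
        (8 * ENNReal.ofReal (nr (2 - δ) (t + κ)) + 4 * kk κ) := by
    intro κ
    unfold kk
    have h8 : (8 : ℝ≥0∞) = ENNReal.ofReal 8 := by simp
    have h4 : (4 : ℝ≥0∞) = ENNReal.ofReal 4 := by simp
    have hn := nr_nonneg (2 - δ) (t + κ)
    rw [h8, h4, ← ENNReal.ofReal_mul (by positivity), ← ENNReal.ofReal_mul (by positivity),
      ← ENNReal.ofReal_mul (by positivity), ← ENNReal.ofReal_add (by positivity) (by positivity),
      ← ENNReal.ofReal_mul (by positivity)]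
    apply ENNReal.ofReal_le_ofReal
    have h := kk_nr_pt δ h0 h1 t κ
    have e : (1 + |t|) ^ (-2 + δ) * (1 + |t|) ^ (2 - δ) = 1 := by
      rw [← Real.rpow_add (by positivity)]
      norm_num
    calc (1 + κ ^ 2)⁻¹ * nr (2 - δ) (t + κ)
        = (1 + |t|) ^ (-2 + δ) * ((1 + |t|) ^ (2 - δ) * ((1 + κ ^ 2)⁻¹ * nr (2 - δ) (t + κ))) := by
          rw [← mul_assoc, e, one_mul]
      _ ≤ _ := by gcongr
  have hm : Measurable (fun κ => ENNReal.ofReal (nr (2 - δ) (t + κ))) :=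
    ((nr_meas _).comp (measurable_const_add t)).ennreal_ofReal
  calc ∫⁻ κ, kk κ * ENNReal.ofReal (nr (2 - δ) (t + κ))
      ≤ ∫⁻ κ, ENNReal.ofReal ((1 + |t|) ^ (-2 + δ)) *
        (8 * ENNReal.ofReal (nr (2 - δ) (t + κ)) + 4 * kk κ) := lintegral_mono key
    _ = ENNReal.ofReal ((1 + |t|) ^ (-2 + δ)) *
        (8 * (∫⁻ κ, ENNReal.ofReal (nr (2 - δ) (t + κ))) + 4 * ∫⁻ κ, kk κ) := by
        rw [lintegral_const_mul' _ _ ENNReal.ofReal_ne_top,
          lintegral_add_left (hm.const_mul _), lintegral_const_mul _ hm,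
          lintegral_const_mul _ kk_meas]
    _ = _ := by
        rw [lintegral_add_left_eq_self (fun κ => ENNReal.ofReal (nr (2 - δ) κ)) t, mul_comm]

end Pool.Agent.TH407.AR
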