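import Mathlib
import Pool.Agent.TH407.AR.D2
set_option autoImplicit false

/-! VR-D, part 3: the fixed time `L⁴` bound for `π`-periodic `g` -/

namespace Pool.Agent.TH407.AR

open MeasureTheory Set Complex
open scoped ENNReal NNReal Real

/-- amplitude -/
noncomputable def Gam (t u : ℝ) : ℝ≥0∞ :=
  ENNReal.ofReal ((1 + t ^ 2) ^ (-(3 / 4) : ℝ) + (1 + t ^ 2) ^ (-(1 / 4) : ℝ) * (u / (1 + u)))

lemma Gam_meas (t : ℝ) : Measurable (Gam t) := by
  unfold Gam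
  fun_prop

lemma rat_le (δ u : ℝ) (h0 : 0 < δ) (h1 : δ ≤ 1 / 2) (hu : 0 < u) :
    (u / (1 + u)) ^ 4 ≤ u ^ (1 - δ) := by
  have hlt : u / (1 + u) ≤ 1 := by
    rw [div_le_one (by linarith)]
    linarith
  have hpos : 0 < u / (1 + u) := by positivity
  have hle : u / (1 + u) ≤ u := by
    rw [div_le_iff₀ (by linarith)]
    nlinarith
  calc (u / (1 + u)) ^ 4 = (u / (1 + u)) ^ (4 : ℝ) := by norm_cast
    _ ≤ (u / (1 + u)) ^ (1 - δ) := by
        apply Real.rpow_le_rpow_of_exponent_ge hpos hlt (by linarith)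
    _ ≤ u ^ (1 - δ) := by
        apply Real.rpow_le_rpow hpos.le hle (by linarith)

lemma two_pow4 (a b : ℝ≥0∞) : (a + b) ^ 4 ≤ 8 * (a ^ 4 + b ^ 4) := by
  have h := ENNReal.inner_le_Lp_mul_Lq (Finset.univ : Finset (Fin 2)) ![a, b] (fun _ => 1)
    (p := 4) (q := 4 / 3) (by constructor <;> norm_num)
  simp only [Fin.sum_univ_two, Matrix.cons_val_zero, Matrix.cons_val_one, mul_one,
    ENNReal.one_rpow] at h
  have h3 := pow_le_pow_left' h 4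
  refine h3.trans (le_of_eq ?_)
  rw [mul_pow, ← ENNReal.rpow_natCast, ← ENNReal.rpow_natCast, ← ENNReal.rpow_mul,
    ← ENNReal.rpow_mul, mul_comm]
  have : (1 + 1 : ℝ≥0∞) = 2 := by norm_num
  rw [this, show (1 / (4 / 3) * ((4 : ℕ) : ℝ) : ℝ) = (3 : ℕ) by norm_num, ENNReal.rpow_natCast]
  norm_num

lemma Gam4 (t u : ℝ) (hu : 0 < u) : Gam t u ^ 4 ≤
    8 * (ENNReal.ofReal ((1 + t ^ 2) ^ (-3 : ℝ)) +
      ENNReal.ofReal ((1 + t ^ 2)⁻¹) * ENNReal.ofReal ((u / (1 + u)) ^ 4)) := by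
  unfold Gam
  have hp : (0 : ℝ) < 1 + t ^ 2 := by positivity
  rw [ENNReal.ofReal_add (by positivity) (by positivity)]
  refine (two_pow4 _ _).trans (le_of_eq ?_)
  congr 2
  · rw [← ENNReal.ofReal_pow (by positivity), ← Real.rpow_natCast, ← Real.rpow_mul hp.le]
    norm_num
  · rw [← ENNReal.ofReal_pow (by positivity), ← ENNReal.ofReal_mul (by positivity), mul_pow,
      ← Real.rpow_natCast, ← Real.rpow_mul hp.le]
    norm_num
    rw [Real.rpow_neg_one]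

section

variable (δ : ℝ) (h0 : 0 < δ) (h1 : δ ≤ 1 / 2) (C1 C2 : ℝ≥0) (g : ℝ → ℂ) (N : ℝ≥0∞)

lemma J1_le (hg : Measurable g)
    (hC2 : ∫⁻ l : ℝ, ∫⁻ α in Ioo (-π) π, ENNReal.ofReal (|l| ^ (1 - (1 : ℝ))) * HH g l α ^ 4 ≤
      C2 * N) (τ : ℝ) (hτ : τ ≠ 0) :
    ∫⁻ u in Ioi (0 : ℝ), ∫⁻ α in Ioo (-π) π, HH g (u * τ) α ^ 4 ≤
      ENNReal.ofReal |τ|⁻¹ * (C2 * N) := by
  have hm : Measurable (fun l : ℝ => ∫⁻ α in Ioo (-π) π, HH g l α ^ 4) :=
    ((HH_meas hg).pow_const 4).lintegral_prod_right'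
  refine (scale_le _ hm τ hτ).trans ?_
  gcongr
  simpa using hC2

include h0 h1 in
lemma J2_le (hg : Measurable g)
    (hC1 : ∫⁻ l : ℝ, ∫⁻ α in Ioo (-π) π, ENNReal.ofReal (|l| ^ (1 - δ)) * HH g l α ^ 4 ≤
      C1 * N)
    (hC2 : ∫⁻ l : ℝ, ∫⁻ α in Ioo (-π) π, ENNReal.ofReal (|l| ^ (1 - (1 : ℝ))) * HH g l α ^ 4 ≤
      C2 * N) (τ : ℝ) (hτ : τ ≠ 0) :
    ∫⁻ u in Ioi (0 : ℝ), ∫⁻ α in Ioo (-π) π,
      ENNReal.ofReal ((u / (1 + u)) ^ 4) * HH g (u * τ) α ^ 4 ≤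
      min (ENNReal.ofReal |τ|⁻¹) (ENNReal.ofReal (|τ| ^ (-(2 - δ)))) * ((C1 + C2) * N) := by
  have hp : 0 < |τ| := abs_pos.2 hτ
  have hm : Measurable (fun l : ℝ => ∫⁻ α in Ioo (-π) π, HH g l α ^ 4) :=
    ((HH_meas hg).pow_const 4).lintegral_prod_right'
  have a1 : ∫⁻ u in Ioi (0 : ℝ), ∫⁻ α in Ioo (-π) π,
      ENNReal.ofReal ((u / (1 + u)) ^ 4) * HH g (u * τ) α ^ 4 ≤
      ENNReal.ofReal |τ|⁻¹ * ((C1 + C2) * N) := by
    calc _ ≤ ∫⁻ u in Ioi (0 : ℝ), ∫⁻ α in Ioo (-π) π, HH g (u * τ) α ^ 4 := by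
          apply setLIntegral_mono' measurableSet_Ioi
          intro u hu
          have hu' : (0 : ℝ) < u := hu
          gcongr with α
          calc ENNReal.ofReal ((u / (1 + u)) ^ 4) * HH g (u * τ) α ^ 4
              ≤ 1 * HH g (u * τ) α ^ 4 := by
                gcongr
                rw [← ENNReal.ofReal_one]
                apply ENNReal.ofReal_le_ofReal
                apply pow_le_one₀ (by positivity)
                rw [div_le_one (by linarith)]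
                linarith
            _ = _ := one_mul _
      _ ≤ ENNReal.ofReal |τ|⁻¹ * (C2 * N) := J1_le C2 g N hg hC2 τ hτ
      _ ≤ _ := by
          gcongr
          exact le_add_self
  have a2 : ∫⁻ u in Ioi (0 : ℝ), ∫⁻ α in Ioo (-π) π,
      ENNReal.ofReal ((u / (1 + u)) ^ 4) * HH g (u * τ) α ^ 4 ≤
      ENNReal.ofReal (|τ| ^ (-(2 - δ))) * ((C1 + C2) * N) := by
    have hm2 : Measurable (fun l : ℝ => ∫⁻ α in Ioo (-π) π,
        ENNReal.ofReal (|l| ^ (1 - δ)) * HH g l α ^ 4) := by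
      have : Measurable (fun p : ℝ × ℝ => ENNReal.ofReal (|p.1| ^ (1 - δ)) * HH g p.1 p.2 ^ 4) := by
        have := (HH_meas hg).pow_const 4
        exact Measurable.mul (by fun_prop) this
      exact this.lintegral_prod_right'
    calc _ ≤ ∫⁻ u in Ioi (0 : ℝ), ENNReal.ofReal (|τ| ^ (-(1 - δ))) * ∫⁻ α in Ioo (-π) π,
          ENNReal.ofReal (|u * τ| ^ (1 - δ)) * HH g (u * τ) α ^ 4 := by
          apply setLIntegral_mono' measurableSet_Ioi
          intro u hu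
          have hu' : (0 : ℝ) < u := hu
          rw [← lintegral_const_mul' _ _ ENNReal.ofReal_ne_top]
          refine lintegral_mono fun α => ?_
          rw [← mul_assoc, ← ENNReal.ofReal_mul (by positivity)]
          refine mul_le_mul' (ENNReal.ofReal_le_ofReal ?_) le_rfl
          have e : |τ| ^ (-(1 - δ)) * |u * τ| ^ (1 - δ) = u ^ (1 - δ) := by
            rw [abs_mul, abs_of_pos hu', Real.mul_rpow hu'.le hp.le]
            have : |τ| ^ (-(1 - δ)) * |τ| ^ (1 - δ) = 1 := by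
              rw [← Real.rpow_add hp]; simp
            linear_combination u ^ (1 - δ) * this
          rw [e]
          exact rat_le δ u h0 h1 hu'
      _ = ENNReal.ofReal (|τ| ^ (-(1 - δ))) * ∫⁻ u in Ioi (0 : ℝ), ∫⁻ α in Ioo (-π) π,
          ENNReal.ofReal (|u * τ| ^ (1 - δ)) * HH g (u * τ) α ^ 4 := by
          rw [lintegral_const_mul' _ _ ENNReal.ofReal_ne_top]
      _ ≤ ENNReal.ofReal (|τ| ^ (-(1 - δ))) * (ENNReal.ofReal |τ|⁻¹ * (C1 * N)) := by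
          gcongr
          refine (scale_le _ hm2 τ hτ).trans ?_
          gcongr
      _ = ENNReal.ofReal (|τ| ^ (-(2 - δ))) * (C1 * N) := by
          rw [← mul_assoc, ← ENNReal.ofReal_mul (by positivity)]
          congr 2
          rw [← Real.rpow_neg_one, ← Real.rpow_add hp]
          congr 1
          ring
      _ ≤ _ := by
          gcongr
          exact le_self_add
  rcases le_total (ENNReal.ofReal |τ|⁻¹) (ENNReal.ofReal (|τ| ^ (-(2 - δ)))) with h | h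
  · rw [min_eq_left h]; exact a1
  · rw [min_eq_right h]; exact a2

omit δ C1 C2 g N in
lemma J_aux (A Bc : ℝ≥0∞) (E K L : ℝ × ℝ → ℝ≥0∞) (hE : Measurable E)
    (hK : Measurable K) (hL : Measurable L)
    (h : ∀ u : ℝ, 0 < u → ∀ α, E (u, α) ≤ 8 * (A * K (u, α) + Bc * L (u, α))) :
    ∫⁻ u in Ioi (0 : ℝ), ∫⁻ α in Ioo (-π) π, E (u, α) ≤
      8 * (A * (∫⁻ u in Ioi (0 : ℝ), ∫⁻ α in Ioo (-π) π, K (u, α)) +
        Bc * ∫⁻ u in Ioi (0 : ℝ), ∫⁻ α in Ioo (-π) π, L (u, α)) := by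
  rw [← lintegral_prod (μ := volume.restrict (Ioi (0 : ℝ))) (ν := volume.restrict (Ioo (-π) π))
      _ hE.aemeasurable,
    ← lintegral_prod (μ := volume.restrict (Ioi (0 : ℝ))) (ν := volume.restrict (Ioo (-π) π))
      _ hK.aemeasurable,
    ← lintegral_prod (μ := volume.restrict (Ioi (0 : ℝ))) (ν := volume.restrict (Ioo (-π) π))
      _ hL.aemeasurable,
    ← lintegral_const_mul _ hK, ← lintegral_const_mul _ hL,
    ← lintegral_add_left (hK.const_mul _)]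
  have hKL : Measurable (fun p => A * K p + Bc * L p) := (hK.const_mul A).add (hL.const_mul Bc)
  rw [← lintegral_const_mul _ hKL]
  apply lintegral_mono_ae
  have hae : ∀ᵐ p : ℝ × ℝ ∂((volume.restrict (Ioi (0 : ℝ))).prod (volume.restrict (Ioo (-π) π))),
      p.1 ∈ Ioi (0 : ℝ) := by
    rw [Measure.prod_restrict]
    filter_upwards [ae_restrict_mem (measurableSet_Ioi.prod measurableSet_Ioo)] with q hq
    exact hq.1
  filter_upwards [hae] with p hp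
  exact h p.1 hp p.2

omit δ C1 C2 N in
lemma HHs_meas (hg : Measurable g) (τ : ℝ) : Measurable (fun p : ℝ × ℝ => HH g (p.1 * τ) p.2) := by
  have h : Measurable (fun p : ℝ × ℝ => (p.1 * τ, p.2)) := by fun_prop
  have h2 := HH_meas hg
  have h3 := Measurable.comp h2 h
  exact h3

include h0 h1 in
lemma J_le (hg : Measurable g)
    (hC1 : ∫⁻ l : ℝ, ∫⁻ α in Ioo (-π) π, ENNReal.ofReal (|l| ^ (1 - δ)) * HH g l α ^ 4 ≤
      C1 * N)
    (hC2 : ∫⁻ l : ℝ, ∫⁻ α in Ioo (-π) π, ENNReal.ofReal (|l| ^ (1 - (1 : ℝ))) * HH g l α ^ 4 ≤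
      C2 * N) (t τ : ℝ) (hτ : τ ≠ 0) :
    ∫⁻ u in Ioi (0 : ℝ), ∫⁻ α in Ioo (-π) π, (Gam t u * HH g (u * τ) α) ^ 4 ≤
      8 * (ENNReal.ofReal ((1 + t ^ 2) ^ (-3 : ℝ)) * (ENNReal.ofReal |τ|⁻¹ * (C2 * N)) +
        ENNReal.ofReal ((1 + t ^ 2)⁻¹) *
          (min (ENNReal.ofReal |τ|⁻¹) (ENNReal.ofReal (|τ| ^ (-(2 - δ)))) * ((C1 + C2) * N))) := by
  have k1 := J1_le C2 g N hg hC2 τ hτ
  have k2 := J2_le δ h0 h1 C1 C2 g N hg hC1 hC2 τ hτ
  have hH := HHs_meas g hg τ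
  have hE : Measurable (fun p : ℝ × ℝ => (Gam t p.1 * HH g (p.1 * τ) p.2) ^ 4) :=
    (((Gam_meas t).comp measurable_fst).mul hH).pow_const 4
  have hK : Measurable (fun p : ℝ × ℝ => HH g (p.1 * τ) p.2 ^ 4) := hH.pow_const 4
  have hr : Measurable (fun p : ℝ × ℝ => ENNReal.ofReal ((p.1 / (1 + p.1)) ^ 4)) := by fun_prop
  have hL : Measurable (fun p : ℝ × ℝ =>
      ENNReal.ofReal ((p.1 / (1 + p.1)) ^ 4) * HH g (p.1 * τ) p.2 ^ 4) :=
    hr.mul (hH.pow_const 4)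
  have key := J_aux (ENNReal.ofReal ((1 + t ^ 2) ^ (-3 : ℝ))) (ENNReal.ofReal ((1 + t ^ 2)⁻¹))
    (fun p : ℝ × ℝ => (Gam t p.1 * HH g (p.1 * τ) p.2) ^ 4)
    (fun p : ℝ × ℝ => HH g (p.1 * τ) p.2 ^ 4)
    (fun p : ℝ × ℝ => ENNReal.ofReal ((p.1 / (1 + p.1)) ^ 4) * HH g (p.1 * τ) p.2 ^ 4)
    hE hK hL (by
      intro u hu α
      show (Gam t u * HH g (u * τ) α) ^ 4 ≤ 8 * (ENNReal.ofReal ((1 + t ^ 2) ^ (-3 : ℝ)) *
        HH g (u * τ) α ^ 4 + ENNReal.ofReal ((1 + t ^ 2)⁻¹) *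
          (ENNReal.ofReal ((u / (1 + u)) ^ 4) * HH g (u * τ) α ^ 4))
      generalize HH g (u * τ) α = X
      have h4 := Gam4 t u hu
      calc (Gam t u * X) ^ 4 = Gam t u ^ 4 * X ^ 4 := mul_pow _ _ _
        _ ≤ (8 * (ENNReal.ofReal ((1 + t ^ 2) ^ (-3 : ℝ)) +
            ENNReal.ofReal ((1 + t ^ 2)⁻¹) * ENNReal.ofReal ((u / (1 + u)) ^ 4))) * X ^ 4 :=
          mul_le_mul' h4 le_rfl
        _ = _ := by ring)
  exact key.trans (mul_le_mul' le_rfl (add_le_add (mul_le_mul' le_rfl k1) (mul_le_mul' le_rfl k2)))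

end

/-- change of variables `u = ρ²/(8(1+t²))` -/
lemma cov (t : ℝ) (G : ℝ → ℝ≥0∞) :
    ∫⁻ ρ in Ioi (0 : ℝ), ENNReal.ofReal ρ * G (uu ρ t) ≤
      ENNReal.ofReal (4 * (1 + t ^ 2)) * ∫⁻ u in Ioi (0 : ℝ), G u := by
  have hp : (0 : ℝ) < 1 + t ^ 2 := by positivity
  have hd : ∀ ρ ∈ Ioi (0 : ℝ), HasDerivWithinAt (fun ρ => uu ρ t) (ρ / (4 * (1 + t ^ 2)))
      (Ioi 0) ρ := by
    intro ρ _
    unfold uu
    have h := ((hasDerivAt_pow 2 ρ).div_const (8 * (1 + t ^ 2))).hasDerivWithinAt (s := Ioi 0)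
    have e : ρ / (4 * (1 + t ^ 2)) = ((2 : ℕ) : ℝ) * ρ ^ (2 - 1) / (8 * (1 + t ^ 2)) := by
      push_cast
      rw [div_eq_div_iff (by positivity) (by positivity)]
      ring
    rw [e]
    exact h
  have hinj : InjOn (fun ρ => uu ρ t) (Ioi 0) := by
    intro a ha b hb hab
    have ha' : (0 : ℝ) < a := ha
    have hb' : (0 : ℝ) < b := hb
    simp only [uu] at hab
    have h2 : a ^ 2 = b ^ 2 := by
      field_simp at hab
      exact hab
    exact (pow_left_inj₀ ha'.le hb'.le (by norm_num)).1 h2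
  have himg : (fun ρ => uu ρ t) '' Ioi 0 ⊆ Ioi 0 := by
    rintro _ ⟨ρ, hρ, rfl⟩
    have : (0 : ℝ) < ρ := hρ
    show 0 < uu ρ t
    unfold uu
    positivity
  have h := lintegral_image_eq_lintegral_abs_deriv_mul measurableSet_Ioi hd hinj G
  have e : ∫⁻ ρ in Ioi (0 : ℝ), ENNReal.ofReal ρ * G (uu ρ t) =
      ENNReal.ofReal (4 * (1 + t ^ 2)) * ∫⁻ ρ in Ioi (0 : ℝ),
        ENNReal.ofReal |ρ / (4 * (1 + t ^ 2))| * G (uu ρ t) := by
    rw [← lintegral_const_mul' _ _ ENNReal.ofReal_ne_top]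
    apply setLIntegral_congr_fun measurableSet_Ioi
    intro ρ hρ
    have hρ' : (0 : ℝ) < ρ := hρ
    simp only
    rw [← mul_assoc, ← ENNReal.ofReal_mul (by positivity), abs_of_pos (by positivity)]
    congr 2
    field_simp
  rw [e, ← h]
  exact mul_le_mul' le_rfl (lintegral_mono_set himg)

lemma time_le (δ : ℝ) (h0 : 0 < δ) (t : ℝ) :
    (1 + t ^ 2) * (1 + t ^ 2) ^ (-3 : ℝ) ≤ 2 * (1 + |t|) ^ (-2 + δ) := by
  have hp : (0 : ℝ) < 1 + t ^ 2 := by positivity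
  have h1 : (1 + t ^ 2) * (1 + t ^ 2) ^ (-3 : ℝ) ≤ (1 + t ^ 2)⁻¹ := by
    rw [← Real.rpow_neg_one]
    calc (1 + t ^ 2) * (1 + t ^ 2) ^ (-3 : ℝ) = (1 + t ^ 2) ^ (1 : ℝ) * (1 + t ^ 2) ^ (-3 : ℝ) := by
          rw [Real.rpow_one]
      _ = (1 + t ^ 2) ^ (-2 : ℝ) := by rw [← Real.rpow_add hp]; norm_num
      _ ≤ (1 + t ^ 2) ^ (-1 : ℝ) := by
          apply Real.rpow_le_rpow_of_exponent_le _ (by norm_num)
          nlinarith [sq_nonneg t]
  have h2 : (1 + t ^ 2)⁻¹ ≤ 2 * ((1 + |t|) ^ 2)⁻¹ := by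
    rw [← div_eq_mul_inv, inv_eq_one_div, div_le_div_iff₀ hp (by positivity)]
    nlinarith [sq_abs t, sq_nonneg (1 - |t|)]
  have h3 : ((1 + |t|) ^ 2)⁻¹ ≤ (1 + |t|) ^ (-2 + δ) := by
    have : ((1 + |t|) ^ 2)⁻¹ = (1 + |t|) ^ (-2 : ℝ) := by
      rw [Real.rpow_neg (by positivity)]
      norm_cast
    rw [this]
    apply Real.rpow_le_rpow_of_exponent_le (by linarith [abs_nonneg t]) (by linarith)
  linarith

end Pool.Agent.TH407.AR
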