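import Mathlib
import Pool.Agent.TH407.AR.D3
set_option autoImplicit false

/-! VR-D, part 4: the fixed time `L⁴` bound for `π`-periodic `g` -/

namespace Pool.Agent.TH407.AR

open MeasureTheory Set Complex
open scoped ENNReal NNReal Real


lemma EX_polar (f : ℝ × ℝ → ℝ≥0∞) :
    ∫⁻ X : ℝ × ℝ, f X = ∫⁻ p in Ioi (0 : ℝ) ×ˢ Ioo (-π) π, ENNReal.ofReal p.1 * f (pol p.1 p.2) := by
  rw [← lintegral_comp_polarCoord_symm]
  simp only [polarCoord_target, polarCoord_symm_apply, smul_eq_mul]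
  rfl

/-- triple integrand -/
lemma trip_meas {g : ℝ → ℂ} (hg : Measurable g) (t : ℝ) :
    Measurable (fun p : (ℝ × ℝ) × ℝ =>
      (kk p.2 * cw (t + p.2)) * (Gam t p.1.1 * HH g (p.1.1 * (t + p.2)) p.1.2) ^ 4) := by
  have h1 : Measurable (fun p : (ℝ × ℝ) × ℝ => (p.1.1 * (t + p.2), p.1.2)) := by fun_prop
  have h2 := Measurable.comp (HH_meas hg) h1
  have h3 : Measurable (fun p : (ℝ × ℝ) × ℝ => kk p.2) := kk_meas.comp measurable_snd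
  have h4 : Measurable (fun p : (ℝ × ℝ) × ℝ => cw (t + p.2)) :=
    cw_meas.comp (by fun_prop : Measurable (fun p : (ℝ × ℝ) × ℝ => t + p.2))
  have h5 : Measurable (fun p : (ℝ × ℝ) × ℝ => Gam t p.1.1) :=
    (Gam_meas t).comp (by fun_prop : Measurable (fun p : (ℝ × ℝ) × ℝ => p.1.1))
  exact (h3.mul h4).mul ((h5.mul h2).pow_const 4)

/-- Tonelli -/
lemma tonelli (μ ν : Measure ℝ) [SFinite μ] [SFinite ν] (w : ℝ → ℝ≥0∞) (hw : Measurable w)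
    (G : (ℝ × ℝ) × ℝ → ℝ≥0∞) (hG : Measurable G) :
    ∫⁻ u, ∫⁻ α, (∫⁻ κ, w κ * G ((u, α), κ)) ∂ν ∂μ =
      ∫⁻ κ, w κ * (∫⁻ u, ∫⁻ α, G ((u, α), κ) ∂ν ∂μ) := by
  have h1 : Measurable (fun p : (ℝ × ℝ) × ℝ => w p.2 * G p) := (hw.comp measurable_snd).mul hG
  have h2 : ∫⁻ u, ∫⁻ α, (∫⁻ κ, w κ * G ((u, α), κ)) ∂ν ∂μ =
      ∫⁻ p : ℝ × ℝ, (∫⁻ κ, w κ * G (p, κ)) ∂(μ.prod ν) := by
    rw [lintegral_prod]
    exact h1.lintegral_prod_right'.aemeasurable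
  rw [h2, lintegral_lintegral_swap]
  · apply lintegral_congr
    intro κ
    have h3 : Measurable (fun p : ℝ × ℝ => G (p, κ)) := hG.comp measurable_prodMk_right
    rw [lintegral_const_mul _ h3, lintegral_prod _ h3.aemeasurable]
  · exact h1.aemeasurable

lemma step3 {g : ℝ → ℂ} (hg : Measurable g) (t : ℝ) :
    ∫⁻ u in Ioi (0 : ℝ), ∫⁻ α in Ioo (-π) π, ∫⁻ κ,
      (kk κ * cw (t + κ)) * (Gam t u * HH g (u * (t + κ)) α) ^ 4 =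
    ∫⁻ κ, (kk κ * cw (t + κ)) * ∫⁻ u in Ioi (0 : ℝ), ∫⁻ α in Ioo (-π) π,
        (Gam t u * HH g (u * (t + κ)) α) ^ 4 := by
  have hw : Measurable (fun κ => kk κ * cw (t + κ)) :=
    kk_meas.mul (cw_meas.comp (measurable_const_add t))
  have h1 : Measurable (fun p : (ℝ × ℝ) × ℝ => (p.1.1 * (t + p.2), p.1.2)) := by fun_prop
  have h2 := Measurable.comp (HH_meas hg) h1
  have h5 : Measurable (fun p : (ℝ × ℝ) × ℝ => Gam t p.1.1) :=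
    (Gam_meas t).comp (measurable_fst.comp measurable_fst)
  have h6 : Measurable (fun p : (ℝ × ℝ) × ℝ =>
      (Gam t p.1.1 * HH g (p.1.1 * (t + p.2)) p.1.2) ^ 4) := (h5.mul h2).pow_const 4
  exact tonelli (volume.restrict (Ioi (0 : ℝ))) (volume.restrict (Ioo (-π) π))
    (fun κ => kk κ * cw (t + κ)) hw _ h6

lemma step4 (δ : ℝ) (C1 C2 C4 C5 : ℝ≥0) (N : ℝ≥0∞)
    (hC4 : ∀ t : ℝ, ∫⁻ κ, kk κ * (1 + ENNReal.ofReal (nr 2 (t + κ))) ≤ C4)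
    (hC5 : ∀ t : ℝ, ∫⁻ κ, kk κ * ENNReal.ofReal (nr (2 - δ) (t + κ)) ≤
      C5 * ENNReal.ofReal ((1 + |t|) ^ (-2 + δ)))
    (t : ℝ) (J : ℝ → ℝ≥0∞)
    (hJ : ∀ τ : ℝ, τ ≠ 0 → J τ ≤ 8 * (ENNReal.ofReal ((1 + t ^ 2) ^ (-3 : ℝ)) *
        (ENNReal.ofReal |τ|⁻¹ * (C2 * N)) + ENNReal.ofReal ((1 + t ^ 2)⁻¹) *
          (min (ENNReal.ofReal |τ|⁻¹) (ENNReal.ofReal (|τ| ^ (-(2 - δ)))) * ((C1 + C2) * N)))) :
    ∫⁻ κ, (kk κ * cw (t + κ)) * J (t + κ) ≤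
      8 * (ENNReal.ofReal ((1 + t ^ 2) ^ (-3 : ℝ)) * (C2 * N) * C4 +
        ENNReal.ofReal ((1 + t ^ 2)⁻¹) * ((C1 + C2) * N) *
          (C5 * ENNReal.ofReal ((1 + |t|) ^ (-2 + δ)))) := by
  have hm1 : Measurable (fun κ => kk κ * (1 + ENNReal.ofReal (nr 2 (t + κ)))) :=
    kk_meas.mul (measurable_const.add ((nr_meas 2).comp (measurable_const_add t)).ennreal_ofReal)
  have hm2 : Measurable (fun κ => kk κ * ENNReal.ofReal (nr (2 - δ) (t + κ))) :=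
    kk_meas.mul ((nr_meas _).comp (measurable_const_add t)).ennreal_ofReal
  generalize ENNReal.ofReal ((1 + t ^ 2) ^ (-3 : ℝ)) = P at *
  generalize ENNReal.ofReal ((1 + t ^ 2)⁻¹) = Q at *
  have hle : ∫⁻ κ, (kk κ * cw (t + κ)) * J (t + κ) ≤
      ∫⁻ κ, 8 * ((P * (C2 * N)) * (kk κ * (1 + ENNReal.ofReal (nr 2 (t + κ)))) +
            (Q * ((C1 + C2) * N)) * (kk κ * ENNReal.ofReal (nr (2 - δ) (t + κ)))) := by
    apply lintegral_mono_ae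
    have hae : ∀ᵐ κ : ℝ, κ ≠ -t := by
      rw [ae_iff]
      simp
    filter_upwards [hae] with κ hκ
    have hτ : t + κ ≠ 0 := by
      intro h
      apply hκ
      linarith
    have hc1 := cw_le (t + κ)
    have hc2 := cw_mm δ (t + κ) hτ
    calc (kk κ * cw (t + κ)) * J (t + κ)
        ≤ (kk κ * cw (t + κ)) * (8 * (P * (ENNReal.ofReal |t + κ|⁻¹ * (C2 * N)) + Q *
            (min (ENNReal.ofReal |t + κ|⁻¹) (ENNReal.ofReal (|t + κ| ^ (-(2 - δ)))) *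
              ((C1 + C2) * N)))) := mul_le_mul' le_rfl (hJ _ hτ)
      _ = 8 * ((P * (C2 * N)) * (kk κ * (cw (t + κ) * ENNReal.ofReal |t + κ|⁻¹)) +
          (Q * ((C1 + C2) * N)) * (kk κ * (cw (t + κ) * min (ENNReal.ofReal |t + κ|⁻¹)
              (ENNReal.ofReal (|t + κ| ^ (-(2 - δ))))))) := by ring
      _ ≤ _ := by
          refine mul_le_mul' le_rfl (add_le_add ?_ ?_)
          · exact mul_le_mul' le_rfl (mul_le_mul' le_rfl hc1)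
          · exact mul_le_mul' le_rfl (mul_le_mul' le_rfl hc2)
  have hm3 : Measurable (fun κ => (P * (C2 * N)) * (kk κ * (1 + ENNReal.ofReal (nr 2 (t + κ)))) +
            (Q * ((C1 + C2) * N)) * (kk κ * ENNReal.ofReal (nr (2 - δ) (t + κ)))) :=
    (hm1.const_mul _).add (hm2.const_mul _)
  rw [lintegral_const_mul _ hm3, lintegral_add_left (hm1.const_mul _), lintegral_const_mul _ hm1,
    lintegral_const_mul _ hm2] at hle
  refine hle.trans (mul_le_mul' le_rfl (add_le_add ?_ ?_))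
  · exact mul_le_mul' le_rfl (hC4 t)
  · exact mul_le_mul' le_rfl (hC5 t)

theorem even_of (hA : Planar) (hC : BaseBound) : EvenBound := by
  intro δ h0 h1
  obtain ⟨C1, hC1⟩ := planarHH hA δ h0 (by linarith)
  obtain ⟨C2, hC2⟩ := planarHH hA 1 one_pos le_rfl
  obtain ⟨C3, hC3⟩ := hC
  obtain ⟨C4, hC4⟩ := kk_bw
  obtain ⟨C5, hC5⟩ := kk_nr δ h0 h1
  refine ⟨C3 ^ 4 * C4 ^ 3 * 4 * 8 * (2 * C2 * C4 + (C1 + C2) * C5), ?_⟩
  intro g B hg hB hper t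
  set N : ℝ≥0∞ := (B : ℝ≥0∞) ^ 2 * ∫⁻ θ in Ioo (-π) π, ‖g θ‖ₑ ^ 2 with hN
  have hC1' := hC1 g B hg hB
  have hC2' := hC2 g B hg hB
  rw [← hN] at hC1' hC2'
  have hbd : ∃ B' : ℝ, ∀ θ, ‖g θ‖ ≤ B' := by
    refine ⟨B, fun θ => ?_⟩
    have := hB θ
    rw [← ofReal_norm, ← ENNReal.ofReal_coe_nnreal] at this
    exact (ENNReal.ofReal_le_ofReal_iff B.2).1 this
  -- the inner triple integrand
  set T : ℝ → ℝ → ℝ → ℝ≥0∞ := fun u α κ =>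
    (kk κ * cw (t + κ)) * (Gam t u * HH g (u * (t + κ)) α) ^ 4 with hT
  have hTm : Measurable (fun p : (ℝ × ℝ) × ℝ => T p.1.1 p.1.2 p.2) := trip_meas hg t
  -- pointwise bound
  have hpt : ∀ ρ : ℝ, 0 < ρ → ∀ α : ℝ, ‖EX (bg g) (pol ρ α) t‖ₑ ^ 4 ≤
      (C3 : ℝ≥0∞) ^ 4 * ((C4 : ℝ≥0∞) ^ 3 * ∫⁻ κ, T (uu ρ t) α κ) := by
    intro ρ hρ α
    have e1 := hC3 g hg hbd hper ρ hρ.le α t
    have e2 : ∫⁻ κ : ℝ, ENNReal.ofReal ((1 + κ ^ 2)⁻¹ *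
      ((1 + t ^ 2) ^ (-(3 / 4) : ℝ) + (1 + t ^ 2) ^ (-(1 / 4) : ℝ) * (uu ρ t / (1 + uu ρ t)))) *
        HH g (uu ρ t * (t + κ)) α =
        ∫⁻ κ : ℝ, kk κ * (Gam t (uu ρ t) * HH g (uu ρ t * (t + κ)) α) := by
      apply lintegral_congr
      intro κ
      rw [ENNReal.ofReal_mul (by positivity)]
      unfold kk Gam
      ring
    rw [e2] at e1
    have hHm : Measurable (fun κ => Gam t (uu ρ t) * HH g (uu ρ t * (t + κ)) α) := by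
      have h1 : Measurable (fun κ : ℝ => (uu ρ t * (t + κ), α)) := by fun_prop
      exact (Measurable.comp (HH_meas hg) h1).const_mul _
    have hbm : Measurable (fun κ => bw (t + κ)) := bw_meas.comp (measurable_const_add t)
    have hcm : Measurable (fun κ => cw (t + κ)) := cw_meas.comp (measurable_const_add t)
    have hae : ∀ᵐ κ : ℝ, 1 ≤ bw (t + κ) ^ 3 * cw (t + κ) := by
      have : ∀ᵐ κ : ℝ, κ ≠ -t := by
        rw [ae_iff]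
        simp
      filter_upwards [this] with κ hκ
      apply bw_cw
      intro h
      apply hκ
      linarith
    have e5 : ∫⁻ κ, T (uu ρ t) α κ = ∫⁻ κ, kk κ * (cw (t + κ) *
        (Gam t (uu ρ t) * HH g (uu ρ t * (t + κ)) α) ^ 4) := by
      apply lintegral_congr
      intro κ
      simp only [hT]
      ring
    rw [e5]
    have e3 := holder4 volume kk (fun κ => bw (t + κ)) (fun κ => cw (t + κ))
      (fun κ => Gam t (uu ρ t) * HH g (uu ρ t * (t + κ)) α) kk_meas hbm hcm hHm hae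
    have e4 : ∫⁻ κ, kk κ * bw (t + κ) ≤ C4 := by
      refine le_trans ?_ (hC4 t)
      gcongr with κ
      exact bw_le _
    calc ‖EX (bg g) (pol ρ α) t‖ₑ ^ 4
        ≤ (C3 * ∫⁻ κ : ℝ, kk κ * (Gam t (uu ρ t) * HH g (uu ρ t * (t + κ)) α)) ^ 4 :=
          pow_le_pow_left' e1 4
      _ = (C3 : ℝ≥0∞) ^ 4 *
          (∫⁻ κ : ℝ, kk κ * (Gam t (uu ρ t) * HH g (uu ρ t * (t + κ)) α)) ^ 4 := mul_pow _ _ _
      _ ≤ (C3 : ℝ≥0∞) ^ 4 * ((∫⁻ κ, kk κ * bw (t + κ)) ^ 3 * ∫⁻ κ, kk κ * (cw (t + κ) *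
        (Gam t (uu ρ t) * HH g (uu ρ t * (t + κ)) α) ^ 4)) :=
          mul_le_mul' le_rfl e3
      _ ≤ _ := mul_le_mul' le_rfl (mul_le_mul' (pow_le_pow_left' e4 3) le_rfl)
  -- polar coordinates
  have hTu : Measurable (fun u : ℝ => ∫⁻ α in Ioo (-π) π, ∫⁻ κ, T u α κ) := by
    have h1 : Measurable (fun p : ℝ × ℝ => ∫⁻ κ, T p.1 p.2 κ) := hTm.lintegral_prod_right'
    exact h1.lintegral_prod_right'
  have hstep1 : ∫⁻ X : ℝ × ℝ, ‖EX (bg g) X t‖ₑ ^ 4 ≤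
      (C3 : ℝ≥0∞) ^ 4 * (C4 : ℝ≥0∞) ^ 3 *
        ∫⁻ ρ in Ioi (0 : ℝ), ENNReal.ofReal ρ * ∫⁻ α in Ioo (-π) π, ∫⁻ κ, T (uu ρ t) α κ := by
    rw [EX_polar]
    have hTp : Measurable (fun p : ℝ × ℝ => ENNReal.ofReal p.1 * ∫⁻ κ, T (uu p.1 t) p.2 κ) := by
      have h1 : Measurable (fun p : ℝ × ℝ => ∫⁻ κ, T p.1 p.2 κ) := hTm.lintegral_prod_right'
      have h2 : Measurable (fun p : ℝ × ℝ => (uu p.1 t, p.2)) := by
        unfold uu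
        fun_prop
      have h3 := Measurable.comp h1 h2
      exact (measurable_fst.ennreal_ofReal).mul h3
    calc ∫⁻ p in Ioi (0 : ℝ) ×ˢ Ioo (-π) π, ENNReal.ofReal p.1 * ‖EX (bg g) (pol p.1 p.2) t‖ₑ ^ 4
        ≤ ∫⁻ p in Ioi (0 : ℝ) ×ˢ Ioo (-π) π, ((C3 : ℝ≥0∞) ^ 4 * (C4 : ℝ≥0∞) ^ 3) *
            (ENNReal.ofReal p.1 * ∫⁻ κ, T (uu p.1 t) p.2 κ) := by
          apply setLIntegral_mono' (measurableSet_Ioi.prod measurableSet_Ioo)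
          intro p hp
          have hp1 : (0 : ℝ) < p.1 := hp.1
          calc ENNReal.ofReal p.1 * ‖EX (bg g) (pol p.1 p.2) t‖ₑ ^ 4
              ≤ ENNReal.ofReal p.1 * ((C3 : ℝ≥0∞) ^ 4 * ((C4 : ℝ≥0∞) ^ 3 *
                ∫⁻ κ, T (uu p.1 t) p.2 κ)) := mul_le_mul' le_rfl (hpt p.1 hp1 p.2)
            _ = _ := by ring
      _ = (C3 : ℝ≥0∞) ^ 4 * (C4 : ℝ≥0∞) ^ 3 * ∫⁻ p in Ioi (0 : ℝ) ×ˢ Ioo (-π) π,
            (ENNReal.ofReal p.1 * ∫⁻ κ, T (uu p.1 t) p.2 κ) := lintegral_const_mul _ hTp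
      _ = _ := by
          congr 1
          rw [Measure.volume_eq_prod, ← Measure.prod_restrict, lintegral_prod _ hTp.aemeasurable]
          apply lintegral_congr
          intro ρ
          rw [lintegral_const_mul' _ _ ENNReal.ofReal_ne_top]
  -- change of variables and Tonelli
  have hstep2 : ∫⁻ ρ in Ioi (0 : ℝ), ENNReal.ofReal ρ *
      ∫⁻ α in Ioo (-π) π, ∫⁻ κ, T (uu ρ t) α κ ≤
      ENNReal.ofReal (4 * (1 + t ^ 2)) *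
        ∫⁻ u in Ioi (0 : ℝ), ∫⁻ α in Ioo (-π) π, ∫⁻ κ, T u α κ :=
    cov t (fun u => ∫⁻ α in Ioo (-π) π, ∫⁻ κ, T u α κ)
  have hstep3 : ∫⁻ u in Ioi (0 : ℝ), ∫⁻ α in Ioo (-π) π, ∫⁻ κ, T u α κ =
      ∫⁻ κ, (kk κ * cw (t + κ)) * ∫⁻ u in Ioi (0 : ℝ), ∫⁻ α in Ioo (-π) π,
        (Gam t u * HH g (u * (t + κ)) α) ^ 4 := step3 hg t
  have hstep4 := step4 δ C1 C2 C4 C5 N hC4 hC5 t (fun τ => ∫⁻ u in Ioi (0 : ℝ),
    ∫⁻ α in Ioo (-π) π, (Gam t u * HH g (u * τ) α) ^ 4)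
    (fun τ hτ => J_le δ h0 h1 C1 C2 g N hg hC1' hC2' t τ hτ)
  -- conclusion
  have hp : (0 : ℝ) < 1 + t ^ 2 := by positivity
  have k1 : ENNReal.ofReal (4 * (1 + t ^ 2)) * ENNReal.ofReal ((1 + t ^ 2) ^ (-3 : ℝ)) ≤
      4 * 2 * ENNReal.ofReal ((1 + |t|) ^ (-2 + δ)) := by
    rw [← ENNReal.ofReal_mul (by positivity)]
    have h8 : (4 * 2 : ℝ≥0∞) = ENNReal.ofReal 8 := by norm_num
    rw [h8, ← ENNReal.ofReal_mul (by norm_num)]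
    apply ENNReal.ofReal_le_ofReal
    have := time_le δ h0 t
    nlinarith
  have k2 : ENNReal.ofReal (4 * (1 + t ^ 2)) * ENNReal.ofReal ((1 + t ^ 2)⁻¹) = 4 := by
    rw [← ENNReal.ofReal_mul (by positivity), mul_assoc, mul_inv_cancel₀ hp.ne']
    norm_num
  calc ∫⁻ X : ℝ × ℝ, ‖EX (bg g) X t‖ₑ ^ 4
      ≤ (C3 : ℝ≥0∞) ^ 4 * (C4 : ℝ≥0∞) ^ 3 * (ENNReal.ofReal (4 * (1 + t ^ 2)) *
          (8 * (ENNReal.ofReal ((1 + t ^ 2) ^ (-3 : ℝ)) * (C2 * N) * C4 +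
          ENNReal.ofReal ((1 + t ^ 2)⁻¹) * ((C1 + C2) * N) *
          (C5 * ENNReal.ofReal ((1 + |t|) ^ (-2 + δ)))))) := by
        refine hstep1.trans (mul_le_mul' le_rfl (hstep2.trans (mul_le_mul' le_rfl ?_)))
        rw [hstep3]
        exact hstep4
    _ = (C3 : ℝ≥0∞) ^ 4 * (C4 : ℝ≥0∞) ^ 3 * 8 *
          ((ENNReal.ofReal (4 * (1 + t ^ 2)) * ENNReal.ofReal ((1 + t ^ 2) ^ (-3 : ℝ))) *
            (C2 * N) * C4 +
          (ENNReal.ofReal (4 * (1 + t ^ 2)) * ENNReal.ofReal ((1 + t ^ 2)⁻¹)) * ((C1 + C2) * N) *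
          (C5 * ENNReal.ofReal ((1 + |t|) ^ (-2 + δ)))) := by ring
    _ ≤ (C3 : ℝ≥0∞) ^ 4 * (C4 : ℝ≥0∞) ^ 3 * 8 *
          ((4 * 2 * ENNReal.ofReal ((1 + |t|) ^ (-2 + δ))) * (C2 * N) * C4 +
          4 * ((C1 + C2) * N) * (C5 * ENNReal.ofReal ((1 + |t|) ^ (-2 + δ)))) := by
        rw [k2]
        exact mul_le_mul' le_rfl (add_le_add (mul_le_mul' (mul_le_mul' k1 le_rfl) le_rfl) le_rfl)
    _ = _ := by
        rw [hN]
        push_cast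
        ring

end Pool.Agent.TH407.AR
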