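import Mathlib
import Pool.Agent.TH407.AR.Defs
set_option autoImplicit false

/-! VR-M, part 1: affine changes of variables -/

namespace Pool.Agent.TH407.AR

open MeasureTheory Set Complex
open scoped ENNReal NNReal Real

lemma sq_meas : Measurable sq := by
  unfold sq
  fun_prop

lemma EX_meas {f : ℝ × ℝ → ℂ} (hf : Measurable f) :
    Measurable (fun ξ : (ℝ × ℝ) × ℝ => EX f ξ.1 ξ.2) := by
  have hs := sq_meas
  have h : StronglyMeasurable (fun p : ((ℝ × ℝ) × ℝ) × (ℝ × ℝ) =>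
      cexp (-(I * ((p.2.1 * p.1.1.1 + p.2.2 * p.1.1.2 + sq p.2 * p.1.2 : ℝ) : ℂ))) * f p.2) := by
    apply Measurable.stronglyMeasurable
    fun_prop
  exact (h.integral_prod_right' (ν := (volume : Measure (ℝ × ℝ)))).measurable

/-- affine change of variables on the plane -/
lemma lint_aff (G : ℝ × ℝ → ℝ≥0∞) (p : ℝ × ℝ) (ρ : ℝ) (hρ : 0 < ρ) :
    ∫⁻ X : ℝ × ℝ, G (ρ • (X + p)) = ENNReal.ofReal (ρ ^ 2)⁻¹ * ∫⁻ X : ℝ × ℝ, G X := by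
  have e1 : ∫⁻ X : ℝ × ℝ, G (ρ • (X + p)) = ∫⁻ X : ℝ × ℝ, G (ρ • X) :=
    lintegral_add_right_eq_self (fun X => G (ρ • X)) p
  rw [e1]
  have h4 : MeasurableEmbedding (fun Y : ℝ × ℝ => ρ • Y) :=
    (Homeomorph.smulOfNeZero ρ hρ.ne').measurableEmbedding
  have h5 := Measure.map_addHaar_smul (volume : Measure (ℝ × ℝ)) hρ.ne'
  have hfr : Module.finrank ℝ (ℝ × ℝ) = 2 := by simp
  rw [← h4.lintegral_map, h5, lintegral_smul_measure, smul_eq_mul, hfr,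
    abs_of_pos (by positivity)]

lemma lint_aff1 (G : ℝ → ℝ≥0∞) (ρ : ℝ) (hρ : 0 < ρ) :
    ∫⁻ t : ℝ, G (ρ * t) = ENNReal.ofReal ρ⁻¹ * ∫⁻ t : ℝ, G t := by
  have h4 : MeasurableEmbedding (fun t : ℝ => ρ * t) :=
    (Homeomorph.mulLeft₀ ρ hρ.ne').measurableEmbedding
  rw [← h4.lintegral_map, Real.map_volume_mul_left hρ.ne', lintegral_smul_measure, smul_eq_mul,
    abs_of_pos (by positivity)]

lemma int_aff (G : ℝ × ℝ → ℂ) (p : ℝ × ℝ) (ρ : ℝ) (hρ : 0 < ρ) :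
    ∫ x : ℝ × ℝ, G x = ((ρ ^ 2 : ℝ) : ℂ) * ∫ y : ℝ × ℝ, G (p + ρ • y) := by
  have h1 : ∫ y : ℝ × ℝ, G (p + ρ • y) = |(ρ ^ Module.finrank ℝ (ℝ × ℝ))⁻¹| •
      ∫ y : ℝ × ℝ, G (p + y) :=
    Measure.integral_comp_smul volume (fun y => G (p + y)) ρ
  have hfr : Module.finrank ℝ (ℝ × ℝ) = 2 := by simp
  rw [h1, hfr, integral_add_left_eq_self G p, abs_of_pos (by positivity), Complex.real_smul,
    ← mul_assoc, ← Complex.ofReal_mul, mul_inv_cancel₀ (by positivity)]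
  simp

lemma EX_aff (f : ℝ × ℝ → ℂ) (p : ℝ × ℝ) (ρ : ℝ) (hρ : 0 < ρ) (X : ℝ × ℝ) (t : ℝ) :
    ‖EX f X t‖ₑ = ENNReal.ofReal (ρ ^ 2) *
      ‖EX (fun y => f (p + ρ • y)) (ρ • (X + (2 * t) • p)) (ρ ^ 2 * t)‖ₑ := by
  unfold EX
  rw [int_aff _ p ρ hρ]
  have h2 : ∫ y : ℝ × ℝ, cexp (-(I * (((p + ρ • y).1 * X.1 + (p + ρ • y).2 * X.2 +
      sq (p + ρ • y) * t : ℝ) : ℂ))) * f (p + ρ • y) =
      cexp (-(I * ((p.1 * X.1 + p.2 * X.2 + sq p * t : ℝ) : ℂ))) *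
      ∫ y : ℝ × ℝ, cexp (-(I * ((y.1 * (ρ • (X + (2 * t) • p)).1 +
        y.2 * (ρ • (X + (2 * t) • p)).2 + sq y * (ρ ^ 2 * t) : ℝ) : ℂ))) * f (p + ρ • y) := by
    rw [← integral_const_mul]
    apply integral_congr_ae
    refine ae_of_all _ fun y => ?_
    simp only
    rw [← mul_assoc, ← Complex.exp_add]
    congr 2
    simp only [sq, Prod.fst_add, Prod.snd_add, Prod.smul_fst, Prod.smul_snd, smul_eq_mul]
    push_cast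
    ring
  rw [h2, enorm_mul, enorm_mul]
  have h3 : ‖cexp (-(I * ((p.1 * X.1 + p.2 * X.2 + sq p * t : ℝ) : ℂ)))‖ₑ = 1 := by
    rw [← ofReal_norm, show (-(I * ((p.1 * X.1 + p.2 * X.2 + sq p * t : ℝ) : ℂ))) =
      (((-(p.1 * X.1 + p.2 * X.2 + sq p * t) : ℝ) : ℂ) * I) by push_cast; ring,
      Complex.norm_exp_ofReal_mul_I, ENNReal.ofReal_one]
  have h4 : ‖((ρ ^ 2 : ℝ) : ℂ)‖ₑ = ENNReal.ofReal (ρ ^ 2) := by
    rw [← ofReal_norm, Complex.norm_real, Real.norm_eq_abs, abs_of_pos (by positivity)]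
  rw [h3, h4, one_mul]

lemma EX_aff_int (f : ℝ × ℝ → ℂ) (hf : Measurable f) (p : ℝ × ℝ) (ρ : ℝ) (hρ : 0 < ρ) (q : ℝ)
    (hq : 0 ≤ q) :
    ∫⁻ ξ : (ℝ × ℝ) × ℝ, ‖EX f ξ.1 ξ.2‖ₑ ^ q = ENNReal.ofReal (ρ ^ (2 * q - 4)) *
      ∫⁻ ξ : (ℝ × ℝ) × ℝ, ‖EX (fun y => f (p + ρ • y)) ξ.1 ξ.2‖ₑ ^ q := by
  have hF : Measurable (fun y => f (p + ρ • y)) := by fun_prop
  have m1 : Measurable (fun ξ : (ℝ × ℝ) × ℝ => ‖EX f ξ.1 ξ.2‖ₑ ^ q) :=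
    (EX_meas hf).enorm.pow_const q
  have m2 : Measurable (fun ξ : (ℝ × ℝ) × ℝ => ‖EX (fun y => f (p + ρ • y)) ξ.1 ξ.2‖ₑ ^ q) :=
    (EX_meas hF).enorm.pow_const q
  have E1 := lintegral_prod_symm (μ := (volume : Measure (ℝ × ℝ))) (ν := (volume : Measure ℝ))
    _ m1.aemeasurable
  have E2 := lintegral_prod_symm (μ := (volume : Measure (ℝ × ℝ))) (ν := (volume : Measure ℝ))
    _ m2.aemeasurable
  rw [← Measure.volume_eq_prod] at E1 E2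
  rw [E1, E2]
  clear E1 E2
  have e1 : ∀ t : ℝ, ∫⁻ X : ℝ × ℝ, ‖EX f X t‖ₑ ^ q =
      ENNReal.ofReal (ρ ^ (2 * q - 2)) *
        ∫⁻ X : ℝ × ℝ, ‖EX (fun y => f (p + ρ • y)) X (ρ ^ 2 * t)‖ₑ ^ q := by
    intro t
    have h := lint_aff (fun X : ℝ × ℝ => ‖EX (fun y => f (p + ρ • y)) X (ρ ^ 2 * t)‖ₑ ^ q)
      ((2 * t) • p) ρ hρ
    have hpt : ∀ X : ℝ × ℝ, ‖EX f X t‖ₑ ^ q = ENNReal.ofReal (ρ ^ (2 * q)) *
        ‖EX (fun y => f (p + ρ • y)) (ρ • (X + (2 * t) • p)) (ρ ^ 2 * t)‖ₑ ^ q := by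
      intro X
      rw [EX_aff f p ρ hρ X t, ENNReal.mul_rpow_of_nonneg _ _ hq,
        ENNReal.ofReal_rpow_of_nonneg (by positivity) hq, ← Real.rpow_natCast,
        ← Real.rpow_mul hρ.le]
      norm_num
    simp_rw [hpt]
    rw [lintegral_const_mul' _ _ ENNReal.ofReal_ne_top, h, ← mul_assoc,
      ← ENNReal.ofReal_mul (by positivity)]
    congr 2
    rw [← Real.rpow_natCast, ← Real.rpow_neg hρ.le, ← Real.rpow_add hρ]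
    congr 1
  simp_rw [e1]
  rw [lintegral_const_mul' _ _ ENNReal.ofReal_ne_top,
    lint_aff1 (fun t => ∫⁻ X : ℝ × ℝ, ‖EX (fun y => f (p + ρ • y)) X t‖ₑ ^ q) (ρ ^ 2)
      (by positivity), ← mul_assoc, ← ENNReal.ofReal_mul (by positivity)]
  congr 2
  rw [← Real.rpow_natCast, ← Real.rpow_neg hρ.le, ← Real.rpow_add hρ]
  congr 1
  push_cast
  ring

end Pool.Agent.TH407.AR
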