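import Mathlib
import Pool.Agent.TH407.AR.M1
set_option autoImplicit false

/-! VR-M, part 2: summation over dyadic shells -/

namespace Pool.Agent.TH407.AR

open MeasureTheory Set Complex
open scoped ENNReal NNReal Real

/-- weighted convexity for sums -/
lemma sum_pow (w a : ℕ → ℝ≥0∞) (q : ℝ) (hq : 1 < q) (hw0 : ∀ j, w j ≠ 0) (hw1 : ∀ j, w j ≠ ∞) :
    (∑' j, a j) ^ q ≤ (∑' j, w j) ^ (q - 1) * ∑' j, w j ^ (1 - q) * a j ^ q := by
  set p := q / (q - 1) with hp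
  have hpq : p.HolderConjugate q := by
    have := (Real.holderConjugate_iff (p := q) (q := p)).2 ⟨hq, by
      rw [hp]
      have : q - 1 ≠ 0 := by linarith
      field_simp
      ring⟩
    exact this.symm
  have hq1 : 0 < q - 1 := by linarith
  have hq0 : 0 < q := by linarith
  have hp0 : 0 < p := by rw [hp]; positivity
  have h := ENNReal.lintegral_mul_le_Lp_mul_Lq (Measure.count : Measure ℕ) hpq
    (f := fun j => w j ^ (1 / p)) (g := fun j => w j ^ (-(1 / p)) * a j)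
    (measurable_of_countable _).aemeasurable (measurable_of_countable _).aemeasurable
  simp only [Pi.mul_apply, lintegral_count] at h
  have e1 : ∀ j, w j ^ (1 / p) * (w j ^ (-(1 / p)) * a j) = a j := by
    intro j
    rw [← mul_assoc, ← ENNReal.rpow_add _ _ (hw0 j) (hw1 j)]
    simp
  have e2 : ∀ j, (w j ^ (1 / p)) ^ p = w j := by
    intro j
    rw [← ENNReal.rpow_mul, one_div_mul_cancel hp0.ne', ENNReal.rpow_one]
  have e3 : ∀ j, (w j ^ (-(1 / p)) * a j) ^ q = w j ^ (1 - q) * a j ^ q := by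
    intro j
    rw [ENNReal.mul_rpow_of_nonneg _ _ hq0.le, ← ENNReal.rpow_mul]
    congr 2
    rw [hp]
    field_simp
    ring
  simp only [e1, e2, e3] at h
  have h2 := ENNReal.rpow_le_rpow h hq0.le
  rw [ENNReal.mul_rpow_of_nonneg _ _ hq0.le, ← ENNReal.rpow_mul, ← ENNReal.rpow_mul,
    one_div_mul_cancel hq0.ne', ENNReal.rpow_one] at h2
  have e4 : 1 / p * q = q - 1 := by
    rw [hp]
    field_simp
  rw [e4] at h2
  exact h2

/-- polar coordinates, `lintegral` form -/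
lemma lint_polar (f : ℝ × ℝ → ℝ≥0∞) :
    ∫⁻ X : ℝ × ℝ, f X = ∫⁻ p in Ioi (0 : ℝ) ×ˢ Ioo (-π) π, ENNReal.ofReal p.1 * f (pol p.1 p.2) := by
  rw [← lintegral_comp_polarCoord_symm]
  simp only [polarCoord_target, polarCoord_symm_apply, smul_eq_mul]
  rfl

lemma ang_meas : Measurable ang := by
  unfold ang
  simp only [polarCoord_apply]
  have h := (Complex.measurable_arg).comp
    (Complex.measurableEquivRealProd.symm.measurable)
  exact h

lemma ang_pol {r θ : ℝ} (hr : 0 < r) (hθ : θ ∈ Ioo (-π) π) : ang (pol r θ) = θ := by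
  have h : (r, θ) ∈ polarCoord.target := by
    rw [polarCoord_target]
    exact ⟨hr, hθ⟩
  have h2 := polarCoord.right_inv h
  unfold ang
  have h3 : polarCoord.symm (r, θ) = pol r θ := by
    rw [polarCoord_symm_apply]; rfl
  rw [← h3, h2]

lemma sq_pol (r θ : ℝ) : sq (pol r θ) = r ^ 2 := by
  unfold sq pol
  simp only
  nlinarith [Real.sin_sq_add_cos_sq θ]

lemma sq_smul (c : ℝ) (x : ℝ × ℝ) : sq (c • x) = c ^ 2 * sq x := by
  unfold sq
  simp only [Prod.smul_fst, Prod.smul_snd, smul_eq_mul]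
  ring

lemma smul_pol (c r θ : ℝ) : c • pol r θ = pol (c * r) θ := by
  unfold pol
  simp only [Prod.smul_mk, smul_eq_mul]
  congr 1 <;> ring

/-- a null set of angles gives a null set in the plane -/
lemma ae_ang {P : ℝ → Prop} (hP : MeasurableSet {θ | P θ})
    (h : ∀ᵐ θ ∂(volume.restrict (Ioo (-π) π)), P θ) : ∀ᵐ x : ℝ × ℝ, P (ang x) := by
  have hm : MeasurableSet {x : ℝ × ℝ | ¬ P (ang x)} := (hP.preimage ang_meas).compl
  rw [ae_iff, ← lintegral_indicator_one hm, lint_polar]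
  rw [ae_iff] at h
  have hm2 : MeasurableSet {θ | ¬ P θ} := hP.compl
  have e : ∫⁻ p in Ioi (0 : ℝ) ×ˢ Ioo (-π) π, ENNReal.ofReal p.1 *
      ({x : ℝ × ℝ | ¬ P (ang x)}.indicator 1 (pol p.1 p.2) : ℝ≥0∞) =
      ∫⁻ p in Ioi (0 : ℝ) ×ˢ Ioo (-π) π, ENNReal.ofReal p.1 *
      ({θ | ¬ P θ}.indicator 1 p.2 : ℝ≥0∞) := by
    apply setLIntegral_congr_fun (measurableSet_Ioi.prod measurableSet_Ioo)
    intro p hp
    have h1 := ang_pol (mem_Ioi.1 hp.1) hp.2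
    have h2 : (pol p.1 p.2 ∈ {x : ℝ × ℝ | ¬ P (ang x)}) ↔ p.2 ∈ {θ | ¬ P θ} := by
      show ¬ P (ang (pol p.1 p.2)) ↔ ¬ P p.2
      rw [h1]
    show ENNReal.ofReal p.1 * ({x : ℝ × ℝ | ¬ P (ang x)}.indicator 1 (pol p.1 p.2) : ℝ≥0∞) =
      ENNReal.ofReal p.1 * ({θ | ¬ P θ}.indicator 1 p.2 : ℝ≥0∞)
    by_cases h3 : p.2 ∈ {θ | ¬ P θ}
    · rw [indicator_of_mem h3, indicator_of_mem (h2.2 h3)]
      rfl
    · rw [indicator_of_notMem h3, indicator_of_notMem (fun h => h3 (h2.1 h))]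
  rw [e, Measure.volume_eq_prod, ← Measure.prod_restrict, lintegral_prod_symm]
  · have e2 : ∀ θ : ℝ, ∫⁻ r in Ioi (0 : ℝ), ENNReal.ofReal r *
        ({θ | ¬ P θ}.indicator 1 θ : ℝ≥0∞) =
        (∫⁻ r in Ioi (0 : ℝ), ENNReal.ofReal r) * ({θ | ¬ P θ}.indicator 1 θ : ℝ≥0∞) := by
      intro θ
      rw [lintegral_mul_const _ (by fun_prop)]
    simp_rw [e2]
    rw [lintegral_const_mul _ (measurable_one.indicator hm2), lintegral_indicator_one hm2, h,
      mul_zero]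
  · apply Measurable.aemeasurable
    exact (by fun_prop : Measurable fun p : ℝ × ℝ => ENNReal.ofReal p.1).mul
      ((measurable_one.indicator hm2).comp measurable_snd)

/-- the angular majorant on the `j`-th shell (to the power `q`) -/
noncomputable def WJ (M : ℝ × ℝ → ℝ≥0∞) (q ρ θ : ℝ) : ℝ≥0∞ :=
  ∫⁻ r in Ioc (1 : ℝ) 2, M (pol (ρ * r) θ) ^ q * ENNReal.ofReal r

lemma WJ_meas {M : ℝ × ℝ → ℝ≥0∞} (hM : Measurable M) (q ρ : ℝ) : Measurable (WJ M q ρ) := by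
  unfold WJ
  have h : Measurable (fun p : ℝ × ℝ => M (pol (ρ * p.2) p.1) ^ q * ENNReal.ofReal p.2) := by
    have h1 : Measurable (fun p : ℝ × ℝ => pol (ρ * p.2) p.1) := by
      unfold pol
      fun_prop
    exact ((hM.comp h1).pow_const q).mul (by fun_prop)
  exact h.lintegral_prod_right'

lemma WJ_lower (M : ℝ × ℝ → ℝ≥0∞) (q ρ θ : ℝ) (hq : 0 < q) (A : ℝ≥0∞)
    (hA : ∀ r ∈ Ioc (1 : ℝ) 2, A ≤ M (pol (ρ * r) θ)) : A ≤ WJ M q ρ θ ^ (1 / q) := by
  have h1 : A ^ q ≤ WJ M q ρ θ := by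
    unfold WJ
    calc A ^ q = ∫⁻ r in Ioc (1 : ℝ) 2, A ^ q := by
          rw [setLIntegral_const, Real.volume_Ioc]
          norm_num
      _ ≤ _ := by
          apply setLIntegral_mono' measurableSet_Ioc
          intro r hr
          calc A ^ q = A ^ q * 1 := (mul_one _).symm
            _ ≤ M (pol (ρ * r) θ) ^ q * ENNReal.ofReal r := by
                apply mul_le_mul'
                · exact ENNReal.rpow_le_rpow (hA r hr) hq.le
                · rw [← ENNReal.ofReal_one]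
                  exact ENNReal.ofReal_le_ofReal hr.1.le
  calc A = (A ^ q) ^ (1 / q) := by
        rw [← ENNReal.rpow_mul, mul_one_div_cancel hq.ne', ENNReal.rpow_one]
    _ ≤ _ := ENNReal.rpow_le_rpow h1 (by positivity)

lemma WJ_int {M : ℝ × ℝ → ℝ≥0∞} (hM : Measurable M) (q ρ : ℝ) (hρ : 0 < ρ) :
    ∫⁻ θ in Ioo (-π) π, WJ M q ρ θ ≤ ENNReal.ofReal (ρ ^ 2)⁻¹ * ∫⁻ X, M X ^ q := by
  have h := lint_aff (fun X => M X ^ q) 0 ρ hρ
  simp only [add_zero] at h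
  rw [← h, lint_polar]
  have hm : Measurable (fun p : ℝ × ℝ => ENNReal.ofReal p.1 * M (ρ • pol p.1 p.2) ^ q) := by
    have h1 : Measurable (fun p : ℝ × ℝ => ρ • pol p.1 p.2) := by
      unfold pol
      fun_prop
    exact (by fun_prop : Measurable fun p : ℝ × ℝ => ENNReal.ofReal p.1).mul
      ((hM.comp h1).pow_const q)
  rw [Measure.volume_eq_prod, ← Measure.prod_restrict, lintegral_prod_symm _ hm.aemeasurable]
  apply lintegral_mono
  intro θ
  unfold WJ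
  have hsub : Ioc (1 : ℝ) 2 ⊆ Ioi 0 := fun r hr => lt_trans one_pos hr.1
  refine (lintegral_mono_set hsub).trans (le_of_eq ?_)
  apply lintegral_congr
  intro r
  rw [smul_pol, mul_comm]

section

variable (f : ℝ × ℝ → ℂ) (M : ℝ × ℝ → ℝ≥0∞) (q : ℝ)

/-- the piece on a shell, rescaled -/
noncomputable def FJ (ρ : ℝ) (y : ℝ × ℝ) : ℂ :=
  open Classical in if (1 / 4 < sq y ∧ sq y ≤ 1) ∧ WJ M q ρ (ang y) ≠ ∞ then f (ρ • y) else 0

variable {f M}

lemma FJ_meas (hf : Measurable f) (hM : Measurable M) (ρ : ℝ) : Measurable (FJ f M q ρ) := by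
  unfold FJ
  refine Measurable.ite ?_ (by fun_prop) measurable_const
  refine MeasurableSet.inter (MeasurableSet.inter ?_ ?_) ?_
  · exact measurableSet_lt measurable_const sq_meas
  · exact measurableSet_le sq_meas measurable_const
  · exact ((WJ_meas hM q ρ).comp ang_meas) (measurableSet_singleton ∞).compl

lemma FJ_pol {ρ r θ : ℝ} (hr : r ∈ Ioc (1 / 2 : ℝ) 1) (hθ : θ ∈ Ioo (-π) π)
    (hW : WJ M q ρ θ ≠ ∞) : FJ f M q ρ (pol r θ) = f (pol (ρ * r) θ) := by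
  unfold FJ
  have hr0 : 0 < r := by linarith [hr.1]
  rw [ang_pol hr0 hθ, sq_pol, smul_pol, if_pos]
  refine ⟨⟨?_, ?_⟩, hW⟩
  · nlinarith [hr.1]
  · nlinarith [hr.2]

lemma FJ_pol' {ρ r θ : ℝ} (hr : r ∈ Ioc (1 / 2 : ℝ) 1) (hθ : θ ∈ Ioo (-π) π)
    (hW : WJ M q ρ θ = ∞) : FJ f M q ρ (pol r θ) = 0 := by
  unfold FJ
  have hr0 : 0 < r := by linarith [hr.1]
  rw [ang_pol hr0 hθ, if_neg]
  intro h
  exact h.2 hW

variable (hW : ∀ x, ‖f x‖ₑ + eVariationOn (fun s : ℝ => f (s • x)) (Icc (1 / 4) 1) ≤ M x)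

include hW in
lemma pt_bd {ρ r r' θ : ℝ} (hr : r ∈ Ioc (1 / 2 : ℝ) 1) (hr' : r' ∈ Ioc (1 : ℝ) 2) :
    ‖f (pol (ρ * r) θ)‖ₑ ≤ M (pol (ρ * r') θ) := by
  have h := hW (pol (ρ * r') θ)
  have h0 : 0 < r' := by linarith [hr'.1]
  have hs : r / r' ∈ Icc (1 / 4 : ℝ) 1 := by
    constructor
    · rw [le_div_iff₀ h0]; linarith [hr.1, hr'.2]
    · rw [div_le_one h0]; linarith [hr.2, hr'.1]
  have h1 : (1 : ℝ) ∈ Icc (1 / 4 : ℝ) 1 := by constructor <;> norm_num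
  have h2 := eVariationOn.edist_le (fun s : ℝ => f (s • pol (ρ * r') θ)) hs h1
  have e : (r / r') • pol (ρ * r') θ = pol (ρ * r) θ := by
    rw [smul_pol]
    congr 1
    field_simp
  simp only [one_smul, e] at h2
  calc ‖f (pol (ρ * r) θ)‖ₑ ≤ ‖f (pol (ρ * r') θ)‖ₑ +
        edist (f (pol (ρ * r) θ)) (f (pol (ρ * r') θ)) := by
        rw [edist_eq_enorm_sub]
        calc ‖f (pol (ρ * r) θ)‖ₑ = ‖f (pol (ρ * r') θ) +
              (f (pol (ρ * r) θ) - f (pol (ρ * r') θ))‖ₑ := by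
              congr 1; ring
          _ ≤ _ := enorm_add_le _ _
    _ ≤ _ := (add_le_add le_rfl h2).trans h

include hW in
lemma var_bd {ρ r' θ : ℝ} (hr' : r' ∈ Ioc (1 : ℝ) 2) :
    eVariationOn (fun r => f (pol (ρ * r) θ)) (Ioc (1 / 2) 1) ≤ M (pol (ρ * r') θ) := by
  have h := hW (pol (ρ * r') θ)
  have h0 : 0 < r' := by linarith [hr'.1]
  have hc := eVariationOn.comp_le_of_monotoneOn (fun s : ℝ => f (s • pol (ρ * r') θ))
    (s := Icc (1 / 4 : ℝ) 1) (t := Ioc (1 / 2 : ℝ) 1) (fun r => r / r')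
    (by
      intro a _ b _ hab
      exact div_le_div_of_nonneg_right hab h0.le)
    (by
      intro r hr
      constructor
      · show (1 / 4 : ℝ) ≤ r / r'
        rw [le_div_iff₀ h0]; linarith [hr.1, hr'.2]
      · show r / r' ≤ 1
        rw [div_le_one h0]; linarith [hr.2, hr'.1])
  have e : ((fun s : ℝ => f (s • pol (ρ * r') θ)) ∘ fun r => r / r') =
      fun r => f (pol (ρ * r) θ) := by
    ext r
    simp only [Function.comp, smul_pol]
    congr 2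
    field_simp
  rw [e] at hc
  exact hc.trans (le_add_self.trans h)

include hW in
/-- the shell estimate applied to a piece -/
lemma piece (C : ℝ≥0) (hq : 0 < q)
    (hC : ∀ (f : ℝ × ℝ → ℂ) (M : ℝ → ℝ≥0), Measurable f → Measurable M →
    (∀ x, ¬ (1 / 4 < sq x ∧ sq x ≤ 1) → f x = 0) →
    (∀ θ ∈ Ioo (-π) π, ∀ r ∈ Ioc (1 / 2 : ℝ) 1, ‖f (pol r θ)‖ₑ ≤ M θ) →
    (∀ θ ∈ Ioo (-π) π, eVariationOn (fun r => f (pol r θ)) (Ioc (1 / 2) 1) ≤ M θ) →
    ∫⁻ ξ : (ℝ × ℝ) × ℝ, ‖EX f ξ.1 ξ.2‖ₑ ^ q ≤ C * ∫⁻ θ in Ioo (-π) π, (M θ : ℝ≥0∞) ^ q)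
    (hf : Measurable f) (hM : Measurable M) (ρ : ℝ) (hρ : 0 < ρ) :
    ∫⁻ ξ : (ℝ × ℝ) × ℝ, ‖EX (FJ f M q ρ) ξ.1 ξ.2‖ₑ ^ q ≤
      C * (ENNReal.ofReal (ρ ^ 2)⁻¹ * ∫⁻ X, M X ^ q) := by
  set N : ℝ → ℝ≥0 := fun θ => (WJ M q ρ θ ^ (1 / q)).toNNReal with hN
  have hNm : Measurable N := ((WJ_meas hM q ρ).pow_const _).ennreal_toNNReal
  have hq1 : 0 < 1 / q := by positivity
  have hNe : ∀ θ, WJ M q ρ θ ≠ ∞ → (N θ : ℝ≥0∞) = WJ M q ρ θ ^ (1 / q) := by
    intro θ h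
    rw [hN]
    exact ENNReal.coe_toNNReal (ENNReal.rpow_ne_top_of_nonneg hq1.le h)
  refine (hC (FJ f M q ρ) N (FJ_meas q hf hM ρ) hNm ?_ ?_ ?_).trans ?_
  · intro x hx
    unfold FJ
    rw [if_neg]
    intro h
    exact hx h.1
  · intro θ hθ r hr
    by_cases hw : WJ M q ρ θ = ∞
    · rw [FJ_pol' q hr hθ hw]
      simp
    · rw [FJ_pol q hr hθ hw, hNe θ hw]
      exact WJ_lower M q ρ θ hq _ (fun r' hr' => pt_bd hW hr hr')
  · intro θ hθ
    by_cases hw : WJ M q ρ θ = ∞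
    · have : EqOn (fun r => FJ f M q ρ (pol r θ)) (fun _ => 0) (Ioc (1 / 2 : ℝ) 1) :=
        fun r hr => FJ_pol' q hr hθ hw
      rw [eVariationOn.congr this]
      rw [eVariationOn.constant_on]
      · simp
      · rintro _ ⟨a, _, rfl⟩ _ ⟨b, _, rfl⟩
        rfl
    · have : EqOn (fun r => FJ f M q ρ (pol r θ)) (fun r => f (pol (ρ * r) θ))
          (Ioc (1 / 2 : ℝ) 1) := fun r hr => FJ_pol q hr hθ hw
      rw [eVariationOn.congr this, hNe θ hw]
      exact WJ_lower M q ρ θ hq _ (fun r' hr' => var_bd hW hr')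
  · refine mul_le_mul' le_rfl (le_trans ?_ (WJ_int hM q ρ hρ))
    apply lintegral_mono
    intro θ
    show (N θ : ℝ≥0∞) ^ q ≤ WJ M q ρ θ
    by_cases hw : WJ M q ρ θ = ∞
    · rw [hw]; exact le_top
    · rw [hNe θ hw, ← ENNReal.rpow_mul, one_div_mul_cancel hq.ne', ENNReal.rpow_one]

end

end Pool.Agent.TH407.AR
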