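import Mathlib
import Pool.Agent.TH407.AR.M2
set_option autoImplicit false

/-! VR-M, part 3: the main estimate -/

namespace Pool.Agent.TH407.AR

open MeasureTheory Set Complex
open scoped ENNReal NNReal Real

lemma ang_smul {c : ℝ} (hc : 0 < c) (x : ℝ × ℝ) : ang (c • x) = ang x := by
  unfold ang
  simp only [polarCoord_apply]
  have h : Complex.equivRealProd.symm (c • x) = (c : ℂ) * Complex.equivRealProd.symm x := by
    apply Complex.ext <;> simp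
  rw [h]
  exact Complex.arg_real_mul _ hc

/-- dyadic scale -/
noncomputable def rj (j : ℕ) : ℝ := (1 / 2) ^ j

lemma rj_pos (j : ℕ) : 0 < rj j := by unfold rj; positivity

lemma rj_sq (j : ℕ) : rj j ^ 2 = (1 / 4) ^ j := by
  unfold rj
  rw [← pow_mul, mul_comm, pow_mul]
  norm_num

lemma rj_rpow (j : ℕ) (s : ℝ) : rj j ^ s = ((1 / 2 : ℝ) ^ s) ^ j := by
  unfold rj
  rw [← Real.rpow_natCast, ← Real.rpow_mul (by norm_num), mul_comm, Real.rpow_mul (by norm_num),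
    Real.rpow_natCast]

lemma sum_rj (s : ℝ) (hs : 0 < s) : ∑' j, ENNReal.ofReal (rj j ^ s) ≠ ∞ := by
  have h1 : (1 / 2 : ℝ) ^ s < 1 := Real.rpow_lt_one (by norm_num) (by norm_num) hs
  have h2 : Summable (fun j => rj j ^ s) := by
    simp_rw [rj_rpow]
    exact summable_geometric_of_lt_one (by positivity) h1
  exact h2.tsum_ofReal_ne_top

section

variable (f : ℝ × ℝ → ℂ) (M : ℝ × ℝ → ℝ≥0∞) (q : ℝ)

/-- the piece of `f` on the `j`-th shell -/
noncomputable def fj (j : ℕ) (x : ℝ × ℝ) : ℂ := FJ f M q (rj j) ((rj j)⁻¹ • x)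

variable {f M}

lemma fj_meas (hf : Measurable f) (hM : Measurable M) (j : ℕ) : Measurable (fj f M q j) := by
  unfold fj
  exact (FJ_meas q hf hM _).comp (by fun_prop)

lemma shell_iff (j : ℕ) (x : ℝ × ℝ) : (1 / 4 < sq ((rj j)⁻¹ • x) ∧ sq ((rj j)⁻¹ • x) ≤ 1) ↔
    (1 / 4 : ℝ) ^ (j + 1) < sq x ∧ sq x ≤ (1 / 4) ^ j := by
  have h := rj_pos j
  rw [sq_smul, inv_pow, rj_sq]
  have h4 : (0 : ℝ) < (1 / 4) ^ j := by positivity
  rw [inv_mul_eq_div, lt_div_iff₀ h4, div_le_iff₀ h4, pow_succ, one_mul, mul_comm (1 / 4 : ℝ)]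

lemma shell_unique {i j : ℕ} {x : ℝ × ℝ}
    (hi : (1 / 4 : ℝ) ^ (i + 1) < sq x ∧ sq x ≤ (1 / 4) ^ i)
    (hj : (1 / 4 : ℝ) ^ (j + 1) < sq x ∧ sq x ≤ (1 / 4) ^ j) : i = j := by
  have key : ∀ a b : ℕ, (1 / 4 : ℝ) ^ (a + 1) < sq x → sq x ≤ (1 / 4) ^ b → b ≤ a := by
    intro a b h1 h2
    by_contra hlt
    push Not at hlt
    have : (1 / 4 : ℝ) ^ b ≤ (1 / 4) ^ (a + 1) :=
      pow_le_pow_of_le_one (by norm_num) (by norm_num) hlt
    linarith
  exact le_antisymm (key j i hj.1 hi.2) (key i j hi.1 hj.2)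

lemma fj_of_not (j : ℕ) (x : ℝ × ℝ) (h : ¬ ((1 / 4 : ℝ) ^ (j + 1) < sq x ∧ sq x ≤ (1 / 4) ^ j)) :
    fj f M q j x = 0 := by
  unfold fj FJ
  rw [if_neg]
  intro h2
  exact h ((shell_iff j x).1 h2.1)

lemma fj_of (j : ℕ) (x : ℝ × ℝ) (h : (1 / 4 : ℝ) ^ (j + 1) < sq x ∧ sq x ≤ (1 / 4) ^ j)
    (hw : WJ M q (rj j) (ang x) ≠ ∞) : fj f M q j x = f x := by
  unfold fj FJ
  rw [if_pos, smul_smul, mul_inv_cancel₀ (rj_pos j).ne', one_smul]
  refine ⟨(shell_iff j x).2 h, ?_⟩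
  rw [ang_smul (inv_pos.2 (rj_pos j))]
  exact hw

lemma fj_enorm_le (j : ℕ) (x : ℝ × ℝ) : ‖fj f M q j x‖ₑ ≤ ‖f x‖ₑ := by
  unfold fj FJ
  split_ifs with h
  · rw [smul_smul, mul_inv_cancel₀ (rj_pos j).ne', one_smul]
  · simp

lemma tsum_fj_le (x : ℝ × ℝ) : ∑' j, ‖fj f M q j x‖ₑ ≤ ‖f x‖ₑ := by
  by_cases h : ∃ j : ℕ, (1 / 4 : ℝ) ^ (j + 1) < sq x ∧ sq x ≤ (1 / 4) ^ j
  · obtain ⟨j, hj⟩ := h
    rw [tsum_eq_single j]
    · exact fj_enorm_le q j x
    · intro i hi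
      rw [fj_of_not q i x (fun h => hi (shell_unique h hj))]
      simp
  · push Not at h
    have : ∀ j, ‖fj f M q j x‖ₑ = 0 := by
      intro j
      rw [fj_of_not q j x (fun h' => absurd h'.2 (not_le.2 (h j h'.1)))]
      simp
    simp [this]

lemma tsum_fj (h0 : ∀ x, 1 < sq x → f x = 0) {x : ℝ × ℝ} (hx : x ≠ 0)
    (hw : ∀ j, WJ M q (rj j) (ang x) ≠ ∞) : ∑' j, fj f M q j x = f x := by
  by_cases h1 : 1 < sq x
  · rw [h0 x h1]
    have : ∀ j, fj f M q j x = 0 := by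
      intro j
      apply fj_of_not
      intro h
      have : (1 / 4 : ℝ) ^ j ≤ 1 := pow_le_one₀ (by norm_num) (by norm_num)
      linarith [h.2]
    simp [this]
  · push Not at h1
    have hpos : 0 < sq x := by
      have hne : x.1 ≠ 0 ∨ x.2 ≠ 0 := by
        by_contra hcon
        push Not at hcon
        exact hx (Prod.ext hcon.1 hcon.2)
      unfold sq
      rcases hne with h | h
      · have := pow_pos (abs_pos.2 h) 2
        nlinarith [sq_nonneg x.2, sq_abs x.1]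
      · have := pow_pos (abs_pos.2 h) 2
        nlinarith [sq_nonneg x.1, sq_abs x.2]
    obtain ⟨j, hj1, hj2⟩ := exists_nat_pow_near_of_lt_one hpos h1
      (by norm_num : (0 : ℝ) < 1 / 4) (by norm_num)
    rw [tsum_eq_single j, fj_of q j x ⟨hj1, hj2⟩ (hw j)]
    intro i hi
    exact fj_of_not q i x (fun h => hi (shell_unique h ⟨hj1, hj2⟩))

end

/-- the estimate for functions supported in the unit disc, with centre `0` -/
theorem main0 (hS : ShellBound) (q : ℝ) (hq : 3 < q) : ∃ C : ℝ≥0, ∀ (f : ℝ × ℝ → ℂ)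
    (M : ℝ × ℝ → ℝ≥0∞), Measurable f → Measurable M → (∀ x, 1 < sq x → f x = 0) →
    (∀ x, ‖f x‖ₑ + eVariationOn (fun s : ℝ => f (s • x)) (Icc (1 / 4) 1) ≤ M x) →
    ∫⁻ ξ : (ℝ × ℝ) × ℝ, ‖EX f ξ.1 ξ.2‖ₑ ^ q ≤ C * ∫⁻ x, M x ^ q := by
  obtain ⟨C, hC⟩ := hS q hq
  have hq0 : 0 < q := by linarith
  have hq1 : 0 < q - 1 := by linarith
  have hq3 : 0 < q - 3 := by linarith
  set ε : ℝ := (q - 3) / (q - 1) with hε
  have hε0 : 0 < ε := by positivity
  set K1 : ℝ≥0∞ := ∑' j, ENNReal.ofReal (rj j ^ ε) with hK1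
  set K2 : ℝ≥0∞ := ∑' j, ENNReal.ofReal (rj j ^ (q - 3)) with hK2
  have hK1f : K1 ≠ ∞ := sum_rj ε hε0
  have hK2f : K2 ≠ ∞ := sum_rj (q - 3) hq3
  have hKf : K1 ^ (q - 1) * (C * K2) ≠ ∞ :=
    ENNReal.mul_ne_top (ENNReal.rpow_ne_top_of_nonneg hq1.le hK1f)
      (ENNReal.mul_ne_top ENNReal.coe_ne_top hK2f)
  refine ⟨max 1 (K1 ^ (q - 1) * (C * K2)).toNNReal, ?_⟩
  intro f M hf hM h0 hW
  set I0 := ∫⁻ x, M x ^ q with hI0
  by_cases hI : I0 = ∞
  · rw [hI, ENNReal.mul_top]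
    · exact le_top
    · have : (1 : ℝ≥0) ≤ max 1 (K1 ^ (q - 1) * (C * K2)).toNNReal := le_max_left _ _
      have h2 : (1 : ℝ≥0∞) ≤ ((max 1 (K1 ^ (q - 1) * (C * K2)).toNNReal : ℝ≥0) : ℝ≥0∞) := by
        exact_mod_cast this
      exact (lt_of_lt_of_le one_pos h2).ne'
  -- integrability of f
  have hfint : ∫⁻ x, ‖f x‖ₑ ≠ ∞ := by
    have hle : ∀ x, ‖f x‖ₑ ≤ {x | sq x ≤ 1}.indicator (fun _ => (1 : ℝ≥0∞)) x + M x ^ q := by
      intro x
      by_cases hx : 1 < sq x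
      · rw [h0 x hx]; simp
      · push Not at hx
        rw [indicator_of_mem (show x ∈ {x | sq x ≤ 1} from hx)]
        have h1 : ‖f x‖ₑ ≤ M x := le_self_add.trans (hW x)
        rcases le_total (M x) 1 with h2 | h2
        · exact (h1.trans h2).trans le_self_add
        · refine (h1.trans ?_).trans le_add_self
          calc M x = M x ^ (1 : ℝ) := (ENNReal.rpow_one _).symm
            _ ≤ M x ^ q := ENNReal.rpow_le_rpow_of_exponent_le h2 (by linarith)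
    have hdm : MeasurableSet {x : ℝ × ℝ | sq x ≤ 1} := measurableSet_le sq_meas measurable_const
    have hlt : ∫⁻ x, ‖f x‖ₑ ≤ volume {x : ℝ × ℝ | sq x ≤ 1} + I0 := by
      refine (lintegral_mono hle).trans (le_of_eq ?_)
      rw [lintegral_add_left (measurable_const.indicator hdm), lintegral_indicator hdm]
      simp [hI0]
    have hvol : volume {x : ℝ × ℝ | sq x ≤ 1} < ∞ := by
      have hsub : {x : ℝ × ℝ | sq x ≤ 1} ⊆ Icc ((-1 : ℝ), (-1 : ℝ)) ((1 : ℝ), (1 : ℝ)) := by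
        intro x hx
        have hx' : x.1 ^ 2 + x.2 ^ 2 ≤ 1 := hx
        have a1 := abs_le_of_sq_le_sq' (by nlinarith [sq_nonneg x.2] : x.1 ^ 2 ≤ 1 ^ 2) one_pos.le
        have a2 := abs_le_of_sq_le_sq' (by nlinarith [sq_nonneg x.1] : x.2 ^ 2 ≤ 1 ^ 2) one_pos.le
        exact ⟨⟨a1.1, a2.1⟩, ⟨a1.2, a2.2⟩⟩
      exact lt_of_le_of_lt (measure_mono hsub) isCompact_Icc.measure_lt_top
    exact (lt_of_le_of_lt hlt (ENNReal.add_lt_top.2 ⟨hvol, lt_top_iff_ne_top.2 hI⟩)).ne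
  -- almost every angle is good
  have hgood : ∀ᵐ x : ℝ × ℝ, ∀ j, WJ M q (rj j) (ang x) ≠ ∞ := by
    have hms : ∀ j, MeasurableSet {θ | WJ M q (rj j) θ ≠ ∞} := fun j =>
      (WJ_meas hM q (rj j)) (measurableSet_singleton ∞).compl
    have hP : MeasurableSet {θ | ∀ j, WJ M q (rj j) θ ≠ ∞} := by
      have : {θ | ∀ j, WJ M q (rj j) θ ≠ ∞} = ⋂ j, {θ | WJ M q (rj j) θ ≠ ∞} := by
        ext θ
        simp only [mem_iInter]
        rfl
      rw [this]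
      exact MeasurableSet.iInter hms
    refine ae_ang (P := fun θ => ∀ j, WJ M q (rj j) θ ≠ ∞) hP ?_
    rw [ae_all_iff]
    intro j
    have h1 := WJ_int hM q (rj j) (rj_pos j)
    have h2 : ∫⁻ θ in Ioo (-π) π, WJ M q (rj j) θ ≠ ∞ :=
      (lt_of_le_of_lt h1 (ENNReal.mul_lt_top ENNReal.ofReal_lt_top (lt_top_iff_ne_top.2 hI))).ne
    filter_upwards [ae_lt_top (WJ_meas hM q (rj j)) h2] with θ hθ
    exact hθ.ne
  have hne0 : ∀ᵐ x : ℝ × ℝ, x ≠ 0 := by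
    rw [ae_iff]
    simp
  have hsum : ∀ᵐ x : ℝ × ℝ, f x = ∑' j, fj f M q j x := by
    filter_upwards [hgood, hne0] with x h1 h2
    exact (tsum_fj q h0 h2 h1).symm
  have hm : ∀ j, Measurable (fj f M q j) := fun j => fj_meas q hf hM j
  have hsq := sq_meas
  -- EX f as a sum
  have hEX : ∀ (X : ℝ × ℝ) (t : ℝ), ‖EX f X t‖ₑ ≤ ∑' j, ‖EX (fj f M q j) X t‖ₑ := by
    intro X t
    have hph : Measurable (fun x : ℝ × ℝ =>
        cexp (-(I * ((x.1 * X.1 + x.2 * X.2 + sq x * t : ℝ) : ℂ)))) := by fun_prop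
    have hn : ∀ x : ℝ × ℝ, ‖cexp (-(I * ((x.1 * X.1 + x.2 * X.2 + sq x * t : ℝ) : ℂ)))‖ₑ = 1 := by
      intro x
      rw [← ofReal_norm, show (-(I * ((x.1 * X.1 + x.2 * X.2 + sq x * t : ℝ) : ℂ))) =
        (((-(x.1 * X.1 + x.2 * X.2 + sq x * t) : ℝ) : ℂ) * I) by push_cast; ring,
        Complex.norm_exp_ofReal_mul_I, ENNReal.ofReal_one]
    have e1 : EX f X t = ∫ x : ℝ × ℝ, ∑' j,
        cexp (-(I * ((x.1 * X.1 + x.2 * X.2 + sq x * t : ℝ) : ℂ))) * fj f M q j x := by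
      unfold EX
      apply integral_congr_ae
      filter_upwards [hsum] with x hx
      rw [hx, tsum_mul_left]
    have e2 : ∑' j, ∫⁻ x : ℝ × ℝ,
        ‖cexp (-(I * ((x.1 * X.1 + x.2 * X.2 + sq x * t : ℝ) : ℂ))) * fj f M q j x‖ₑ ≠ ∞ := by
      simp_rw [enorm_mul, hn, one_mul]
      rw [← lintegral_tsum (fun j => (hm j).enorm.aemeasurable)]
      exact (lt_of_le_of_lt (lintegral_mono (fun x => tsum_fj_le q x))
        (lt_top_iff_ne_top.2 hfint)).ne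
    have hmj : ∀ j, AEStronglyMeasurable (fun x : ℝ × ℝ =>
        cexp (-(I * ((x.1 * X.1 + x.2 * X.2 + sq x * t : ℝ) : ℂ))) * fj f M q j x) volume :=
      fun j => (hph.mul (hm j)).aestronglyMeasurable
    rw [e1, integral_tsum hmj e2]
    exact enorm_tsum_le_tsum_enorm
  -- each piece
  have hpiece : ∀ j, ∫⁻ ξ : (ℝ × ℝ) × ℝ, ‖EX (fj f M q j) ξ.1 ξ.2‖ₑ ^ q ≤
      ENNReal.ofReal (rj j ^ (2 * q - 6)) * (C * I0) := by
    intro j
    have hr := rj_pos j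
    rw [EX_aff_int (fj f M q j) (hm j) 0 (rj j) hr q hq0.le]
    have e1 : (fun y => fj f M q j (0 + rj j • y)) = FJ f M q (rj j) := by
      ext y
      unfold fj
      rw [zero_add, smul_smul, inv_mul_cancel₀ hr.ne', one_smul]
    rw [e1]
    have h1 := piece q hW C hq0 hC hf hM (rj j) hr
    calc ENNReal.ofReal (rj j ^ (2 * q - 4)) *
          ∫⁻ ξ : (ℝ × ℝ) × ℝ, ‖EX (FJ f M q (rj j)) ξ.1 ξ.2‖ₑ ^ q
        ≤ ENNReal.ofReal (rj j ^ (2 * q - 4)) * (C * (ENNReal.ofReal (rj j ^ 2)⁻¹ * I0)) :=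
          mul_le_mul' le_rfl h1
      _ = (ENNReal.ofReal (rj j ^ (2 * q - 4)) * ENNReal.ofReal (rj j ^ 2)⁻¹) * (C * I0) := by ring
      _ = _ := by
          rw [← ENNReal.ofReal_mul (by positivity)]
          congr 2
          rw [← Real.rpow_natCast, ← Real.rpow_neg hr.le, ← Real.rpow_add hr]
          congr 1
          push_cast
          ring
  -- summation
  have hw0 : ∀ j, ENNReal.ofReal (rj j ^ ε) ≠ 0 := by
    intro j
    have := rj_pos j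
    rw [Ne, ENNReal.ofReal_eq_zero, not_le]
    positivity
  have hpt : ∀ ξ : (ℝ × ℝ) × ℝ, ‖EX f ξ.1 ξ.2‖ₑ ^ q ≤ K1 ^ (q - 1) * ∑' j,
      ENNReal.ofReal (rj j ^ (-(q - 3))) * ‖EX (fj f M q j) ξ.1 ξ.2‖ₑ ^ q := by
    intro ξ
    refine (ENNReal.rpow_le_rpow (hEX ξ.1 ξ.2) hq0.le).trans ?_
    refine (sum_pow (fun j => ENNReal.ofReal (rj j ^ ε)) _ q (by linarith) hw0
      (fun j => ENNReal.ofReal_ne_top)).trans (le_of_eq ?_)
    congr 1
    apply tsum_congr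
    intro j
    congr 1
    have := rj_pos j
    rw [ENNReal.ofReal_rpow_of_pos (by positivity), ← Real.rpow_mul this.le]
    congr 2
    rw [hε]
    field_simp
    ring
  calc ∫⁻ ξ : (ℝ × ℝ) × ℝ, ‖EX f ξ.1 ξ.2‖ₑ ^ q
      ≤ ∫⁻ ξ : (ℝ × ℝ) × ℝ, K1 ^ (q - 1) * ∑' j,
        ENNReal.ofReal (rj j ^ (-(q - 3))) * ‖EX (fj f M q j) ξ.1 ξ.2‖ₑ ^ q := lintegral_mono hpt
    _ = K1 ^ (q - 1) * ∑' j, ENNReal.ofReal (rj j ^ (-(q - 3))) *
          ∫⁻ ξ : (ℝ × ℝ) × ℝ, ‖EX (fj f M q j) ξ.1 ξ.2‖ₑ ^ q := by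
        have hmm : ∀ j, Measurable (fun ξ : (ℝ × ℝ) × ℝ => ‖EX (fj f M q j) ξ.1 ξ.2‖ₑ ^ q) :=
          fun j => (EX_meas (hm j)).enorm.pow_const q
        rw [lintegral_const_mul' _ _ (ENNReal.rpow_ne_top_of_nonneg hq1.le hK1f),
          lintegral_tsum (fun j => ((hmm j).const_mul _).aemeasurable)]
        congr 1
        apply tsum_congr
        intro j
        rw [lintegral_const_mul _ (hmm j)]
    _ ≤ K1 ^ (q - 1) * ∑' j, ENNReal.ofReal (rj j ^ (-(q - 3))) *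
          (ENNReal.ofReal (rj j ^ (2 * q - 6)) * (C * I0)) := by
        gcongr with j
        exact hpiece j
    _ = K1 ^ (q - 1) * (C * K2) * I0 := by
        have : ∀ j, ENNReal.ofReal (rj j ^ (-(q - 3))) *
          (ENNReal.ofReal (rj j ^ (2 * q - 6)) * (C * I0)) =
            ENNReal.ofReal (rj j ^ (q - 3)) * (C * I0) := by
          intro j
          have hr := rj_pos j
          rw [← mul_assoc, ← ENNReal.ofReal_mul (by positivity), ← Real.rpow_add hr]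
          congr 3
          ring
        simp_rw [this]
        rw [ENNReal.tsum_mul_right]
        ring
    _ ≤ _ := by
        refine mul_le_mul' ?_ le_rfl
        calc K1 ^ (q - 1) * (C * K2) = ((K1 ^ (q - 1) * (C * K2)).toNNReal : ℝ≥0∞) :=
              (ENNReal.coe_toNNReal hKf).symm
          _ ≤ _ := by
              exact_mod_cast le_max_right _ _

/-- the estimate for functions supported in the disc of radius `1/2`, with arbitrary centre `p` -/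
theorem main (hS : ShellBound) (q : ℝ) (hq : 3 < q) : ∃ C : ℝ≥0, ∀ (p : ℝ × ℝ) (f : ℝ × ℝ → ℂ)
    (M : ℝ × ℝ → ℝ≥0∞), Measurable f → Measurable M → (∀ x, 1 / 4 < sq x → f x = 0) →
    (∀ x, ‖f x‖ₑ + eVariationOn (fun s : ℝ => f (p + s • (x - p))) (Icc (1 / 4) 1) ≤ M x) →
    ∫⁻ ξ : (ℝ × ℝ) × ℝ, ‖EX f ξ.1 ξ.2‖ₑ ^ q ≤
      C * ENNReal.ofReal ((1 + √(sq p)) ^ (2 * q - 6)) * ∫⁻ x, M x ^ q := by
  obtain ⟨C, hC⟩ := main0 hS q hq
  refine ⟨C, ?_⟩
  intro p f M hf hM h0 hW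
  set ρ : ℝ := 1 + √(sq p) with hρd
  have hρ : 0 < ρ := by positivity
  have hF : Measurable (fun y => f (p + ρ • y)) := by fun_prop
  have hMF : Measurable (fun y => M (p + ρ • y)) := by fun_prop
  have h1 := hC (fun y => f (p + ρ • y)) (fun y => M (p + ρ • y)) hF hMF ?_ ?_
  · rw [EX_aff_int f hf p ρ hρ q (by linarith)]
    have e : ∫⁻ y, M (p + ρ • y) ^ q = ENNReal.ofReal (ρ ^ 2)⁻¹ * ∫⁻ x, M x ^ q := by
      have h2 := lint_aff (fun x => M (p + x) ^ q) 0 ρ hρ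
      simp only [add_zero] at h2
      rw [h2, lintegral_add_left_eq_self (fun x => M x ^ q) p]
    rw [e] at h1
    calc ENNReal.ofReal (ρ ^ (2 * q - 4)) * ∫⁻ ξ : (ℝ × ℝ) × ℝ,
          ‖EX (fun y => f (p + ρ • y)) ξ.1 ξ.2‖ₑ ^ q
        ≤ ENNReal.ofReal (ρ ^ (2 * q - 4)) *
          (C * (ENNReal.ofReal (ρ ^ 2)⁻¹ * ∫⁻ x, M x ^ q)) := mul_le_mul' le_rfl h1
      _ = C * (ENNReal.ofReal (ρ ^ (2 * q - 4)) * ENNReal.ofReal (ρ ^ 2)⁻¹) *
          ∫⁻ x, M x ^ q := by ring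
      _ = _ := by
          rw [← ENNReal.ofReal_mul (by positivity)]
          congr 3
          rw [← Real.rpow_natCast, ← Real.rpow_neg hρ.le, ← Real.rpow_add hρ]
          congr 1
          push_cast
          ring
  · intro y hy
    apply h0
    -- |p + ρ y| ≥ ρ|y| - |p| > ρ - |p| = 1
    have hs1 : √(sq p) ^ 2 = sq p := Real.sq_sqrt (by unfold sq; positivity)
    have hs2 : √(sq y) ^ 2 = sq y := Real.sq_sqrt (by unfold sq; positivity)
    have hs3 : 1 < √(sq y) := by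
      rw [← Real.sqrt_one]
      exact Real.sqrt_lt_sqrt (by norm_num) hy
    have hcs : -(√(sq p) * √(sq y)) ≤ p.1 * y.1 + p.2 * y.2 := by
      have : (p.1 * y.1 + p.2 * y.2) ^ 2 ≤ (√(sq p) * √(sq y)) ^ 2 := by
        rw [mul_pow, hs1, hs2]
        unfold sq
        nlinarith [sq_nonneg (p.1 * y.2 - p.2 * y.1)]
      exact (abs_le_of_sq_le_sq' this (by positivity)).1
    have e : sq (p + ρ • y) = sq p + 2 * ρ * (p.1 * y.1 + p.2 * y.2) + ρ ^ 2 * sq y := by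
      unfold sq
      simp only [Prod.fst_add, Prod.snd_add, Prod.smul_fst, Prod.smul_snd, smul_eq_mul]
      ring
    have h3 : (ρ * √(sq y) - √(sq p)) ^ 2 ≤ sq (p + ρ • y) := by
      rw [e, sub_sq, mul_pow, hs1, hs2]
      nlinarith
    have h4 : 1 < ρ * √(sq y) - √(sq p) := by
      have : ρ < ρ * √(sq y) := by nlinarith
      linarith [hρd]
    nlinarith
  · intro y
    have h2 := hW (p + ρ • y)
    have e : (fun s : ℝ => f (p + s • (p + ρ • y - p))) = fun s : ℝ => f (p + ρ • (s • y)) := by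
      ext s
      congr 2
      rw [add_sub_cancel_left, smul_comm]
    rw [e] at h2
    exact h2

end Pool.Agent.TH407.AR
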