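import Mathlib
import Pool.Agent.TH407.AR.M3
set_option autoImplicit false

/-! VR-M, part 4: radially decreasing functions -/

namespace Pool.Agent.TH407.AR

open MeasureTheory Set Complex
open scoped ENNReal NNReal Real

/-- variation of an antitone multiple of a constant -/
lemma var_anti (μ : ℝ → ℝ) (c : ℂ) (S : Set ℝ) (h0 : ∀ s ∈ S, 0 ≤ μ s ∧ μ s ≤ 1)
    (hμ : AntitoneOn μ S) : eVariationOn (fun s => (μ s : ℂ) * c) S ≤ ‖c‖ₑ := by
  have h1 : eVariationOn μ S ≤ 1 := by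
    have h2 : eVariationOn (fun s => -μ s) S ≤ 1 := by
      have hm : MonotoneOn (fun s => -μ s) S := fun a ha b hb hab => neg_le_neg (hμ ha hb hab)
      rw [eVariationOn]
      refine iSup_le fun p => ?_
      have h3 : ∀ i, edist (-μ (p.2.1 (i + 1))) (-μ (p.2.1 i)) =
          ENNReal.ofReal (-μ (p.2.1 (i + 1)) - -μ (p.2.1 i)) := by
        intro i
        rw [edist_dist, Real.dist_eq, abs_of_nonneg]
        have := hm (p.2.2.2 i) (p.2.2.2 (i + 1)) (p.2.2.1 (Nat.le_succ i))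
        simp only at this
        linarith
      simp_rw [h3]
      rw [← ENNReal.ofReal_sum_of_nonneg, Finset.sum_range_sub (fun i => -μ (p.2.1 i))]
      · rw [← ENNReal.ofReal_one]
        apply ENNReal.ofReal_le_ofReal
        have a1 := (h0 _ (p.2.2.2 p.1)).1
        have a2 := (h0 _ (p.2.2.2 0)).2
        linarith
      · intro i _
        have := hm (p.2.2.2 i) (p.2.2.2 (i + 1)) (p.2.2.1 (Nat.le_succ i))
        simp only at this
        linarith
    have e : eVariationOn (fun s => -μ s) S = eVariationOn μ S := by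
      unfold eVariationOn
      congr 1
      ext p
      congr 1
      ext i
      rw [edist_neg_neg]
    rw [e] at h2
    exact h2
  have hL : LipschitzOnWith ‖c‖₊ (fun x : ℝ => (x : ℂ) * c) univ := by
    apply LipschitzWith.lipschitzOnWith
    apply LipschitzWith.of_dist_le_mul
    intro x y
    rw [dist_eq_norm, ← sub_mul, norm_mul, ← Complex.ofReal_sub, Complex.norm_real, mul_comm,
      dist_eq_norm]
    rfl
  have h3 := hL.comp_eVariationOn_le (g := μ) (s := S) (mapsTo_univ _ _)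
  refine h3.trans ?_
  calc (‖c‖₊ : ℝ≥0∞) * eVariationOn μ S ≤ ‖c‖₊ * 1 := mul_le_mul' le_rfl h1
    _ = ‖c‖ₑ := by rw [mul_one]; rfl

/-- radially decreasing functions -/
theorem main_dec (hS : ShellBound) (q : ℝ) (hq : 3 < q) : ∃ C : ℝ≥0, ∀ (p : ℝ × ℝ)
    (f : ℝ × ℝ → ℂ), Measurable f → (∀ x, 1 / 4 < sq x → f x = 0) →
    (∀ (x : ℝ × ℝ) (s : ℝ), 0 < s → s ≤ 1 →
      ∃ μ : ℝ, 0 ≤ μ ∧ μ ≤ 1 ∧ f x = (μ : ℂ) * f (p + s • (x - p))) →
    ∫⁻ ξ : (ℝ × ℝ) × ℝ, ‖EX f ξ.1 ξ.2‖ₑ ^ q ≤ C * ∫⁻ x, ‖f x‖ₑ ^ q := by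
  obtain ⟨C, hC⟩ := main hS q hq
  refine ⟨C * (2 : ℝ≥0) ^ (2 * q - 6) * (2 : ℝ≥0) ^ q * 16, ?_⟩
  intro p f hf h0 hdec
  have hq0 : 0 < q := by linarith
  by_cases hz : ∀ x, f x = 0
  · have : ∀ X t, EX f X t = 0 := by
      intro X t
      unfold EX
      simp [hz]
    simp [this, ENNReal.zero_rpow_of_pos hq0]
  push Not at hz
  obtain ⟨x0, hx0⟩ := hz
  -- the centre is in the disc
  have hpd : sq p ≤ 1 / 4 := by
    have h1 : ∀ s : ℝ, 0 < s → s ≤ 1 → sq (p + s • (x0 - p)) ≤ 1 / 4 := by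
      intro s hs0 hs1
      by_contra hlt
      push Not at hlt
      obtain ⟨μ, _, _, h4⟩ := hdec x0 s hs0 hs1
      rw [h0 _ hlt, mul_zero] at h4
      exact hx0 h4
    have hc : Filter.Tendsto (fun s : ℝ => sq (p + s • (x0 - p))) (nhdsWithin 0 (Ioi 0))
        (nhds (sq p)) := by
      have hcont : Continuous (fun s : ℝ => sq (p + s • (x0 - p))) := by
        unfold sq
        fun_prop
      have := (hcont.tendsto 0).mono_left (nhdsWithin_le_nhds (s := Ioi 0))
      simpa using this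
    refine le_of_tendsto hc ?_
    filter_upwards [Ioc_mem_nhdsGT (zero_lt_one (α := ℝ))] with s hs
    exact h1 s hs.1 hs.2
  set M : ℝ × ℝ → ℝ≥0∞ := fun x => 2 * ‖f (p + (1 / 4 : ℝ) • (x - p))‖ₑ with hM
  have hMm : Measurable M := by
    simp only [hM]
    have h1 : Measurable (fun x : ℝ × ℝ => p + (1 / 4 : ℝ) • (x - p)) := by fun_prop
    exact ((hf.comp h1).enorm).const_mul 2
  have hW : ∀ x, ‖f x‖ₑ + eVariationOn (fun s : ℝ => f (p + s • (x - p))) (Icc (1 / 4) 1) ≤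
      M x := by
    intro x
    set c := f (p + (1 / 4 : ℝ) • (x - p)) with hc
    have hk : ∀ s ∈ Icc (1 / 4 : ℝ) 1, ∃ μ : ℝ, 0 ≤ μ ∧ μ ≤ 1 ∧
        f (p + s • (x - p)) = (μ : ℂ) * c := by
      intro s hs
      have hs0 : 0 < s := by linarith [hs.1]
      obtain ⟨μ, a1, a2, a3⟩ := hdec (p + s • (x - p)) ((1 / 4) / s) (by positivity)
        (by rw [div_le_one hs0]; exact hs.1)
      refine ⟨μ, a1, a2, ?_⟩
      rw [a3, hc]
      congr 2
      rw [add_sub_cancel_left, smul_smul, div_mul_cancel₀ _ hs0.ne']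
    have hfx : ‖f x‖ₑ ≤ ‖c‖ₑ := by
      obtain ⟨μ, a1, a2, a3⟩ := hdec x (1 / 4) (by norm_num) (by norm_num)
      rw [a3, enorm_mul]
      calc ‖(μ : ℂ)‖ₑ * ‖f (p + (1 / 4 : ℝ) • (x - p))‖ₑ
          ≤ 1 * ‖f (p + (1 / 4 : ℝ) • (x - p))‖ₑ := by
            gcongr
            rw [← ofReal_norm, Complex.norm_real, Real.norm_eq_abs, abs_of_nonneg a1]
            exact ENNReal.ofReal_le_one.2 a2
        _ = _ := one_mul _
    have hvar : eVariationOn (fun s : ℝ => f (p + s • (x - p))) (Icc (1 / 4) 1) ≤ ‖c‖ₑ := by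
      by_cases hc0 : c = 0
      · have he : EqOn (fun s : ℝ => f (p + s • (x - p))) (fun _ => 0) (Icc (1 / 4 : ℝ) 1) := by
          intro s hs
          obtain ⟨μ, _, _, a3⟩ := hk s hs
          simp only
          rw [a3, hc0, mul_zero]
        rw [eVariationOn.congr he, eVariationOn.constant_on]
        · simp
        · rintro _ ⟨a, _, rfl⟩ _ ⟨b, _, rfl⟩
          rfl
      · classical
        choose! μ hμ0 hμ1 hμ2 using hk
        have he : EqOn (fun s : ℝ => f (p + s • (x - p))) (fun s => (μ s : ℂ) * c)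
            (Icc (1 / 4 : ℝ) 1) := fun s hs => hμ2 s hs
        rw [eVariationOn.congr he]
        refine var_anti μ c _ (fun s hs => ⟨hμ0 s hs, hμ1 s hs⟩) ?_
        intro a ha b hb hab
        have ha0 : 0 < a := by linarith [ha.1]
        have hb0 : 0 < b := by linarith [hb.1]
        obtain ⟨ν, n0, n1, n2⟩ := hdec (p + b • (x - p)) (a / b) (by positivity)
          (by rw [div_le_one hb0]; exact hab)
        have e1 : p + (a / b) • (p + b • (x - p) - p) = p + a • (x - p) := by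
          rw [add_sub_cancel_left, smul_smul, div_mul_cancel₀ _ hb0.ne']
        rw [e1, hμ2 a ha, hμ2 b hb, ← mul_assoc] at n2
        have n3 := mul_right_cancel₀ hc0 n2
        have n4 : μ b = ν * μ a := by exact_mod_cast n3
        rw [n4]
        have := hμ0 a ha
        nlinarith
    rw [hM]
    simp only
    rw [two_mul]
    exact add_le_add hfx hvar
  have h1 := hC p f M hf hMm h0 hW
  have e1 : ∫⁻ x, M x ^ q = 2 ^ q * (16 * ∫⁻ x, ‖f x‖ₑ ^ q) := by
    have e2 : ∀ x, M x ^ q = 2 ^ q * ‖f (p + (1 / 4 : ℝ) • (x - p))‖ₑ ^ q := by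
      intro x
      rw [hM]
      exact ENNReal.mul_rpow_of_nonneg _ _ hq0.le
    simp_rw [e2]
    rw [lintegral_const_mul' _ _ (by simp)]
    congr 1
    have h2 := lint_aff (fun x => ‖f (p + x)‖ₑ ^ q) (-p) (1 / 4) (by norm_num)
    simp only [← sub_eq_add_neg] at h2
    rw [h2, lintegral_add_left_eq_self (fun x => ‖f x‖ₑ ^ q) p]
    congr 1
    norm_num
  rw [e1] at h1
  refine h1.trans ?_
  have e3 : ENNReal.ofReal ((1 + √(sq p)) ^ (2 * q - 6)) ≤ (2 : ℝ≥0∞) ^ (2 * q - 6) := by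
    have h3 : 1 + √(sq p) ≤ 2 := by
      have : √(sq p) ≤ √(1 / 4) := Real.sqrt_le_sqrt hpd
      have h5 : √(1 / 4) = 1 / 2 := by
        rw [show (1 / 4 : ℝ) = (1 / 2) ^ 2 by norm_num, Real.sqrt_sq (by norm_num)]
      rw [h5] at this
      linarith
    have h2 : (2 : ℝ≥0∞) = ENNReal.ofReal 2 := by simp
    rw [h2, ENNReal.ofReal_rpow_of_pos (by norm_num)]
    apply ENNReal.ofReal_le_ofReal
    apply Real.rpow_le_rpow (by positivity) h3 (by linarith)
  calc C * ENNReal.ofReal ((1 + √(sq p)) ^ (2 * q - 6)) * (2 ^ q * (16 * ∫⁻ x, ‖f x‖ₑ ^ q))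
      ≤ C * (2 : ℝ≥0∞) ^ (2 * q - 6) * (2 ^ q * (16 * ∫⁻ x, ‖f x‖ₑ ^ q)) := by
        gcongr
    _ = _ := by
        push_cast
        rw [ENNReal.coe_rpow_of_nonneg _ hq0.le, ENNReal.coe_rpow_of_nonneg _ (by linarith)]
        push_cast
        ring

end Pool.Agent.TH407.AR
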