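import Mathlib
import Pool.Agent.TH407.AR.Defs
set_option autoImplicit false

/-!
# VR-J (job 937, helper407, MP_5ab805_an): from the restricted to the strong estimate
-/

namespace Pool.Agent.TH407.ARx

open MeasureTheory Set Complex
open scoped ENNReal NNReal Real
open Pool.Agent.TH407.AR hiding sq


theorem meas_sq : Measurable Pool.Agent.TH407.AR.sq := by unfold Pool.Agent.TH407.AR.sq; fun_prop

theorem meas_ang : Measurable ang := by
  have h : ang = fun x : ℝ × ℝ => Complex.arg (Complex.equivRealProd.symm x) := rfl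
  rw [h]
  exact Complex.measurable_arg.comp Complex.equivRealProdCLM.symm.continuous.measurable

theorem meas_bas : Measurable bas := by
  have := meas_sq
  unfold bas
  fun_prop

theorem meas_fa {a : ℝ → ℝ → ℂ} (ha : Measurable (Function.uncurry a)) : Measurable (fa a) := by
  have h1 : Measurable (fun x : ℝ × ℝ => a (Pool.Agent.TH407.AR.sq x) (ang x)) := ha.comp (meas_sq.prodMk meas_ang)
  unfold fa
  exact (Complex.measurable_ofReal.comp meas_bas).mul h1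

theorem meas_EX {f : ℝ × ℝ → ℂ} (hf : Measurable f) :
    Measurable (fun ξ : (ℝ × ℝ) × ℝ => EX f ξ.1 ξ.2) := by
  have h : StronglyMeasurable (Function.uncurry (fun (ξ : (ℝ × ℝ) × ℝ) (x : ℝ × ℝ) =>
      cexp (-(I * ((x.1 * ξ.1.1 + x.2 * ξ.1.2 + Pool.Agent.TH407.AR.sq x * ξ.2 : ℝ) : ℂ))) * f x)) := by
    refine Measurable.stronglyMeasurable ?_
    refine Measurable.mul ?_ (hf.comp measurable_snd)
    unfold Pool.Agent.TH407.AR.sq
    fun_prop
  exact h.integral_prod_right.measurable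

theorem sq_pol {p : ℝ × ℝ} : Pool.Agent.TH407.AR.sq (polarCoord.symm p) = p.1 ^ 2 := by
  unfold Pool.Agent.TH407.AR.sq
  rw [polarCoord_symm_apply]
  nlinarith [Real.sin_sq_add_cos_sq p.2]

theorem ang_pol {p : ℝ × ℝ} (hp : p ∈ polarCoord.target) : ang (polarCoord.symm p) = p.2 := by
  unfold ang
  rw [polarCoord.right_inv hp]

/-- the `L¹` norm of `fa a` -/
theorem lint_fa {a : ℝ → ℝ → ℂ} {M : ℝ → ℝ≥0} (ha : Adm a M) :
    ∫⁻ x, ‖fa a x‖ₑ ≤ ∫⁻ θ in Ioo (-π) π, (M θ : ℝ≥0∞) := by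
  rw [← lintegral_comp_polarCoord_symm]
  have h1 : ∀ p ∈ polarCoord.target, ENNReal.ofReal p.1 • ‖fa a (polarCoord.symm p)‖ₑ ≤
      (Iic (1 : ℝ)).indicator (fun _ => (1 : ℝ≥0∞)) p.1 * (M p.2 : ℝ≥0∞) := by
    intro p hp
    have hp' := hp
    rw [polarCoord_target] at hp'
    have hr : 0 < p.1 := hp'.1
    unfold fa
    rw [sq_pol, ang_pol hp]
    by_cases h : p.1 ≤ 1
    · rw [indicator_of_mem (show p.1 ∈ Iic (1 : ℝ) from h), one_mul, enorm_mul, smul_eq_mul]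
      have h2 : ENNReal.ofReal p.1 ≤ 1 := by
        rw [← ENNReal.ofReal_one]; exact ENNReal.ofReal_le_ofReal h
      have h3 : ‖((bas (polarCoord.symm p) : ℝ) : ℂ)‖ₑ ≤ 1 := by
        rw [← ofReal_norm, Complex.norm_real, ← ENNReal.ofReal_one]
        apply ENNReal.ofReal_le_ofReal
        unfold bas
        rw [sq_pol, Real.sqrt_sq hr.le, Real.norm_of_nonneg (by positivity)]
        calc p.1 * Real.exp (-p.1 ^ 2) ≤ 1 * 1 := by
              apply mul_le_mul h _ (Real.exp_pos _).le zero_le_one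
              rw [Real.exp_le_one_iff]
              nlinarith [sq_nonneg p.1]
          _ = 1 := one_mul 1
      calc ENNReal.ofReal p.1 * (‖((bas (polarCoord.symm p) : ℝ) : ℂ)‖ₑ * ‖a (p.1 ^ 2) p.2‖ₑ)
          ≤ 1 * (1 * (M p.2 : ℝ≥0∞)) := by
            gcongr
            exact ha.bd _ _
        _ = M p.2 := by rw [one_mul, one_mul]
    · have h2 : a (p.1 ^ 2) p.2 = 0 := by
        apply ha.supp
        intro hm
        have := hm.2
        push Not at h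
        nlinarith
      rw [h2]
      simp
  calc ∫⁻ p in polarCoord.target, ENNReal.ofReal p.1 • ‖fa a (polarCoord.symm p)‖ₑ
      ≤ ∫⁻ p in polarCoord.target,
          (Iic (1 : ℝ)).indicator (fun _ => (1 : ℝ≥0∞)) p.1 * (M p.2 : ℝ≥0∞) := by
        refine setLIntegral_mono' ?_ h1
        rw [polarCoord_target]
        exact measurableSet_Ioi.prod measurableSet_Ioo
    _ = (∫⁻ r in Ioi (0 : ℝ), (Iic (1 : ℝ)).indicator (fun _ => (1 : ℝ≥0∞)) r) *
          ∫⁻ θ in Ioo (-π) π, (M θ : ℝ≥0∞) := by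
        rw [polarCoord_target, Measure.volume_eq_prod, ← Measure.prod_restrict,
          lintegral_prod_mul (f := (Iic (1 : ℝ)).indicator (fun _ => (1 : ℝ≥0∞)))
            (g := fun θ => (M θ : ℝ≥0∞))]
        · exact (measurable_const.indicator measurableSet_Iic).aemeasurable
        · exact ha.mM.coe_nnreal_ennreal.aemeasurable
    _ = ∫⁻ θ in Ioo (-π) π, (M θ : ℝ≥0∞) := by
        have : ∫⁻ r in Ioi (0 : ℝ), (Iic (1 : ℝ)).indicator (fun _ => (1 : ℝ≥0∞)) r = 1 := by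
          rw [lintegral_indicator measurableSet_Iic, Measure.restrict_restrict measurableSet_Iic,
            setLIntegral_const, one_mul]
          have : Iic (1 : ℝ) ∩ Ioi 0 = Ioc 0 1 := by
            ext x; simp [and_comm]
          rw [this, Real.volume_Ioc]
          norm_num
        rw [this, one_mul]

/-- the dyadic level of `M θ` -/
noncomputable def lv (M : ℝ → ℝ≥0) (θ : ℝ) : ℤ := ⌊Real.logb 2 (M θ)⌋

theorem meas_lv {M : ℝ → ℝ≥0} (hM : Measurable M) : Measurable (lv M) := by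
  unfold lv Real.logb
  exact ((Real.measurable_log.comp hM.coe_nnreal_real).div_const _).floor

theorem lv_lower {M : ℝ → ℝ≥0} {θ : ℝ} (h : M θ ≠ 0) : (2 : ℝ) ^ ((lv M θ : ℤ) : ℝ) ≤ M θ := by
  have h0 : (0 : ℝ) < M θ := by positivity
  calc (2 : ℝ) ^ ((lv M θ : ℤ) : ℝ) ≤ (2 : ℝ) ^ (Real.logb 2 (M θ)) :=
        Real.rpow_le_rpow_of_exponent_le one_le_two (Int.floor_le _)
    _ = M θ := Real.rpow_logb two_pos (by norm_num) h0

theorem lv_upper {M : ℝ → ℝ≥0} {θ : ℝ} : (M θ : ℝ) ≤ (2 : ℝ) ^ (((lv M θ : ℤ) : ℝ) + 1) := by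
  rcases eq_or_ne (M θ) 0 with h | h
  · rw [h]
    simp only [NNReal.coe_zero]
    positivity
  · have h0 : (0 : ℝ) < M θ := by positivity
    calc (M θ : ℝ) = (2 : ℝ) ^ (Real.logb 2 (M θ)) := (Real.rpow_logb two_pos (by norm_num) h0).symm
      _ ≤ _ := Real.rpow_le_rpow_of_exponent_le one_le_two (Int.lt_floor_add_one _).le

/-- the part of `a` on the level `k` -/
noncomputable def ak (a : ℝ → ℝ → ℂ) (M : ℝ → ℝ≥0) (k : ℤ) (s θ : ℝ) : ℂ :=
  if lv M θ = k then a s θ else 0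

/-- the part of `M` on the level `k` -/
noncomputable def Mk (M : ℝ → ℝ≥0) (k : ℤ) (θ : ℝ) : ℝ≥0 := if lv M θ = k then M θ else 0

theorem adm_ak {a : ℝ → ℝ → ℂ} {M : ℝ → ℝ≥0} (ha : Adm a M) (k : ℤ) : Adm (ak a M k) (Mk M k) := by
  have hE : MeasurableSet {θ | lv M θ = k} := meas_lv ha.mM (measurableSet_singleton k)
  refine ⟨?_, ?_, ?_, ?_, ?_⟩
  · have : Function.uncurry (ak a M k) = fun p => if p ∈ {p : ℝ × ℝ | lv M p.2 = k} then
        Function.uncurry a p else 0 := rfl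
    rw [this]
    exact Measurable.ite (measurable_snd hE) ha.ma measurable_const
  · exact Measurable.ite hE ha.mM measurable_const
  · intro s θ hs
    unfold ak
    rw [ha.supp s θ hs, ite_self]
  · intro s θ
    unfold ak Mk
    split_ifs
    · exact ha.bd s θ
    · simp
  · intro h θ
    unfold ak Mk
    split_ifs
    · exact ha.modc h θ
    · simp

theorem Mk_le (M : ℝ → ℝ≥0) (k : ℤ) (θ : ℝ) : Mk M k θ ≤ (2 : ℝ≥0) ^ ((k : ℝ) + 1) := by
  unfold Mk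
  split_ifs with h
  · subst h
    rw [← NNReal.coe_le_coe, NNReal.coe_rpow]
    exact lv_upper
  · exact zero_le

/-- the numerical inequality on one level -/
theorem lev (q p : ℝ) (hq : 2 ≤ q) (k : ℤ) (m : ℝ≥0) (hm : m = 0 ∨ (2 : ℝ) ^ (k : ℝ) ≤ m) :
    ENNReal.ofReal ((2 : ℝ) ^ (k * (q - p))) *
      (((2 : ℝ≥0) ^ ((k : ℝ) + 1) : ℝ≥0) : ℝ≥0∞) ^ (p - 2) * (m : ℝ≥0∞) ^ 2 ≤
      (((2 : ℝ≥0) ^ (p - 2) : ℝ≥0) : ℝ≥0∞) * (m : ℝ≥0∞) ^ q := by
  rcases hm with hm | hm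
  · subst hm
    simp
  · have hm0 : (0 : ℝ) < m := lt_of_lt_of_le (by positivity) hm
    have hB : (0 : ℝ≥0) < (2 : ℝ≥0) ^ ((k : ℝ) + 1) := by positivity
    rw [← ENNReal.coe_rpow_of_ne_zero hB.ne', ← ENNReal.coe_rpow_of_nonneg _ (by linarith : 0 ≤ q),
      ENNReal.ofReal, ← ENNReal.coe_pow, ← ENNReal.coe_mul, ← ENNReal.coe_mul, ← ENNReal.coe_mul,
      ENNReal.coe_le_coe, ← NNReal.coe_le_coe]
    push_cast
    rw [Real.coe_toNNReal _ (by positivity)]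
    have e1 : (2 : ℝ) ^ (k * (q - p)) * ((2 : ℝ) ^ ((k : ℝ) + 1)) ^ (p - 2) =
        (2 : ℝ) ^ (p - 2) * ((2 : ℝ) ^ (k : ℝ)) ^ (q - 2) := by
      rw [← Real.rpow_mul two_pos.le, ← Real.rpow_mul two_pos.le, ← Real.rpow_add two_pos,
        ← Real.rpow_add two_pos]
      congr 1
      ring
    have e2 : (m : ℝ) ^ q = (m : ℝ) ^ (q - 2) * (m : ℝ) ^ 2 := by
      rw [← Real.rpow_natCast (m : ℝ) 2, ← Real.rpow_add hm0]
      congr 1
      push_cast
      ring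
    rw [e1, e2, mul_assoc]
    have e3 : ((2 : ℝ) ^ (k : ℝ)) ^ (q - 2) ≤ (m : ℝ) ^ (q - 2) :=
      Real.rpow_le_rpow (by positivity) hm (by linarith)
    gcongr

/-- the bound on one level -/
theorem level {a : ℝ → ℝ → ℂ} {M : ℝ → ℝ≥0} (ha : Adm a M) (q p : ℝ) (hq : 2 ≤ q) (hp : 2 ≤ p)
    (C : ℝ≥0) (hC : ∀ (a : ℝ → ℝ → ℂ) (M : ℝ → ℝ≥0) (B : ℝ≥0), Adm a M → (∀ θ, M θ ≤ B) →
      ∫⁻ ξ : (ℝ × ℝ) × ℝ, ‖EX (fa a) ξ.1 ξ.2‖ₑ ^ p ≤
        C * (B : ℝ≥0∞) ^ (p - 2) * ∫⁻ θ in Ioo (-π) π, (M θ : ℝ≥0∞) ^ 2) (k : ℤ) :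
    ENNReal.ofReal ((2 : ℝ) ^ (k * (q - p))) *
      ∫⁻ ξ : (ℝ × ℝ) × ℝ, ‖EX (fa (ak a M k)) ξ.1 ξ.2‖ₑ ^ p ≤
      ((C * (2 : ℝ≥0) ^ (p - 2) : ℝ≥0) : ℝ≥0∞) *
        ∫⁻ θ in Ioo (-π) π, if lv M θ = k then (M θ : ℝ≥0∞) ^ q else 0 := by
  have h1 := hC _ _ ((2 : ℝ≥0) ^ ((k : ℝ) + 1)) (adm_ak ha k) (Mk_le M k)
  calc ENNReal.ofReal ((2 : ℝ) ^ (k * (q - p))) *
      ∫⁻ ξ : (ℝ × ℝ) × ℝ, ‖EX (fa (ak a M k)) ξ.1 ξ.2‖ₑ ^ p
      ≤ ENNReal.ofReal ((2 : ℝ) ^ (k * (q - p))) * (C * (((2 : ℝ≥0) ^ ((k : ℝ) + 1) : ℝ≥0) : ℝ≥0∞) ^ (p - 2) *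
          ∫⁻ θ in Ioo (-π) π, (Mk M k θ : ℝ≥0∞) ^ 2) := by gcongr
    _ = C * ∫⁻ θ in Ioo (-π) π, ENNReal.ofReal ((2 : ℝ) ^ (k * (q - p))) *
          (((2 : ℝ≥0) ^ ((k : ℝ) + 1) : ℝ≥0) : ℝ≥0∞) ^ (p - 2) * (Mk M k θ : ℝ≥0∞) ^ 2 := by
        rw [lintegral_const_mul']
        · ring
        · exact ENNReal.mul_ne_top ENNReal.ofReal_ne_top
            (ENNReal.rpow_ne_top_of_nonneg (by linarith) ENNReal.coe_ne_top)
    _ ≤ C * ∫⁻ θ in Ioo (-π) π, (((2 : ℝ≥0) ^ (p - 2) : ℝ≥0) : ℝ≥0∞) *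
          (if lv M θ = k then (M θ : ℝ≥0∞) ^ q else 0) := by
        refine mul_le_mul' le_rfl (lintegral_mono fun θ => ?_)
        by_cases h : lv M θ = k
        · rw [if_pos h]
          have h2 : Mk M k θ = M θ := by unfold Mk; rw [if_pos h]
          rw [h2]
          apply lev q p hq
          rcases eq_or_ne (M θ) 0 with h0 | h0
          · exact Or.inl h0
          · right
            rw [← h]
            exact lv_lower h0
        · have h2 : Mk M k θ = 0 := by unfold Mk; rw [if_neg h]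
          rw [h2, if_neg h]
          simp
    _ = _ := by
        rw [lintegral_const_mul' _ _ ENNReal.coe_ne_top, ENNReal.coe_mul, mul_assoc]

theorem strong_of (hR : RestrBound) (hS : SumLemma) : StrongBound := by
  intro q hq
  obtain ⟨C0, hC0⟩ := hR ((q + 3) / 2) (by linarith)
  obtain ⟨C1, hC1⟩ := hR (q + 1) (by linarith)
  obtain ⟨Cs, hCs⟩ := hS ((q + 3) / 2) q (q + 1) (by linarith) (by linarith) (by linarith)
  set D0 : ℝ≥0 := C0 * (2 : ℝ≥0) ^ ((q + 3) / 2 - 2) with hD0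
  set D1 : ℝ≥0 := C1 * (2 : ℝ≥0) ^ (q + 1 - 2) with hD1
  refine ⟨Cs * (D0 + D1) + 1, ?_⟩
  intro a M ha
  by_cases hfin : ∫⁻ θ in Ioo (-π) π, (M θ : ℝ≥0∞) ^ q = ⊤
  · rw [hfin, ENNReal.mul_top]
    · exact le_top
    · rw [ENNReal.coe_ne_zero]; positivity
  -- integrability of `fa a`
  have hM1 : ∫⁻ θ in Ioo (-π) π, (M θ : ℝ≥0∞) ≠ ⊤ := by
    have h1 : ∫⁻ θ in Ioo (-π) π, (M θ : ℝ≥0∞) ≤ ∫⁻ θ in Ioo (-π) π, (1 + (M θ : ℝ≥0∞) ^ q) := by
      refine lintegral_mono fun θ => ?_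
      rcases le_total (M θ : ℝ≥0∞) 1 with h | h
      · exact h.trans le_self_add
      · calc (M θ : ℝ≥0∞) = (M θ : ℝ≥0∞) ^ (1 : ℝ) := (ENNReal.rpow_one _).symm
          _ ≤ (M θ : ℝ≥0∞) ^ q := ENNReal.rpow_le_rpow_of_exponent_le h (by linarith)
          _ ≤ _ := le_add_self
    refine ne_top_of_le_ne_top ?_ h1
    rw [lintegral_add_left measurable_const, setLIntegral_const, one_mul]
    refine ENNReal.add_ne_top.mpr ⟨?_, hfin⟩
    rw [Real.volume_Ioo]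
    exact ENNReal.ofReal_ne_top
  have hint : ∫⁻ x, ‖fa a x‖ₑ ≠ ⊤ := ne_top_of_le_ne_top hM1 (lint_fa ha)
  have hmeas : ∀ k, Measurable (fa (ak a M k)) := fun k => meas_fa (adm_ak ha k).ma
  -- decomposition
  have hfak : ∀ k x, fa (ak a M k) x = if lv M (ang x) = k then fa a x else 0 := by
    intro k x
    unfold fa ak
    split_ifs
    · rfl
    · rw [mul_zero]
  have hsum : ∀ x, ∑' k, ‖fa (ak a M k) x‖ₑ = ‖fa a x‖ₑ := by
    intro x
    rw [tsum_eq_single (lv M (ang x))]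
    · rw [hfak, if_pos rfl]
    · intro k hk
      rw [hfak, if_neg (Ne.symm hk), enorm_zero]
  have hEX : ∀ X t, ‖EX (fa a) X t‖ₑ ≤ ∑' k, ‖EX (fa (ak a M k)) X t‖ₑ := by
    intro X t
    have hnorm : ∀ x : ℝ × ℝ, ‖cexp (-(I * ((x.1 * X.1 + x.2 * X.2 + Pool.Agent.TH407.AR.sq x * t : ℝ) : ℂ)))‖ₑ = 1 := by
      intro x
      rw [← ofReal_norm, Complex.norm_exp]
      simp
    have h1 : EX (fa a) X t = ∑' k, EX (fa (ak a M k)) X t := by
      unfold EX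
      rw [← integral_tsum]
      · refine integral_congr_ae (ae_of_all _ fun x => ?_)
        simp only
        rw [tsum_eq_single (lv M (ang x))]
        · rw [hfak, if_pos rfl]
        · intro k hk
          rw [hfak, if_neg (Ne.symm hk), mul_zero]
      · intro k
        refine AEStronglyMeasurable.mul ?_ (hmeas k).aestronglyMeasurable
        refine Measurable.aestronglyMeasurable ?_
        unfold Pool.Agent.TH407.AR.sq
        fun_prop
      · have h2 : ∀ k, ∫⁻ x : ℝ × ℝ, ‖cexp (-(I * ((x.1 * X.1 + x.2 * X.2 + Pool.Agent.TH407.AR.sq x * t : ℝ) : ℂ))) *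
            fa (ak a M k) x‖ₑ = ∫⁻ x : ℝ × ℝ, ‖fa (ak a M k) x‖ₑ := by
          intro k
          refine lintegral_congr fun x => ?_
          rw [enorm_mul, hnorm, one_mul]
        simp only [h2]
        rw [← lintegral_tsum (fun k => (hmeas k).enorm.aemeasurable)]
        simp only [hsum]
        exact hint
    rw [h1]
    exact enorm_tsum_le_tsum_enorm
  -- main computation
  have hmE : ∀ k, Measurable (fun ξ : (ℝ × ℝ) × ℝ => ‖EX (fa (ak a M k)) ξ.1 ξ.2‖ₑ) :=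
    fun k => (meas_EX (hmeas k)).enorm
  have hlev0 := level ha q ((q + 3) / 2) (by linarith) (by linarith) C0 hC0
  have hlev1 := level ha q (q + 1) (by linarith) (by linarith) C1 hC1
  have hE : ∀ k : ℤ, MeasurableSet {θ | lv M θ = k} := fun k =>
    meas_lv ha.mM (measurableSet_singleton k)
  have hA : ∑' k : ℤ, ∫⁻ θ in Ioo (-π) π, (if lv M θ = k then (M θ : ℝ≥0∞) ^ q else 0) =
      ∫⁻ θ in Ioo (-π) π, (M θ : ℝ≥0∞) ^ q := by
    rw [← lintegral_tsum]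
    · refine lintegral_congr fun θ => ?_
      rw [tsum_eq_single (lv M θ)]
      · rw [if_pos rfl]
      · intro k hk
        rw [if_neg (Ne.symm hk)]
    · intro k
      exact (Measurable.ite (hE k) (ha.mM.coe_nnreal_ennreal.pow_const q)
        measurable_const).aemeasurable
  calc ∫⁻ ξ : (ℝ × ℝ) × ℝ, ‖EX (fa a) ξ.1 ξ.2‖ₑ ^ q
      ≤ ∫⁻ ξ : (ℝ × ℝ) × ℝ, Cs * (∑' k : ℤ, ENNReal.ofReal ((2 : ℝ) ^ (k * (q - (q + 3) / 2))) *
            ‖EX (fa (ak a M k)) ξ.1 ξ.2‖ₑ ^ ((q + 3) / 2) +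
          ∑' k : ℤ, ENNReal.ofReal ((2 : ℝ) ^ (k * (q - (q + 1)))) *
            ‖EX (fa (ak a M k)) ξ.1 ξ.2‖ₑ ^ (q + 1)) := by
        refine lintegral_mono fun ξ => ?_
        refine (ENNReal.rpow_le_rpow (hEX ξ.1 ξ.2) (by linarith)).trans ?_
        refine (hCs (fun k => ‖EX (fa (ak a M k)) ξ.1 ξ.2‖ₑ)).trans (le_of_eq ?_)
        congr 3
        funext k
        congr 3
        ring
    _ = Cs * ((∑' k : ℤ, ENNReal.ofReal ((2 : ℝ) ^ (k * (q - (q + 3) / 2))) *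
            ∫⁻ ξ : (ℝ × ℝ) × ℝ, ‖EX (fa (ak a M k)) ξ.1 ξ.2‖ₑ ^ ((q + 3) / 2)) +
          ∑' k : ℤ, ENNReal.ofReal ((2 : ℝ) ^ (k * (q - (q + 1)))) *
            ∫⁻ ξ : (ℝ × ℝ) × ℝ, ‖EX (fa (ak a M k)) ξ.1 ξ.2‖ₑ ^ (q + 1)) := by
        rw [lintegral_const_mul' _ _ ENNReal.coe_ne_top, lintegral_add_left, lintegral_tsum,
          lintegral_tsum]
        · congr 2
          · congr 1
            funext k
            rw [lintegral_const_mul' _ _ ENNReal.ofReal_ne_top]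
          · congr 1
            funext k
            rw [lintegral_const_mul' _ _ ENNReal.ofReal_ne_top]
        · intro k
          exact (((hmE k).pow_const _).const_mul _).aemeasurable
        · intro k
          exact (((hmE k).pow_const _).const_mul _).aemeasurable
        · exact Measurable.tsum fun k => ((hmE k).pow_const _).const_mul _
    _ ≤ Cs * ((∑' k : ℤ, (D0 : ℝ≥0∞) *
            ∫⁻ θ in Ioo (-π) π, (if lv M θ = k then (M θ : ℝ≥0∞) ^ q else 0)) +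
          ∑' k : ℤ, (D1 : ℝ≥0∞) *
            ∫⁻ θ in Ioo (-π) π, (if lv M θ = k then (M θ : ℝ≥0∞) ^ q else 0)) := by
        exact mul_le_mul' le_rfl (add_le_add (ENNReal.tsum_le_tsum hlev0)
          (ENNReal.tsum_le_tsum hlev1))
    _ = ((Cs * (D0 + D1) : ℝ≥0) : ℝ≥0∞) * ∫⁻ θ in Ioo (-π) π, (M θ : ℝ≥0∞) ^ q := by
        rw [ENNReal.tsum_mul_left, ENNReal.tsum_mul_left, hA]
        push_cast
        ring
    _ ≤ _ := by
        gcongr
        exact le_self_add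

end Pool.Agent.TH407.ARx
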