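import Mathlib
import Pool.Agent.TH407.AR.Defs
import Pool.Agent.TH407.AR.Strong
set_option autoImplicit false

/-!
# VR-G4 (job 935, helper407, MP_5ab805_an): the restricted estimate
-/

namespace Pool.Agent.TH407.ARx

open MeasureTheory Set Complex
open scoped ENNReal NNReal Real
open Pool.Agent.TH407.AR hiding sq


/-- the `L²` norm -/
noncomputable def W (b : ℝ → ℝ → ℂ) : ℝ≥0∞ := ∫⁻ s : ℝ, ∫⁻ θ in Ioo (-π) π, ‖b s θ‖ₑ ^ 2

theorem W_swap {b : ℝ → ℝ → ℂ} (hb : Measurable (Function.uncurry b)) :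
    W b = ∫⁻ θ in Ioo (-π) π, ∫⁻ s : ℝ, ‖b s θ‖ₑ ^ 2 := by
  unfold W
  rw [lintegral_lintegral_swap]
  exact (hb.enorm.pow_const 2).aemeasurable

theorem meas_EXt {f : ℝ × ℝ → ℂ} (hf : Measurable f) (t : ℝ) :
    Measurable (fun X : ℝ × ℝ => EX f X t) := by
  have h1 : Measurable (fun X : ℝ × ℝ => (X, t)) := measurable_id.prodMk measurable_const
  have h2 := (meas_EX hf).comp h1
  exact h2

/-- fixed time bound from `L²` and `L^∞` -/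
theorem fixed (h3 : FaBounds) (q : ℝ) (hq : 2 ≤ q) {b : ℝ → ℝ → ℂ}
    (hb : Measurable (Function.uncurry b)) (hW : W b ≠ ∞) (t : ℝ) :
    ∫⁻ X : ℝ × ℝ, ‖EX (fa b) X t‖ₑ ^ q ≤
      ENNReal.ofReal (2 * π ^ 2) * (W b ^ ((q - 2) / 2) * W b) := by
  obtain ⟨_, _, h4, h5⟩ := h3 b hb hW
  have h6 : ∀ X, ‖EX (fa b) X t‖ₑ ^ q ≤ W b ^ ((q - 2) / 2) * ‖EX (fa b) X t‖ₑ ^ 2 := by
    intro X
    have e : ‖EX (fa b) X t‖ₑ ^ q = (‖EX (fa b) X t‖ₑ ^ 2) ^ ((q - 2) / 2) * ‖EX (fa b) X t‖ₑ ^ 2 := by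
      rw [← ENNReal.rpow_natCast, ← ENNReal.rpow_mul, ← ENNReal.rpow_add_of_nonneg _ _
        (by push_cast; linarith) (by norm_num)]
      congr 1
      push_cast
      ring
    rw [e]
    exact mul_le_mul' (ENNReal.rpow_le_rpow (h5 X t) (by linarith)) le_rfl
  calc ∫⁻ X : ℝ × ℝ, ‖EX (fa b) X t‖ₑ ^ q
      ≤ ∫⁻ X : ℝ × ℝ, W b ^ ((q - 2) / 2) * ‖EX (fa b) X t‖ₑ ^ 2 := lintegral_mono h6
    _ = W b ^ ((q - 2) / 2) * ∫⁻ X : ℝ × ℝ, ‖EX (fa b) X t‖ₑ ^ 2 := by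
        rw [lintegral_const_mul' _ _ (ENNReal.rpow_ne_top_of_nonneg (by linarith) hW)]
    _ ≤ W b ^ ((q - 2) / 2) * (ENNReal.ofReal (2 * π ^ 2) * W b) := mul_le_mul' le_rfl (h4 t)
    _ = _ := by ring

/-- interpolation between `L²` and `L⁴` -/
theorem interp (q : ℝ) (hq2 : 2 ≤ q) (hq4 : q ≤ 4) (u : ℝ × ℝ → ℂ) (hu : Measurable u) :
    ∫⁻ X, ‖u X‖ₑ ^ q ≤ (∫⁻ X, ‖u X‖ₑ ^ 2) ^ ((4 - q) / 2) * (∫⁻ X, ‖u X‖ₑ ^ 4) ^ ((q - 2) / 2) := by
  refine le_trans (le_of_eq ?_) (ENNReal.lintegral_mul_norm_pow_le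
    (hu.enorm.pow_const 2).aemeasurable (hu.enorm.pow_const 4).aemeasurable
    (p := (4 - q) / 2) (q := (q - 2) / 2) (by linarith) (by linarith) (by ring))
  refine lintegral_congr fun X => ?_
  rw [← ENNReal.rpow_natCast, ← ENNReal.rpow_natCast, ← ENNReal.rpow_mul, ← ENNReal.rpow_mul,
    ← ENNReal.rpow_add_of_nonneg _ _ (by push_cast; linarith) (by push_cast; linarith)]
  congr 1
  push_cast
  ring

theorem EX_add {b c : ℝ → ℝ → ℂ} (hb : Integrable (fa b)) (hc : Integrable (fa c)) (X : ℝ × ℝ)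
    (t : ℝ) : EX (fa (fun s θ => b s θ + c s θ)) X t = EX (fa b) X t + EX (fa c) X t := by
  have hbd : ∀ f : ℝ × ℝ → ℂ, Integrable f → Integrable (fun x : ℝ × ℝ =>
      cexp (-(I * ((x.1 * X.1 + x.2 * X.2 + Pool.Agent.TH407.AR.sq x * t : ℝ) : ℂ))) * f x) := by
    intro f hf
    refine hf.bdd_mul (c := 1) ?_ (ae_of_all _ fun x => ?_)
    · refine Measurable.aestronglyMeasurable ?_
      unfold Pool.Agent.TH407.AR.sq
      fun_prop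
    · rw [Complex.norm_exp]
      simp
  unfold EX
  rw [← integral_add (hbd _ hb) (hbd _ hc)]
  refine integral_congr_ae (ae_of_all _ fun x => ?_)
  simp only [fa]
  ring

theorem exists_const (h1 : FourierFacts) (h2 : LowL4) (h3 : FaBounds) (q : ℝ) (hq : 3 < q)
    (hq4 : q ≤ 7 / 2) : ∃ K : ℝ≥0∞, K ≠ ∞ ∧ ∀ (a : ℝ → ℝ → ℂ) (M : ℝ → ℝ≥0) (B : ℝ≥0), Adm a M →
      (∀ θ, M θ ≤ B) → ∀ t : ℝ, ∫⁻ X : ℝ × ℝ, ‖EX (fa a) X t‖ₑ ^ q ≤
        K * ENNReal.ofReal ((1 + ‖t‖) ^ (-(1 + (q - 3) / 2))) * ((B : ℝ≥0∞) ^ (q - 2) *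
          ∫⁻ θ in Ioo (-π) π, (M θ : ℝ≥0∞) ^ 2) := by
  have hq2 : 0 < q - 2 := by linarith
  obtain ⟨C, hC⟩ := h2 ((q - 3) / (q - 2)) (div_pos (by linarith) hq2)
    (by rw [div_le_iff₀ hq2]; linarith)
  set γ : ℝ := 1 + (q - 3) / 2 with hγ
  -- constants
  set P : ℝ≥0∞ := ENNReal.ofReal (2 * π) ^ ((q - 2) / 2) with hP
  have hPt : P ≠ ∞ := ENNReal.rpow_ne_top_of_nonneg (by linarith) ENNReal.ofReal_ne_top
  set A1 : ℝ≥0∞ := ENNReal.ofReal (2 * π ^ 2) ^ ((4 - q) / 2) * (C : ℝ≥0∞) ^ ((q - 2) / 2) with hA1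
  have hA1t : A1 ≠ ∞ := ENNReal.mul_ne_top
    (ENNReal.rpow_ne_top_of_nonneg (by linarith) ENNReal.ofReal_ne_top)
    (ENNReal.rpow_ne_top_of_nonneg (by linarith) ENNReal.coe_ne_top)
  set A2 : ℝ≥0∞ := ENNReal.ofReal (2 * π ^ 2) * P * ENNReal.ofReal (6 ^ (q / 2)) with hA2
  have hA2t : A2 ≠ ∞ := ENNReal.mul_ne_top (ENNReal.mul_ne_top ENNReal.ofReal_ne_top hPt)
    ENNReal.ofReal_ne_top
  set K0 : ℝ≥0∞ := ENNReal.ofReal (2 * π ^ 2) * P + (2 : ℝ≥0∞) ^ (q - 1) * (A1 + A2) with hK0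
  have h2t : (2 : ℝ≥0∞) ^ (q - 1) ≠ ∞ := ENNReal.rpow_ne_top_of_nonneg (by linarith) (by norm_num)
  refine ⟨K0 * ENNReal.ofReal (2 ^ γ), ?_, ?_⟩
  · refine ENNReal.mul_ne_top (ENNReal.add_ne_top.mpr ⟨ENNReal.mul_ne_top ENNReal.ofReal_ne_top hPt,
      ENNReal.mul_ne_top h2t (ENNReal.add_ne_top.mpr ⟨hA1t, hA2t⟩)⟩) ENNReal.ofReal_ne_top
  intro a M B ha hMB t
  set N : ℝ≥0∞ := ∫⁻ θ in Ioo (-π) π, (M θ : ℝ≥0∞) ^ 2 with hN
  have hNB : N ≤ ENNReal.ofReal (2 * π) * (B : ℝ≥0∞) ^ 2 := by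
    calc N ≤ ∫⁻ θ in Ioo (-π) π, (B : ℝ≥0∞) ^ 2 := by
          refine lintegral_mono fun θ => ?_
          exact pow_le_pow_left' (ENNReal.coe_le_coe.mpr (hMB θ)) 2
      _ = _ := by
          rw [setLIntegral_const, Real.volume_Ioo, mul_comm]
          congr 2
          ring
  have hNt : N ≠ ∞ := ne_top_of_le_ne_top (ENNReal.mul_ne_top ENNReal.ofReal_ne_top
    (ENNReal.pow_ne_top ENNReal.coe_ne_top)) hNB
  have hB2 : ((B : ℝ≥0∞) ^ 2) ^ ((q - 2) / 2) = (B : ℝ≥0∞) ^ (q - 2) := by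
    rw [← ENNReal.rpow_natCast, ← ENNReal.rpow_mul]
    congr 1
    push_cast
    ring
  have hNp : N ^ ((q - 2) / 2) ≤ P * (B : ℝ≥0∞) ^ (q - 2) := by
    calc N ^ ((q - 2) / 2) ≤ (ENNReal.ofReal (2 * π) * (B : ℝ≥0∞) ^ 2) ^ ((q - 2) / 2) :=
          ENNReal.rpow_le_rpow hNB (by linarith)
      _ = _ := by rw [ENNReal.mul_rpow_of_nonneg _ _ (by linarith), hB2]
  -- `L²` norm of `a`
  have hWa : W a ≤ N := by
    rw [W_swap ha.ma]
    refine lintegral_mono fun θ => ?_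
    calc ∫⁻ s : ℝ, ‖a s θ‖ₑ ^ 2 ≤ ∫⁻ s : ℝ, (Icc (0 : ℝ) 1).indicator (fun _ => (M θ : ℝ≥0∞) ^ 2) s := by
          refine lintegral_mono fun s => ?_
          by_cases hs : s ∈ Icc (0 : ℝ) 1
          · rw [indicator_of_mem hs]
            exact pow_le_pow_left' (ha.bd s θ) 2
          · rw [ha.supp s θ hs]
            simp
      _ = (M θ : ℝ≥0∞) ^ 2 := by
          rw [lintegral_indicator measurableSet_Icc, setLIntegral_const, Real.volume_Icc]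
          simp
  have hwt : ∀ x : ℝ, 0 ≤ x → (x < 1 → 1 ≤ ENNReal.ofReal (2 ^ γ) * ENNReal.ofReal ((1 + x) ^ (-γ))) ∧
      (1 ≤ x → ENNReal.ofReal (x ^ (-γ)) ≤ ENNReal.ofReal (2 ^ γ) * ENNReal.ofReal ((1 + x) ^ (-γ))) := by
    intro x hx
    have hγ0 : 0 < γ := by rw [hγ]; linarith
    constructor
    · intro hx1
      rw [← ENNReal.ofReal_mul (by positivity), ← ENNReal.ofReal_one]
      apply ENNReal.ofReal_le_ofReal
      rw [Real.rpow_neg (by linarith), ← div_eq_mul_inv, one_le_div (by positivity)]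
      exact Real.rpow_le_rpow (by linarith) (by linarith) hγ0.le
    · intro hx1
      rw [← ENNReal.ofReal_mul (by positivity)]
      apply ENNReal.ofReal_le_ofReal
      rw [Real.rpow_neg hx, Real.rpow_neg (by linarith), ← div_eq_mul_inv, ← one_div,
        div_le_div_iff₀ (by positivity) (by positivity), one_mul, ← Real.mul_rpow two_pos.le hx]
      exact Real.rpow_le_rpow (by linarith) (by linarith) hγ0.le
  rcases lt_or_ge ‖t‖ 1 with ht | ht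
  · -- small times
    have h4 := fixed h3 q (by linarith) ha.ma (ne_top_of_le_ne_top hNt hWa) t
    calc ∫⁻ X : ℝ × ℝ, ‖EX (fa a) X t‖ₑ ^ q
        ≤ ENNReal.ofReal (2 * π ^ 2) * (W a ^ ((q - 2) / 2) * W a) := h4
      _ ≤ ENNReal.ofReal (2 * π ^ 2) * (P * (B : ℝ≥0∞) ^ (q - 2) * N) := by
          exact mul_le_mul' le_rfl (mul_le_mul'
            ((ENNReal.rpow_le_rpow hWa (by linarith)).trans hNp) hWa)
      _ = (ENNReal.ofReal (2 * π ^ 2) * P) * 1 * ((B : ℝ≥0∞) ^ (q - 2) * N) := by ring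
      _ ≤ K0 * (ENNReal.ofReal (2 ^ γ) * ENNReal.ofReal ((1 + ‖t‖) ^ (-γ))) *
            ((B : ℝ≥0∞) ^ (q - 2) * N) := by
          exact mul_le_mul' (mul_le_mul' le_self_add ((hwt ‖t‖ (norm_nonneg t)).1 ht)) le_rfl
      _ = _ := by ring
  · -- large times
    have ht0 : 0 < ‖t‖ := by linarith
    obtain ⟨_, _, hT⟩ := h1 a M ha
    obtain ⟨f1, f2, f3⟩ := hT ‖t‖ ht0
    set b1 := aT a ‖t‖ with hb1
    set b2 : ℝ → ℝ → ℂ := fun s θ => a s θ - b1 s θ with hb2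
    have hb2m : Measurable (Function.uncurry b2) := ha.ma.sub f1
    have hW1 : W b1 ≤ N := by
      rw [W_swap f1]
      exact lintegral_mono fun θ => f2 θ
    have hW2 : W b2 ≤ N * ENNReal.ofReal (6 / ‖t‖) := by
      rw [W_swap hb2m, hN, ← lintegral_mul_const' _ _ ENNReal.ofReal_ne_top]
      exact lintegral_mono fun θ => f3 θ
    have hW1t : W b1 ≠ ∞ := ne_top_of_le_ne_top hNt hW1
    have hW2t : W b2 ≠ ∞ := ne_top_of_le_ne_top (ENNReal.mul_ne_top hNt ENNReal.ofReal_ne_top) hW2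
    have g1 := h3 b1 f1 hW1t
    have g2 := h3 b2 hb2m hW2t
    have hadd : ∀ X, EX (fa a) X t = EX (fa b1) X t + EX (fa b2) X t := by
      intro X
      rw [← EX_add g1.1 g2.1]
      congr 2
      funext s θ
      simp only [hb2]
      ring
    -- first part
    have i1 : ∫⁻ X : ℝ × ℝ, ‖EX (fa b1) X t‖ₑ ^ q ≤
        A1 * ENNReal.ofReal (‖t‖ ^ (-γ)) * ((B : ℝ≥0∞) ^ (q - 2) * N) := by
      have h4 := hC a M B ha hMB ‖t‖ ht t (le_of_eq (Real.norm_eq_abs t))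
      have hNN : N = N ^ ((4 - q) / 2) * N ^ ((q - 2) / 2) := by
        rw [← ENNReal.rpow_add_of_nonneg _ _ (by linarith) (by linarith)]
        rw [show (4 - q) / 2 + (q - 2) / 2 = 1 by ring, ENNReal.rpow_one]
      have hTp : ENNReal.ofReal (‖t‖ ^ (-2 + (q - 3) / (q - 2))) ^ ((q - 2) / 2) =
          ENNReal.ofReal (‖t‖ ^ (-γ)) := by
        rw [ENNReal.ofReal_rpow_of_pos (by positivity), ← Real.rpow_mul ht0.le]
        congr 2
        rw [hγ]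
        field_simp
        ring
      calc ∫⁻ X : ℝ × ℝ, ‖EX (fa b1) X t‖ₑ ^ q
          ≤ (∫⁻ X, ‖EX (fa b1) X t‖ₑ ^ 2) ^ ((4 - q) / 2) *
              (∫⁻ X, ‖EX (fa b1) X t‖ₑ ^ 4) ^ ((q - 2) / 2) :=
            interp q (by linarith) (by linarith) _ (meas_EXt (meas_fa f1) t)
        _ ≤ (ENNReal.ofReal (2 * π ^ 2) * N) ^ ((4 - q) / 2) *
              (C * ENNReal.ofReal (‖t‖ ^ (-2 + (q - 3) / (q - 2))) * B ^ 2 * N) ^ ((q - 2) / 2) := by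
            apply mul_le_mul'
            · exact ENNReal.rpow_le_rpow ((g1.2.2.1 t).trans (mul_le_mul' le_rfl hW1)) (by linarith)
            · exact ENNReal.rpow_le_rpow h4 (by linarith)
        _ = A1 * ENNReal.ofReal (‖t‖ ^ (-γ)) * ((B : ℝ≥0∞) ^ (q - 2) *
              (N ^ ((4 - q) / 2) * N ^ ((q - 2) / 2))) := by
            rw [ENNReal.mul_rpow_of_nonneg _ _ (by linarith), ENNReal.mul_rpow_of_nonneg _ _ (by linarith),
              ENNReal.mul_rpow_of_nonneg _ _ (by linarith), ENNReal.mul_rpow_of_nonneg _ _ (by linarith),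
              hTp, hB2, hA1]
            ring
        _ = _ := by rw [← hNN]
    -- second part
    have i2 : ∫⁻ X : ℝ × ℝ, ‖EX (fa b2) X t‖ₑ ^ q ≤
        A2 * ENNReal.ofReal (‖t‖ ^ (-γ)) * ((B : ℝ≥0∞) ^ (q - 2) * N) := by
      have h4 := fixed h3 q (by linarith) hb2m hW2t t
      have h5 : ENNReal.ofReal (6 / ‖t‖) ^ ((q - 2) / 2) * ENNReal.ofReal (6 / ‖t‖) ≤
          ENNReal.ofReal (6 ^ (q / 2)) * ENNReal.ofReal (‖t‖ ^ (-γ)) := by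
        have h6 : (0 : ℝ) < 6 / ‖t‖ := by positivity
        rw [ENNReal.ofReal_rpow_of_pos h6, ← ENNReal.ofReal_mul (by positivity),
          ← ENNReal.ofReal_mul (by positivity)]
        apply ENNReal.ofReal_le_ofReal
        have h7 : (6 / ‖t‖) ^ ((q - 2) / 2) * (6 / ‖t‖) = (6 / ‖t‖) ^ (q / 2) := by
          nth_rw 2 [← Real.rpow_one (6 / ‖t‖)]
          rw [← Real.rpow_add h6]
          congr 1
          ring
        rw [h7, Real.div_rpow (by norm_num) ht0.le, div_eq_mul_inv, ← Real.rpow_neg ht0.le]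
        refine mul_le_mul_of_nonneg_left (Real.rpow_le_rpow_of_exponent_le ht ?_) (by positivity)
        rw [hγ]; linarith
      calc ∫⁻ X : ℝ × ℝ, ‖EX (fa b2) X t‖ₑ ^ q
          ≤ ENNReal.ofReal (2 * π ^ 2) * (W b2 ^ ((q - 2) / 2) * W b2) := h4
        _ ≤ ENNReal.ofReal (2 * π ^ 2) * ((N * ENNReal.ofReal (6 / ‖t‖)) ^ ((q - 2) / 2) *
              (N * ENNReal.ofReal (6 / ‖t‖))) := by
            exact mul_le_mul' le_rfl (mul_le_mul' (ENNReal.rpow_le_rpow hW2 (by linarith)) hW2)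
        _ = ENNReal.ofReal (2 * π ^ 2) * (N ^ ((q - 2) / 2) * N) *
              (ENNReal.ofReal (6 / ‖t‖) ^ ((q - 2) / 2) * ENNReal.ofReal (6 / ‖t‖)) := by
            rw [ENNReal.mul_rpow_of_nonneg _ _ (by linarith)]
            ring
        _ ≤ ENNReal.ofReal (2 * π ^ 2) * (P * (B : ℝ≥0∞) ^ (q - 2) * N) *
              (ENNReal.ofReal (6 ^ (q / 2)) * ENNReal.ofReal (‖t‖ ^ (-γ))) := by
            exact mul_le_mul' (mul_le_mul' le_rfl (mul_le_mul' hNp le_rfl)) h5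
        _ = _ := by rw [hA2]; ring
    calc ∫⁻ X : ℝ × ℝ, ‖EX (fa a) X t‖ₑ ^ q
        ≤ ∫⁻ X : ℝ × ℝ, (2 : ℝ≥0∞) ^ (q - 1) * (‖EX (fa b1) X t‖ₑ ^ q + ‖EX (fa b2) X t‖ₑ ^ q) := by
          refine lintegral_mono fun X => ?_
          rw [hadd X]
          exact (ENNReal.rpow_le_rpow (enorm_add_le _ _) (by linarith)).trans
            (ENNReal.rpow_add_le_mul_rpow_add_rpow _ _ (by linarith))
      _ = (2 : ℝ≥0∞) ^ (q - 1) * ((∫⁻ X : ℝ × ℝ, ‖EX (fa b1) X t‖ₑ ^ q) +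
            ∫⁻ X : ℝ × ℝ, ‖EX (fa b2) X t‖ₑ ^ q) := by
          rw [lintegral_const_mul' _ _ h2t, lintegral_add_left]
          exact (meas_EXt (meas_fa f1) t).enorm.pow_const q
      _ ≤ (2 : ℝ≥0∞) ^ (q - 1) * (A1 * ENNReal.ofReal (‖t‖ ^ (-γ)) * ((B : ℝ≥0∞) ^ (q - 2) * N) +
            A2 * ENNReal.ofReal (‖t‖ ^ (-γ)) * ((B : ℝ≥0∞) ^ (q - 2) * N)) := by
          exact mul_le_mul' le_rfl (add_le_add i1 i2)
      _ = ((2 : ℝ≥0∞) ^ (q - 1) * (A1 + A2)) * ENNReal.ofReal (‖t‖ ^ (-γ)) *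
            ((B : ℝ≥0∞) ^ (q - 2) * N) := by ring
      _ ≤ K0 * (ENNReal.ofReal (2 ^ γ) * ENNReal.ofReal ((1 + ‖t‖) ^ (-γ))) *
            ((B : ℝ≥0∞) ^ (q - 2) * N) := by
          exact mul_le_mul' (mul_le_mul' le_add_self ((hwt ‖t‖ (norm_nonneg t)).2 ht)) le_rfl
      _ = _ := by ring

theorem restr_of (h1 : FourierFacts) (h2 : LowL4) (h3 : FaBounds) : RestrBound := by
  intro q hq
  set r : ℝ := min q (7 / 2) with hr
  have hr3 : 3 < r := lt_min hq (by norm_num)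
  have hrq : r ≤ q := min_le_left _ _
  obtain ⟨K, hK, hb⟩ := exists_const h1 h2 h3 r hr3 (min_le_right _ _)
  set J : ℝ≥0∞ := ∫⁻ t : ℝ, ENNReal.ofReal ((1 + ‖t‖) ^ (-(1 + (r - 3) / 2))) with hJ
  have hJt : J ≠ ∞ := by
    refine (finite_integral_one_add_norm ?_).ne
    simp only [Module.finrank_self, Nat.cast_one]
    linarith
  set P : ℝ≥0∞ := ENNReal.ofReal (2 * π) ^ ((q - r) / 2) with hP
  have hPt : P ≠ ∞ := ENNReal.rpow_ne_top_of_nonneg (by linarith) ENNReal.ofReal_ne_top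
  refine ⟨(P * K * J).toNNReal, ?_⟩
  intro a M B ha hMB
  rw [ENNReal.coe_toNNReal (ENNReal.mul_ne_top (ENNReal.mul_ne_top hPt hK) hJt)]
  set N : ℝ≥0∞ := ∫⁻ θ in Ioo (-π) π, (M θ : ℝ≥0∞) ^ 2 with hN
  have hNB : N ≤ ENNReal.ofReal (2 * π) * (B : ℝ≥0∞) ^ 2 := by
    calc N ≤ ∫⁻ θ in Ioo (-π) π, (B : ℝ≥0∞) ^ 2 := by
          refine lintegral_mono fun θ => ?_
          exact pow_le_pow_left' (ENNReal.coe_le_coe.mpr (hMB θ)) 2
      _ = _ := by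
          rw [setLIntegral_const, Real.volume_Ioo, mul_comm]
          congr 2
          ring
  have hNt : N ≠ ∞ := ne_top_of_le_ne_top (ENNReal.mul_ne_top ENNReal.ofReal_ne_top
    (ENNReal.pow_ne_top ENNReal.coe_ne_top)) hNB
  have hWa : W a ≤ N := by
    rw [W_swap ha.ma]
    refine lintegral_mono fun θ => ?_
    calc ∫⁻ s : ℝ, ‖a s θ‖ₑ ^ 2 ≤ ∫⁻ s : ℝ, (Icc (0 : ℝ) 1).indicator (fun _ => (M θ : ℝ≥0∞) ^ 2) s := by
          refine lintegral_mono fun s => ?_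
          by_cases hs : s ∈ Icc (0 : ℝ) 1
          · rw [indicator_of_mem hs]
            exact pow_le_pow_left' (ha.bd s θ) 2
          · rw [ha.supp s θ hs]
            simp
      _ = (M θ : ℝ≥0∞) ^ 2 := by
          rw [lintegral_indicator measurableSet_Icc, setLIntegral_const, Real.volume_Icc]
          simp
  obtain ⟨_, _, _, h5⟩ := h3 a ha.ma (ne_top_of_le_ne_top hNt hWa)
  have hpt : ∀ ξ : (ℝ × ℝ) × ℝ, ‖EX (fa a) ξ.1 ξ.2‖ₑ ^ q ≤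
      (P * (B : ℝ≥0∞) ^ (q - r)) * ‖EX (fa a) ξ.1 ξ.2‖ₑ ^ r := by
    intro ξ
    have e : ‖EX (fa a) ξ.1 ξ.2‖ₑ ^ q =
        (‖EX (fa a) ξ.1 ξ.2‖ₑ ^ 2) ^ ((q - r) / 2) * ‖EX (fa a) ξ.1 ξ.2‖ₑ ^ r := by
      rw [← ENNReal.rpow_natCast, ← ENNReal.rpow_mul, ← ENNReal.rpow_add_of_nonneg _ _
        (by push_cast; linarith) (by linarith)]
      congr 1
      push_cast
      ring
    rw [e]
    refine mul_le_mul' ?_ le_rfl
    calc (‖EX (fa a) ξ.1 ξ.2‖ₑ ^ 2) ^ ((q - r) / 2) ≤ (ENNReal.ofReal (2 * π) * (B : ℝ≥0∞) ^ 2) ^ ((q - r) / 2) :=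
          ENNReal.rpow_le_rpow (((h5 ξ.1 ξ.2).trans hWa).trans hNB) (by linarith)
      _ = P * (B : ℝ≥0∞) ^ (q - r) := by
          rw [ENNReal.mul_rpow_of_nonneg _ _ (by linarith), ← ENNReal.rpow_natCast (B : ℝ≥0∞) 2,
            ← ENNReal.rpow_mul]
          congr 2
          push_cast
          ring
  have hPB : P * (B : ℝ≥0∞) ^ (q - r) ≠ ∞ :=
    ENNReal.mul_ne_top hPt (ENNReal.rpow_ne_top_of_nonneg (by linarith) ENNReal.coe_ne_top)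
  have hmE : Measurable (fun ξ : (ℝ × ℝ) × ℝ => ‖EX (fa a) ξ.1 ξ.2‖ₑ ^ r) :=
    (meas_EX (meas_fa ha.ma)).enorm.pow_const r
  have hBr : (B : ℝ≥0∞) ^ (q - r) * (B : ℝ≥0∞) ^ (r - 2) = (B : ℝ≥0∞) ^ (q - 2) := by
    rw [← ENNReal.rpow_add_of_nonneg _ _ (by linarith) (by linarith)]
    congr 1
    ring
  have hfinB : (B : ℝ≥0∞) ^ (r - 2) * N ≠ ∞ :=
    ENNReal.mul_ne_top (ENNReal.rpow_ne_top_of_nonneg (by linarith) ENNReal.coe_ne_top) hNt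
  calc ∫⁻ ξ : (ℝ × ℝ) × ℝ, ‖EX (fa a) ξ.1 ξ.2‖ₑ ^ q
      ≤ ∫⁻ ξ : (ℝ × ℝ) × ℝ, (P * (B : ℝ≥0∞) ^ (q - r)) * ‖EX (fa a) ξ.1 ξ.2‖ₑ ^ r :=
        lintegral_mono hpt
    _ = (P * (B : ℝ≥0∞) ^ (q - r)) * ∫⁻ t : ℝ, ∫⁻ X : ℝ × ℝ, ‖EX (fa a) X t‖ₑ ^ r := by
        rw [lintegral_const_mul' _ _ hPB, Measure.volume_eq_prod, lintegral_prod_symm _ hmE.aemeasurable]
    _ ≤ (P * (B : ℝ≥0∞) ^ (q - r)) * ∫⁻ t : ℝ,
          K * ENNReal.ofReal ((1 + ‖t‖) ^ (-(1 + (r - 3) / 2))) * ((B : ℝ≥0∞) ^ (r - 2) * N) :=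
        mul_le_mul' le_rfl (lintegral_mono fun t => hb a M B ha hMB t)
    _ = (P * (B : ℝ≥0∞) ^ (q - r)) * (K * J * ((B : ℝ≥0∞) ^ (r - 2) * N)) := by
        rw [lintegral_mul_const' _ _ hfinB, lintegral_const_mul' _ _ hK]
    _ = P * K * J * ((B : ℝ≥0∞) ^ (q - r) * (B : ℝ≥0∞) ^ (r - 2)) * N := by ring
    _ = _ := by rw [hBr]

end Pool.Agent.TH407.ARx
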